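import Pool.Agent.Lib.MP_93e743_qp.Gram

/-!
Integrality at `p` of the sums over the sets with `p ∣ n i`.
-/

namespace Pool.Agent.Lib.MP_93e743_co

open Finset

set_option linter.unusedSectionVars false

variable {ι X : Type*} [Fintype ι] [Fintype X] [DecidableEq ι] [DecidableEq X]

/-- A rational number with two coprime denominators is an integer. -/
lemma int_of_two {z : ℚ} {a b : ℤ} (hab : IsCoprime a b) (ha : ∃ k : ℤ, (a : ℚ) * z = k)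
    (hb : ∃ k : ℤ, (b : ℚ) * z = k) : ∃ k : ℤ, z = k := by
  obtain ⟨u, v, huv⟩ := hab
  obtain ⟨k1, h1⟩ := ha
  obtain ⟨k2, h2⟩ := hb
  refine ⟨u * k1 + v * k2, ?_⟩
  have huv' : (u : ℚ) * a + v * b = 1 := by exact_mod_cast huv
  push_cast
  rw [← h1, ← h2]
  linear_combination (-z) * huv'

lemma sum_int (n : ι → ℕ) (hn : ∀ i, (n i : ℚ) ≠ 0) (S : Finset ι) (D : ℕ)
    (hD : ∀ i ∈ S, n i ∣ D) (e : ι → ℤ) :
    ∃ k : ℤ, (D : ℚ) * ∑ i ∈ S, (e i : ℚ) * (n i : ℚ)⁻¹ = k := by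
  refine ⟨∑ i ∈ S, e i * ((D / n i : ℕ) : ℤ), ?_⟩
  rw [Finset.mul_sum, Int.cast_sum]
  refine Finset.sum_congr rfl fun i hi => ?_
  obtain ⟨c, hc⟩ := hD i hi
  have hpos : 0 < n i := Nat.pos_of_ne_zero (by intro h0; exact hn i (by rw [h0]; simp))
  have h2 : D / n i = c := by rw [hc, Nat.mul_div_cancel_left _ hpos]
  have h3 : (D : ℚ) = n i * c := by exact_mod_cast hc
  have h4 := hn i
  rw [h2, h3, Int.cast_mul, Int.cast_natCast]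
  field_simp

namespace IntSys

variable {A : ι → Finset X} {n : ι → ℕ} {x y g : ℕ}

lemma pint_gen (h : IntSys A n x y g) {p : ℕ} (hp : p.Prime)
    (L : ℕ) (hL : ∀ i, p ∣ n i → n i ∣ p * L) (e : ι → ℤ) (D0 : ℕ) (hD0 : Nat.Coprime D0 p)
    (htot : ∃ k : ℤ, (D0 : ℚ) * ∑ i, (e i : ℚ) * (n i : ℚ)⁻¹ = k) :
    ∃ z : ℤ, (L : ℚ) * ∑ i ∈ univ.filter (fun i => p ∣ n i), (e i : ℚ) * (n i : ℚ)⁻¹ = z := by
  have hn : ∀ i, (n i : ℚ) ≠ 0 := fun i => (h.qn i).ne'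
  set Z := univ.filter (fun i => p ∣ n i) with hZ
  set W := univ.filter (fun i => ¬ p ∣ n i) with hW
  set E := ∏ i ∈ W, n i with hE
  have hEc : Nat.Coprime E p := by
    rw [hE]
    refine Nat.Coprime.prod_left fun i hi => ?_
    have h1 : ¬ p ∣ n i := (Finset.mem_filter.mp hi).2
    rw [Nat.coprime_comm]
    exact (Nat.Prime.coprime_iff_not_dvd hp).mpr h1
  have hsplit : ∑ i ∈ Z, (e i : ℚ) * (n i : ℚ)⁻¹ + ∑ i ∈ W, (e i : ℚ) * (n i : ℚ)⁻¹ =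
      ∑ i, (e i : ℚ) * (n i : ℚ)⁻¹ :=
    Finset.sum_filter_add_sum_filter_not univ (fun i => p ∣ n i) _
  have hZ1 := sum_int n hn Z (p * L) (fun i hi => hL i (Finset.mem_filter.mp hi).2) e
  have hW1 := sum_int n hn W E (fun i hi => Finset.dvd_prod_of_mem _ hi) e
  set S := ∑ i ∈ Z, (e i : ℚ) * (n i : ℚ)⁻¹
  set S' := ∑ i ∈ W, (e i : ℚ) * (n i : ℚ)⁻¹
  set T := ∑ i, (e i : ℚ) * (n i : ℚ)⁻¹
  obtain ⟨k1, h1⟩ := hZ1
  obtain ⟨k2, h2⟩ := hW1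
  obtain ⟨k3, h3⟩ := htot
  have hc : IsCoprime ((p : ℕ) : ℤ) ((D0 * E : ℕ) : ℤ) := by
    rw [Nat.isCoprime_iff_coprime, Nat.coprime_comm]
    exact Nat.Coprime.mul_left hD0 hEc
  refine int_of_two hc ⟨k1, ?_⟩ ⟨L * (E * k3 - D0 * k2), ?_⟩
  · rw [← h1]; push_cast; ring
  · have h4 : S = T - S' := by linarith
    push_cast
    rw [← h2, ← h3, h4]
    ring

theorem pint0 (h : IntSys A n x y g) {p : ℕ} (hp : p.Prime) (hx : ¬ p ∣ x) (hy : ¬ p ∣ y)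
    (L : ℕ) (hL : ∀ i, p ∣ n i → n i ∣ p * L) :
    ∃ z : ℤ, (L : ℚ) * M0 n (univ.filter fun i => p ∣ n i) = z := by
  have hx' := (Nat.coprime_comm.mp ((Nat.Prime.coprime_iff_not_dvd hp).mpr hx))
  have hy' := (Nat.coprime_comm.mp ((Nat.Prime.coprime_iff_not_dvd hp).mpr hy))
  obtain ⟨z, hz⟩ := h.pint_gen hp L hL (fun _ => 1) (x * y) (Nat.Coprime.mul_left hx' hy') (by
    refine ⟨((x : ℤ) + y) ^ 2, ?_⟩
    have h1 := h.inv_all
    simp only [Int.cast_one, one_mul]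
    rw [h1]
    have := h.qx
    have := h.qy
    push_cast
    field_simp)
  refine ⟨z, ?_⟩
  rw [← hz]
  unfold M0
  simp

theorem pint1 (h : IntSys A n x y g) {p : ℕ} (hp : p.Prime) (hy : ¬ p ∣ y)
    (L : ℕ) (hL : ∀ i, p ∣ n i → n i ∣ p * L) (P : X) :
    ∃ z : ℤ, (L : ℚ) * M1 A n (univ.filter fun i => p ∣ n i) P = z := by
  have hy' := (Nat.coprime_comm.mp ((Nat.Prime.coprime_iff_not_dvd hp).mpr hy))
  have e1 : ∀ i, chi A i P * (n i : ℚ)⁻¹ = ((if P ∈ A i then 1 else 0 : ℤ) : ℚ) * (n i : ℚ)⁻¹ :=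
    fun i => by rw [chi_eq]
  obtain ⟨z, hz⟩ := h.pint_gen hp L hL (fun i => if P ∈ A i then 1 else 0) y hy' (by
    refine ⟨(x : ℤ) + y, ?_⟩
    have h1 := h.sys.s1 P
    simp_rw [← e1]
    rw [h1, h.qalpha]
    have := h.qy
    push_cast
    field_simp)
  refine ⟨z, ?_⟩
  rw [← hz]
  unfold M1
  simp_rw [e1]

theorem pint2 (h : IntSys A n x y g) {p : ℕ} (hp : p.Prime) (hy : ¬ p ∣ y)
    (L : ℕ) (hL : ∀ i, p ∣ n i → n i ∣ p * L) {P Q : X} (hPQ : P ≠ Q) :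
    ∃ z : ℤ, (L : ℚ) * M2 A n (univ.filter fun i => p ∣ n i) P Q = z := by
  have hy' := (Nat.coprime_comm.mp ((Nat.Prime.coprime_iff_not_dvd hp).mpr hy))
  have e1 : ∀ i, chi A i P * chi A i Q * (n i : ℚ)⁻¹ =
      ((if P ∈ A i ∧ Q ∈ A i then 1 else 0 : ℤ) : ℚ) * (n i : ℚ)⁻¹ := by
    intro i
    rw [chi_mul]
    split <;> simp
  obtain ⟨z, hz⟩ := h.pint_gen hp L hL (fun i => if P ∈ A i ∧ Q ∈ A i then 1 else 0) y hy' (by
    refine ⟨(x : ℤ), ?_⟩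
    have h1 := h.sys.s2 P Q hPQ
    simp_rw [← e1]
    rw [h1, h.qalpha]
    have := h.qy
    have := h.qx
    push_cast
    field_simp)
  refine ⟨z, ?_⟩
  rw [← hz]
  unfold M2
  simp_rw [e1]

end IntSys

end Pool.Agent.Lib.MP_93e743_co
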