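import Pool.Agent.Lib.MP_93e743_qp.Gram

/-!
The end of Part I in the case `x = p + 1`, `y = 1`.
-/

namespace Pool.Agent.Lib.MP_93e743_co

open Finset

set_option linter.unusedSectionVars false

variable {ι X : Type*} [Fintype ι] [Fintype X] [DecidableEq ι] [DecidableEq X]

lemma mul_pred_nonneg (p k : ℤ) (_hp : 0 ≤ p) : 0 ≤ (p * k + p) * (p * k) := by
  have h1 : (p * k + p) * (p * k) = p ^ 2 * (k * (k + 1)) := by ring
  rw [h1]
  have h2 : 0 ≤ k * (k + 1) := by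
    rcases le_or_gt 0 k with h | h
    · exact mul_nonneg h (by linarith)
    · have h3 : k + 1 ≤ 0 := by linarith
      nlinarith
  positivity

namespace CtxA

variable {A : ι → Finset X} {n : ι → ℕ} {x y g : ℕ} {i0 : ι} {q p m : ℕ} {l : ℤ}
  {t : X → X → ℤ}

/-- Consecutive multiples of `p`. -/
lemma two_mult (c : CtxA A n x y g i0 q p m l t) (i : ι) :
    0 ≤ ((n i : ℤ) - (g * y + 1 - p)) * ((n i : ℤ) - (g * y + 1)) := by
  obtain ⟨a, ha⟩ := c.dvd_n i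
  obtain ⟨b, hb⟩ := c.dvd_r2
  have hb' : (g : ℤ) * y + 1 = p * b := by exact_mod_cast hb
  have ha' : (n i : ℤ) = p * a := by exact_mod_cast ha
  rw [hb', ha']
  have h1 := mul_pred_nonneg (p : ℤ) ((a : ℤ) - b) (by positivity)
  have e : ((p : ℤ) * a - (p * b - p)) * (p * a - p * b) =
      (p * ((a : ℤ) - b) + p) * (p * ((a : ℤ) - b)) := by ring
  rw [e]
  exact h1

/-- Row FB. -/
theorem falseB (c : CtxA A n x y g i0 q p m l t) (C2 : ℕ) (hr : g * y + 1 ≤ C2 * p)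
    (hm : m = 1) (hy : y = 1) (hp : (2 * C2 + 4) ^ 2 < p) : False := by
  have h1 := c.sys.K7 ((g : ℤ) * y + 1 - p) ((g : ℤ) * y + 1) (fun i => c.two_mult i)
  have hx := c.hx
  have hp2 : (2 : ℤ) ≤ p := by exact_mod_cast c.hp.two_le
  have hg : (0 : ℤ) < g := by exact_mod_cast c.sys.hg
  subst hm hy
  have hxZ : (x : ℤ) = p + 1 := by rw [hx]; push_cast; ring
  have hrZ : (g : ℤ) + 1 ≤ C2 * p := by
    have : g + 1 ≤ C2 * p := by simpa using hr
    exact_mod_cast this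
  have hpZ : (2 * (C2 : ℤ) + 4) ^ 2 < p := by exact_mod_cast hp
  rw [hxZ] at h1
  push_cast at h1
  set P : ℤ := (p : ℤ) with hP
  set G : ℤ := (g : ℤ) with hG
  set C : ℤ := (C2 : ℤ) with hC
  have hC0 : 0 ≤ C := by rw [hC]; positivity
  set D : ℤ := G * (P + 2) + (P + 1) ^ 2 + 1 with hD
  have h2 : 0 ≤ (D - P * (P + 2) ^ 2) * D + (P + 1) * P ^ 2 * (G * (P + 2) + 1) := by
    have e : (D - P * (P + 2) ^ 2) * D + (P + 1) * P ^ 2 * (G * (P + 2) + 1) =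
        (((P + 1) + 1) ^ 2 * (G * 1 + 1 - P) - (P + 1) * 1 * (G * ((P + 1) + 1) + 2)) *
          (((P + 1) + 1) ^ 2 * (G * 1 + 1) - (P + 1) * 1 * (G * ((P + 1) + 1) + 2)) +
        (P + 1) * 1 * ((P + 1) - 1) ^ 2 * (G * ((P + 1) + 1) + 1) := by
      rw [hD]; ring
    rw [e]
    exact h1
  have hG1 : 1 ≤ G := by linarith
  have h3 : P ^ 5 ≤ D ^ 2 := by
    have e : D ^ 2 - P ^ 5 = ((D - P * (P + 2) ^ 2) * D + (P + 1) * P ^ 2 * (G * (P + 2) + 1)) +
        (G * (P + 2) + 1) * (P * (3 * P + 4)) +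
        (P * ((P + 2) ^ 2 * (P + 1) ^ 2) - P ^ 5) := by
      rw [hD]; ring
    have h4 : 0 ≤ (G * (P + 2) + 1) * (P * (3 * P + 4)) := by positivity
    have h5 : 0 ≤ P * ((P + 2) ^ 2 * (P + 1) ^ 2) - P ^ 5 := by
      have e2 : P * ((P + 2) ^ 2 * (P + 1) ^ 2) - P ^ 5 =
          P * (6 * P ^ 3 + 13 * P ^ 2 + 12 * P + 4) := by ring
      rw [e2]; positivity
    linarith
  have h6 : D ≤ (2 * C + 4) * P ^ 2 := by
    have h7 : (G + 1) * (P + 2) ≤ (C * P) * (P + 2) :=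
      mul_le_mul_of_nonneg_right hrZ (by linarith)
    have h8 : (C * P) * (P + 2) ≤ (C * P) * (2 * P) :=
      mul_le_mul_of_nonneg_left (by linarith) (by positivity)
    nlinarith
  have hD0 : 0 ≤ D := by positivity
  have h9 : D ^ 2 ≤ ((2 * C + 4) * P ^ 2) ^ 2 := pow_le_pow_left₀ hD0 h6 2
  have h10 : ((2 * C + 4) * P ^ 2) ^ 2 < P * P ^ 4 := by
    have e : ((2 * C + 4) * P ^ 2) ^ 2 = (2 * C + 4) ^ 2 * P ^ 4 := by ring
    rw [e]
    exact mul_lt_mul_of_pos_right hpZ (by positivity)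
  have e5 : P * P ^ 4 = P ^ 5 := by ring
  linarith

end CtxA

end Pool.Agent.Lib.MP_93e743_co
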