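import Pool.Agent.Lib.MP_93e743_qp.Gram

/-!
A point `P` for which `Φ P` is small.
-/

namespace Pool.Agent.Lib.MP_93e743_co

open Finset

set_option linter.unusedSectionVars false

variable {ι X : Type*} [Fintype ι] [Fintype X] [DecidableEq ι] [DecidableEq X]

namespace IntSys

variable {A : ι → Finset X} {n : ι → ℕ} {x y g : ℕ}

theorem exists_generic (h : IntSys A n x y g) (K : ℕ) (U : Finset X) (hU : U.Nonempty)
    (hb : ∀ i, ∀ P ∈ U, P ∉ A i → -((K : ℤ) * (g * y + 1)) ≤ bz A x g i) :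
    ∃ P ∈ U, (U.card : ℚ) * y * Phi A n x g P ≤ (1 + K) * (g * y + 1) ^ 2 * (x + y) := by
  by_contra hcon
  push Not at hcon
  have hy := h.qy
  have hx := h.qx
  have hg := h.qg
  have hUpos : (0 : ℚ) < U.card := by exact_mod_cast Finset.card_pos.mpr hU
  have h1 : ∑ P ∈ U, (1 + (K : ℚ)) * (g * y + 1) ^ 2 * (x + y) <
      ∑ P ∈ U, (U.card : ℚ) * y * Phi A n x g P := Finset.sum_lt_sum_of_nonempty hU hcon
  rw [Finset.sum_const, nsmul_eq_mul, ← Finset.mul_sum] at h1
  have h2 : ∑ P ∈ U, Phi A n x g P =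
      ∑ i, ((U \ A i).card : ℚ) * ((bz A x g i : ℚ) ^ 2 * (n i : ℚ)⁻¹) := by
    unfold Phi
    exact sum_compl_comm A univ U _
  have h3 : ∀ i, ((U \ A i).card : ℚ) * ((bz A x g i : ℚ) ^ 2 * (n i : ℚ)⁻¹) ≤
      ((1 + K) * (g * y + 1)) * ((bz A x g i : ℚ) ^ 2 * (n i : ℚ)⁻¹) := by
    intro i
    have hn := h.qn i
    refine mul_le_mul_of_nonneg_right ?_ (by positivity)
    rcases (U \ A i).eq_empty_or_nonempty with he | ⟨P, hP⟩
    · rw [he]; simp; positivity
    · have hP' := Finset.mem_sdiff.mp hP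
      have h4 := hb i P hP'.1 hP'.2
      have h5 : ((U \ A i).card : ℤ) ≤ (((A i)ᶜ.card : ℕ) : ℤ) := by
        exact_mod_cast Finset.card_le_card (fun Q hQ =>
          Finset.mem_compl.mpr (Finset.mem_sdiff.mp hQ).2)
      rw [h.compl_card i] at h5
      have h6 : ((U \ A i).card : ℤ) ≤ (1 + K) * (g * y + 1) := by linarith
      exact_mod_cast h6
  have h4 : ∑ P ∈ U, Phi A n x g P ≤ ((1 + K) * (g * y + 1)) * ((x + y) * (g * y + 1) / y) := by
    rw [h2, ← h.sum_b_sq, Finset.mul_sum]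
    exact Finset.sum_le_sum fun i _ => h3 i
  have h5 : (U.card : ℚ) * y * ∑ P ∈ U, Phi A n x g P ≤
      (U.card : ℚ) * y * (((1 + K) * (g * y + 1)) * ((x + y) * (g * y + 1) / y)) :=
    mul_le_mul_of_nonneg_left h4 (by positivity)
  have h6 : (U.card : ℚ) * y * (((1 + K) * (g * y + 1)) * ((x + y) * (g * y + 1) / y)) =
      (U.card : ℚ) * ((1 + K) * (g * y + 1) ^ 2 * (x + y)) := by
    field_simp
  linarith

theorem lam_bound (h : IntSys A n x y g) (K : ℕ) (hK : 0 < K) (i : ι)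
    (hi : bz A x g i < -((K : ℤ) * (g * y + 1))) :
    (K : ℚ) ^ 2 * (x + y) * ((A i)ᶜ.card : ℕ) ≤
      (K + 1) ^ 2 * x * ((bz A x g i : ℚ) ^ 2 * (n i : ℚ)⁻¹) := by
  have hy := h.qy
  have hx := h.qx
  have hxy := h.qxy
  have hg := h.qg
  have hn := h.qn i
  have hKq : (0 : ℚ) < K := by exact_mod_cast hK
  have h1 : ((A i)ᶜ.card : ℚ) = g * y + 1 - bz A x g i := by
    exact_mod_cast h.compl_card i
  have h2 : ((x : ℚ) - y) * bz A x g i = x * (g * y + 1) - (x + y) * n i := by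
    exact_mod_cast h.bz_eq i
  have h3 : (bz A x g i : ℚ) < -((K : ℚ) * (g * y + 1)) := by exact_mod_cast hi
  rw [h1]
  set R : ℚ := (g : ℚ) * y + 1 with hR
  set b : ℚ := (bz A x g i : ℚ) with hb
  have hR0 : 0 < R := by positivity
  set B := -b with hB
  have hBR : K * R < B := by linarith
  have hB0 : 0 < B := lt_trans (by positivity) hBR
  have h4 : (K : ℚ) * (R - b) ≤ (K + 1) * B := by rw [hB] at *; linarith
  have h5 : (K : ℚ) * ((x + y) * n i) ≤ (K + 1) * x * B := by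
    have e : ((x : ℚ) + y) * n i = x * R + (x - y) * B := by rw [hB]; linarith
    rw [e]
    have h6 : (x : ℚ) * (K * R) ≤ x * B := mul_le_mul_of_nonneg_left hBR.le hx.le
    have h7 : (K : ℚ) * ((x - y) * B) ≤ K * (x * B) :=
      mul_le_mul_of_nonneg_left (mul_le_mul_of_nonneg_right (by linarith) hB0.le) hKq.le
    linarith
  have h6 : ((K : ℚ) * (R - b)) * (K * ((x + y) * n i)) ≤ ((K + 1) * B) * ((K + 1) * x * B) := by
    apply mul_le_mul h4 h5
    · positivity
    · positivity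
  have h7 : (K : ℚ) ^ 2 * (x + y) * (R - b) * n i ≤ (K + 1) ^ 2 * x * b ^ 2 := by
    have e : (K + 1 : ℚ) ^ 2 * x * b ^ 2 = ((K + 1) * B) * ((K + 1) * x * B) := by
      rw [hB]; ring
    rw [e]
    linarith
  have h8 : (K : ℚ) ^ 2 * (x + y) * (R - b) = (K : ℚ) ^ 2 * (x + y) * (R - b) * n i * (n i : ℚ)⁻¹ := by
    field_simp
  rw [h8]
  calc (K : ℚ) ^ 2 * (x + y) * (R - b) * n i * (n i : ℚ)⁻¹
      ≤ (K + 1) ^ 2 * x * b ^ 2 * (n i : ℚ)⁻¹ :=
        mul_le_mul_of_nonneg_right h7 (by positivity)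
    _ = _ := by ring

/-- The points outside of the large complements. -/
def UU (A : ι → Finset X) (x y g K : ℕ) : Finset X :=
  univ.filter fun P => ∀ i, bz A x g i < -((K : ℤ) * (g * y + 1)) → P ∈ A i

lemma UU_spec (K : ℕ) (i : ι) (P : X) (hP : P ∈ UU A x y g K) (hPi : P ∉ A i) :
    -((K : ℤ) * (g * y + 1)) ≤ bz A x g i := by
  by_contra hcon
  rw [not_le] at hcon
  exact hPi ((Finset.mem_filter.mp hP).2 i hcon)

lemma UU_card (K : ℕ) : Fintype.card X ≤ (UU A x y g K).card +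
    ∑ i ∈ univ.filter (fun i => bz A x g i < -((K : ℤ) * (g * y + 1))), (A i)ᶜ.card := by
  set W := univ.filter (fun i => bz A x g i < -((K : ℤ) * (g * y + 1))) with hW
  have h1 : (univ : Finset X) ⊆ UU A x y g K ∪ W.biUnion fun i => (A i)ᶜ := by
    intro P _
    by_cases hP : P ∈ UU A x y g K
    · exact Finset.mem_union_left _ hP
    · apply Finset.mem_union_right
      have h2 : ¬ ∀ i, bz A x g i < -((K : ℤ) * (g * y + 1)) → P ∈ A i := by
        intro h3
        exact hP (Finset.mem_filter.mpr ⟨Finset.mem_univ _, h3⟩)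
      push Not at h2
      obtain ⟨i, hi1, hi2⟩ := h2
      exact Finset.mem_biUnion.mpr ⟨i, Finset.mem_filter.mpr ⟨Finset.mem_univ _, hi1⟩,
        Finset.mem_compl.mpr hi2⟩
  calc Fintype.card X = (univ : Finset X).card := rfl
    _ ≤ _ := Finset.card_le_card h1
    _ ≤ _ := Finset.card_union_le _ _
    _ ≤ _ := Nat.add_le_add_left Finset.card_biUnion_le _

end IntSys

namespace CtxA

variable {A : ι → Finset X} {n : ι → ℕ} {x y g : ℕ} {i0 : ι} {q p m : ℕ} {l : ℤ}
  {t : X → X → ℤ}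

open IntSys in
theorem genericA (c : CtxA A n x y g i0 q p m l t) (hp3 : 3 ≤ p) (h8 : 8 * (q * p) ≤ g * y + 1)
    (h3 : p * (x + y) ≤ 3 * (y * (g * y + 1))) :
    ∃ P, Phi A n x g P ≤ 1776 * q ^ 2 * g * y := by
  have h := c.sys
  have hy := h.qy
  have hx := h.qx
  have hxy := h.qxy
  have hg := h.qg
  have hq2 : (2 : ℚ) ≤ q := by exact_mod_cast c.hq.two_le
  have hp3q : (3 : ℚ) ≤ p := by exact_mod_cast hp3
  have h8q : 8 * ((q : ℚ) * p) ≤ g * y + 1 := by exact_mod_cast h8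
  have h3q : (p : ℚ) * (x + y) ≤ 3 * (y * (g * y + 1)) := by exact_mod_cast h3
  have hb0 : ((x : ℚ) - y) * bz A x g i0 = x * (g * y + 1) - (x + y) * (q * p) := by
    have := h.bz_eq i0
    rw [c.root] at this
    exact_mod_cast this
  have hn0 : (n i0 : ℚ) = q * p := by rw [c.root]; push_cast; ring
  set R : ℚ := (g : ℚ) * y + 1 with hR
  have hR0 : 0 < R := by positivity
  set M : ℚ := (x : ℚ) - y with hM
  have hM0 : 0 < M := by linarith
  set b : ℚ := (bz A x g i0 : ℚ) with hb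
  -- `b` is large
  have hb1 : 3 * (x * R) ≤ 4 * (M * b) := by
    rw [hb0]
    have h5 : ((x : ℚ) + y) * (q * p) ≤ (2 * x) * (q * p) :=
      mul_le_mul_of_nonneg_right (by linarith) (by positivity)
    have h6 : (x : ℚ) * (8 * (q * p)) ≤ x * R := mul_le_mul_of_nonneg_left h8q hx.le
    linarith
  have hb2 : 0 < b := by
    have : 0 < M * b := by
      have : 0 < (x : ℚ) * R := by positivity
      linarith
    exact (mul_pos_iff_of_pos_left hM0).mp this
  have hb3 : ((x : ℚ) + y) * R * p ≤ 6 * y * b ^ 2 := by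
    have h5 : (3 * (x * R)) ^ 2 ≤ (4 * (M * b)) ^ 2 := pow_le_pow_left₀ (by positivity) hb1 2
    have h6 : M ^ 2 ≤ (x : ℚ) ^ 2 := pow_le_pow_left₀ hM0.le (by linarith) 2
    have h7 : (16 * M ^ 2) * (((x : ℚ) + y) * R * p) ≤ (16 * M ^ 2) * (6 * y * b ^ 2) := by
      have h9 : (16 * M ^ 2) * (((x : ℚ) + y) * R * p) ≤ (16 * x ^ 2) * (((x : ℚ) + y) * R * p) :=
        mul_le_mul_of_nonneg_right (by linarith) (by positivity)
      have h10 : (16 * x ^ 2 * R) * ((p : ℚ) * (x + y)) ≤ (16 * x ^ 2 * R) * (3 * (y * R)) :=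
        mul_le_mul_of_nonneg_left h3q (by positivity)
      have h11 : (6 * y) * (3 * (x * R)) ^ 2 ≤ (6 * y) * (4 * (M * b)) ^ 2 :=
        mul_le_mul_of_nonneg_left h5 (by positivity)
      have h12 : 0 ≤ 6 * (x : ℚ) ^ 2 * y * R ^ 2 := by positivity
      linarith
    exact le_of_mul_le_mul_left h7 (by positivity)
  -- the set `U`
  set K : ℕ := 36 * q with hK
  have hKpos : 0 < K := by rw [hK]; have := c.hq.two_le; omega
  set W := univ.filter (fun i => bz A x g i < -((K : ℤ) * (g * y + 1))) with hW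
  have hi0W : i0 ∉ W := by
    intro hmem
    have h5 := (Finset.mem_filter.mp hmem).2
    have h6 : (bz A x g i0 : ℚ) < -((K : ℚ) * (g * y + 1)) := by exact_mod_cast h5
    have h7 : (0 : ℚ) ≤ (K : ℚ) * (g * y + 1) := by positivity
    rw [← hb] at h6
    linarith
  have hcard := UU_card (A := A) (x := x) (y := y) (g := g) K
  rw [← hW] at hcard
  set U := UU A x y g K with hU
  have hsumW : (K : ℚ) ^ 2 * (x + y) * ∑ i ∈ W, (((A i)ᶜ.card : ℕ) : ℚ) ≤
      (K + 1) ^ 2 * x * (((x + y) * R / y) - b ^ 2 * (n i0 : ℚ)⁻¹) := by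
    have h5 : ∑ i ∈ W, (bz A x g i : ℚ) ^ 2 * (n i : ℚ)⁻¹ + b ^ 2 * (n i0 : ℚ)⁻¹ ≤
        (x + y) * R / y := by
      rw [hR, ← h.sum_b_sq]
      have h6 : ∑ i ∈ insert i0 W, (bz A x g i : ℚ) ^ 2 * (n i : ℚ)⁻¹ ≤
          ∑ i, (bz A x g i : ℚ) ^ 2 * (n i : ℚ)⁻¹ := by
        refine Finset.sum_le_sum_of_subset_of_nonneg (Finset.subset_univ _) fun i _ _ => ?_
        have := h.qn i
        positivity
      rw [Finset.sum_insert hi0W] at h6
      linarith
    have h6 : (K : ℚ) ^ 2 * (x + y) * ∑ i ∈ W, (((A i)ᶜ.card : ℕ) : ℚ) ≤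
        (K + 1) ^ 2 * x * ∑ i ∈ W, (bz A x g i : ℚ) ^ 2 * (n i : ℚ)⁻¹ := by
      rw [Finset.mul_sum, Finset.mul_sum]
      refine Finset.sum_le_sum fun i hi => ?_
      exact h.lam_bound K hKpos i (Finset.mem_filter.mp hi).2
    refine h6.trans (mul_le_mul_of_nonneg_left (by linarith) (by positivity))
  have hKq : (K : ℚ) = 36 * q := by rw [hK]; push_cast; ring
  -- the root term
  have hroot : (x + y) * R / (6 * q * y) ≤ b ^ 2 * (n i0 : ℚ)⁻¹ := by
    rw [hn0, ← div_eq_mul_inv, div_le_div_iff₀ (by positivity) (by positivity)]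
    have := mul_le_mul_of_nonneg_left hb3 (by positivity : (0 : ℚ) ≤ q)
    linarith
  -- `x R / y ≤ v`
  have hv : (x : ℚ) * R ≤ y * (g * (x + y) + 1) := by
    have h5 : (x : ℚ) ≤ y * R := by
      have : (3 : ℚ) * x ≤ p * (x + y) := by
        have h6 : (3 : ℚ) * (x + y) ≤ p * (x + y) := mul_le_mul_of_nonneg_right hp3q (by linarith)
        linarith
      linarith
    rw [hR] at h5 ⊢
    linarith
  set v : ℚ := (g : ℚ) * (x + y) + 1 with hvdef
  have hcardq : v ≤ (U.card : ℚ) + ∑ i ∈ W, (((A i)ᶜ.card : ℕ) : ℚ) := by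
    have h5 : (Fintype.card X : ℚ) = v := by rw [h.cardX]; push_cast; rfl
    rw [← h5]
    exact_mod_cast hcard
  have hU12 : v ≤ 12 * q * (U.card : ℚ) := by
    set T := ∑ i ∈ W, (((A i)ᶜ.card : ℕ) : ℚ) with hT
    have h5 : (K : ℚ) ^ 2 * (x + y) * T ≤
        (K + 1) ^ 2 * x * (((x + y) * R / y) * (1 - 1 / (6 * q))) := by
      refine hsumW.trans (mul_le_mul_of_nonneg_left ?_ (by positivity))
      have e : (x + y) * R / y * (1 - 1 / (6 * q)) =
          (x + y) * R / y - (x + y) * R / (6 * q * y) := by field_simp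
      rw [e]; linarith
    have h6 : (K : ℚ) ^ 2 * T ≤ (K + 1) ^ 2 * (v * (1 - 1 / (6 * q))) := by
      have h7 : (K + 1 : ℚ) ^ 2 * x * (((x + y) * R / y) * (1 - 1 / (6 * q))) =
          (x + y) * ((K + 1) ^ 2 * ((x * R / y) * (1 - 1 / (6 * q)))) := by field_simp
      have h8 : (x : ℚ) * R / y ≤ v := by
        rw [div_le_iff₀ hy]; linarith
      have h9 : (0 : ℚ) ≤ 1 - 1 / (6 * q) := by
        rw [sub_nonneg, div_le_one (by positivity)]; linarith
      have h10 : (x + y) * ((K + 1 : ℚ) ^ 2 * ((x * R / y) * (1 - 1 / (6 * q)))) ≤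
          (x + y) * ((K + 1) ^ 2 * (v * (1 - 1 / (6 * q)))) := by
        refine mul_le_mul_of_nonneg_left (mul_le_mul_of_nonneg_left
          (mul_le_mul_of_nonneg_right h8 h9) (by positivity)) (by positivity)
      rw [h7] at h5
      have h11 : (x + y) * ((K : ℚ) ^ 2 * T) ≤ (x + y) * ((K + 1) ^ 2 * (v * (1 - 1 / (6 * q)))) := by
        linarith
      exact le_of_mul_le_mul_left h11 (by positivity)
    have hv0 : 0 < v := by positivity
    have h7 : T ≤ (1 - 1 / (12 * q)) * v := by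
      have h8 : (K + 1 : ℚ) ^ 2 * (1 - 1 / (6 * q)) ≤ K ^ 2 * (1 - 1 / (12 * q)) := by
        rw [hKq]
        have e1 : (36 * (q : ℚ) + 1) ^ 2 * (1 - 1 / (6 * q)) =
            ((36 * q + 1) ^ 2 * (6 * q - 1) * 2) / (12 * q) := by field_simp; ring
        have e2 : (36 * (q : ℚ)) ^ 2 * (1 - 1 / (12 * q)) =
            ((36 * q) ^ 2 * (12 * q - 1)) / (12 * q) := by field_simp
        rw [e1, e2, div_le_div_iff_of_pos_right (by positivity)]
        nlinarith
      have h9 : (K : ℚ) ^ 2 * T ≤ K ^ 2 * ((1 - 1 / (12 * q)) * v) := by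
        have := mul_le_mul_of_nonneg_left h8 hv0.le
        linarith
      exact le_of_mul_le_mul_left h9 (by positivity)
    have h8 : v / (12 * q) ≤ (U.card : ℚ) := by
      have : v - (1 - 1 / (12 * q)) * v = v / (12 * q) := by field_simp; ring
      linarith
    rw [div_le_iff₀ (by positivity)] at h8
    linarith
  have hv0 : 0 < v := by positivity
  have hUne : U.Nonempty := by
    rw [← Finset.card_pos]
    by_contra hcon
    have : U.card = 0 := by omega
    rw [this] at hU12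
    simp at hU12
    linarith
  obtain ⟨P, hPU, hP⟩ := h.exists_generic K U hUne (fun i P hP hPi => UU_spec K i P hP hPi)
  refine ⟨P, ?_⟩
  have hPhi0 : 0 ≤ Phi A n x g P := by
    unfold Phi
    refine Finset.sum_nonneg fun i _ => ?_
    have := h.qn i
    positivity
  set F := Phi A n x g P with hF
  have h5 : v * (y * F) ≤ 12 * q * (U.card : ℚ) * (y * F) :=
    mul_le_mul_of_nonneg_right hU12 (by positivity)
  have h6 : g * (x + y) * (y * F) ≤ 12 * q * ((1 + 36 * q) * R ^ 2 * (x + y)) := by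
    rw [hKq] at hP
    have h7 : g * (x + y) * (y * F) ≤ v * (y * F) :=
      mul_le_mul_of_nonneg_right (by rw [hvdef]; linarith) (by positivity)
    have h9 := mul_le_mul_of_nonneg_left hP (by positivity : (0 : ℚ) ≤ 12 * q)
    linarith
  have h7 : R ≤ 2 * (g * y) := by
    have hg1 : (1 : ℚ) ≤ g := by exact_mod_cast h.hg
    have hy1 : (1 : ℚ) ≤ y := by exact_mod_cast h.hy
    have : (1 : ℚ) ≤ g * y := by nlinarith
    linarith
  have h8 : R ^ 2 ≤ (2 * (g * y)) ^ 2 := pow_le_pow_left₀ hR0.le h7 2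
  have h9 : ((x : ℚ) + y) * (g * y * F) ≤ (x + y) * (g * y * (1776 * q ^ 2 * g * y)) := by
    have h10 : 12 * q * ((1 + 36 * q) * R ^ 2 * (x + y)) ≤
        12 * q * ((37 * q) * (2 * (g * y)) ^ 2 * (x + y)) := by
      have h11 : (1 + 36 * (q : ℚ)) * R ^ 2 ≤ (37 * q) * (2 * (g * y)) ^ 2 := by
        apply mul_le_mul (by linarith) h8 (by positivity) (by positivity)
      have h12 := mul_le_mul_of_nonneg_right h11 (by positivity : (0 : ℚ) ≤ (x : ℚ) + y)
      exact mul_le_mul_of_nonneg_left h12 (by positivity)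
    linarith
  have h10 := le_of_mul_le_mul_left h9 (by positivity)
  exact le_of_mul_le_mul_left h10 (by positivity)

end CtxA

end Pool.Agent.Lib.MP_93e743_co
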