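import Pool.Agent.Lib.MP_93e743_qp.Gram

/-!
The case `λ ≤ x - y` is impossible.
-/

namespace Pool.Agent.Lib.MP_93e743_co

open Finset

set_option linter.unusedSectionVars false

variable {ι X : Type*} [Fintype ι] [Fintype X] [DecidableEq ι] [DecidableEq X]

namespace IntSys

variable {A : ι → Finset X} {n : ι → ℕ} {x y g : ℕ}

/-- The number of points outside `A i0` and outside `A i`. -/
def DD (A : ι → Finset X) (i0 i : ι) : ℕ := ((A i0)ᶜ \ A i).card

lemma DD_eq (A : ι → Finset X) (i0 i : ι) : DD A i0 i = ((A i)ᶜ ∩ (A i0)ᶜ).card := by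
  unfold DD
  congr 1
  ext P
  simp only [Finset.mem_sdiff, Finset.mem_compl, Finset.mem_inter]
  tauto

lemma DD_self (A : ι → Finset X) (i0 : ι) : DD A i0 i0 = (A i0)ᶜ.card := by
  rw [DD_eq, Finset.inter_self]

lemma sum_DD (h : IntSys A n x y g) (i0 : ι) :
    ∑ i, (DD A i0 i : ℚ) * (n i : ℚ)⁻¹ = ((A i0)ᶜ.card : ℚ) * ((x + y) / x) := by
  have h1 := sum_compl_comm A univ ((A i0)ᶜ) (fun i => (n i : ℚ)⁻¹)
  have h2 : ∀ P ∈ (A i0)ᶜ, ∑ i ∈ univ with P ∉ A i, (n i : ℚ)⁻¹ = ((x : ℚ) + y) / x :=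
    fun P _ => h.inv_not P
  rw [Finset.sum_congr rfl h2, Finset.sum_const, nsmul_eq_mul] at h1
  unfold DD
  exact h1.symm

lemma sum_DD_sq (h : IntSys A n x y g) (i0 : ι) :
    ∑ i, (DD A i0 i : ℚ) ^ 2 * (n i : ℚ)⁻¹ =
      ((A i0)ᶜ.card : ℚ) * ((x + y) / x + (((A i0)ᶜ.card : ℚ) - 1) * (y / x)) := by
  have h1 := sum_compl_comm A univ ((A i0)ᶜ) (fun i => (DD A i0 i : ℚ) * (n i : ℚ)⁻¹)
  have h2 : ∀ P ∈ (A i0)ᶜ, ∑ i ∈ univ with P ∉ A i, (DD A i0 i : ℚ) * (n i : ℚ)⁻¹ =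
      ((x : ℚ) + y) / x + (((A i0)ᶜ.card : ℚ) - 1) * (y / x) := by
    intro P hP
    have h3 := sum_compl_comm A (univ.filter fun i => P ∉ A i) ((A i0)ᶜ) (fun i => (n i : ℚ)⁻¹)
    have h4 : ∑ i ∈ univ with P ∉ A i, (DD A i0 i : ℚ) * (n i : ℚ)⁻¹ =
        ∑ Q ∈ (A i0)ᶜ, ∑ i ∈ (univ.filter fun i => P ∉ A i) with Q ∉ A i, (n i : ℚ)⁻¹ := by
      rw [h3]; rfl
    rw [h4, ← Finset.add_sum_erase _ _ hP]
    congr 1
    · rw [Finset.filter_filter]
      simp only [and_self]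
      exact h.inv_not P
    · have h5 : ∀ Q ∈ ((A i0)ᶜ).erase P,
          ∑ i ∈ (univ.filter fun i => P ∉ A i) with Q ∉ A i, (n i : ℚ)⁻¹ = (y : ℚ) / x := by
        intro Q hQ
        rw [Finset.filter_filter]
        exact h.inv_not2 (Finset.ne_of_mem_erase hQ).symm
      rw [Finset.sum_congr rfl h5, Finset.sum_const, nsmul_eq_mul, Finset.card_erase_of_mem hP,
        Nat.cast_sub (Finset.card_pos.mpr ⟨P, hP⟩)]
      simp
  rw [Finset.sum_congr rfl h2, Finset.sum_const, nsmul_eq_mul] at h1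
  rw [h1]
  refine Finset.sum_congr rfl fun i _ => ?_
  unfold DD
  ring

/-- `m D = y (n + λ - r₂)`. -/
lemma DD_mul (h : IntSys A n x y g) {i i0 : ι} (hi : i ≠ i0) :
    ((x : ℤ) - y) * (DD A i0 i : ℤ) = y * (n i + n i0 - (g * y + 1)) := by
  rw [DD_eq]
  exact h.inter_compl hi

lemma DD_dvd (h : IntSys A n x y g) {i i0 : ι} (hi : i ≠ i0) : y ∣ DD A i0 i := by
  have h1 := h.DD_mul hi
  have h2 : (y : ℤ) ∣ ((x : ℤ) - y) * (DD A i0 i : ℤ) := by rw [h1]; exact Dvd.intro _ rfl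
  have h3 : (y : ℤ) ∣ (DD A i0 i : ℤ) := h.cop_m.symm.dvd_of_dvd_mul_left h2
  exact_mod_cast h3

/-- The key inequality. -/
lemma key_ineq (h : IntSys A n x y g) (i0 : ι) (P0 : X) (hP0 : P0 ∉ A i0) :
    (x : ℤ) * n i0 * (y - 1) ≤ ((y : ℤ) * n i0 - x) * ((((A i0)ᶜ.card : ℕ) : ℤ) - y) := by
  have hx := h.qx
  have hl := h.qn i0
  have he : (1 : ℚ) ≤ ((A i0)ᶜ.card : ℚ) := by
    exact_mod_cast Finset.card_pos.mpr ⟨P0, Finset.mem_compl.mpr hP0⟩
  have h1 : 0 ≤ ∑ i ∈ univ.erase i0, ((DD A i0 i : ℚ) ^ 2 * (n i : ℚ)⁻¹ -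
      y * ((DD A i0 i : ℚ) * (n i : ℚ)⁻¹)) := by
    refine Finset.sum_nonneg fun i hi => ?_
    obtain ⟨k, hk⟩ := h.DD_dvd (Finset.ne_of_mem_erase hi)
    have h3 : 0 ≤ (n i : ℚ)⁻¹ := (inv_pos.mpr (h.qn i)).le
    have e : (DD A i0 i : ℚ) ^ 2 * (n i : ℚ)⁻¹ - y * ((DD A i0 i : ℚ) * (n i : ℚ)⁻¹) =
        (y : ℚ) ^ 2 * ((k : ℚ) * (k - 1)) * (n i : ℚ)⁻¹ := by
      rw [hk]; push_cast; ring
    rw [e]
    have h4 : 0 ≤ (k : ℚ) * (k - 1) := by
      rcases Nat.eq_zero_or_pos k with h0 | h0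
      · simp [h0]
      · have : (1 : ℚ) ≤ k := by exact_mod_cast h0
        exact mul_nonneg (by linarith) (by linarith)
    positivity
  rw [Finset.sum_sub_distrib, ← Finset.mul_sum] at h1
  have h5 := Finset.add_sum_erase univ (fun i => (DD A i0 i : ℚ) ^ 2 * (n i : ℚ)⁻¹)
    (Finset.mem_univ i0)
  have h6 := Finset.add_sum_erase univ (fun i => (DD A i0 i : ℚ) * (n i : ℚ)⁻¹)
    (Finset.mem_univ i0)
  rw [h.sum_DD_sq, DD_self] at h5
  rw [h.sum_DD, DD_self] at h6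
  set e : ℚ := ((A i0)ᶜ.card : ℚ) with he'
  have h7 : 0 ≤ e * ((x + y) / x + (e - 1) * (y / x)) - e ^ 2 * (n i0 : ℚ)⁻¹ -
      y * (e * ((x + y) / x) - e * (n i0 : ℚ)⁻¹) := by
    have e1 : ∑ i ∈ univ.erase i0, (DD A i0 i : ℚ) ^ 2 * (n i : ℚ)⁻¹ =
        e * ((x + y) / x + (e - 1) * (y / x)) - e ^ 2 * (n i0 : ℚ)⁻¹ := by linarith
    have e2 : ∑ i ∈ univ.erase i0, (DD A i0 i : ℚ) * (n i : ℚ)⁻¹ =
        e * ((x + y) / x) - e * (n i0 : ℚ)⁻¹ := by linarith
    rw [e1, e2] at h1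
    exact h1
  have h8 : e * ((x + y) / x + (e - 1) * (y / x)) - e ^ 2 * (n i0 : ℚ)⁻¹ -
      y * (e * ((x + y) / x) - e * (n i0 : ℚ)⁻¹) =
      e * ((((y : ℚ) * n i0 - x) * (e - y) - x * n i0 * (y - 1)) / (x * n i0)) := by
    field_simp
    ring
  rw [h8] at h7
  have h9 : 0 ≤ (((y : ℚ) * n i0 - x) * (e - y) - x * n i0 * (y - 1)) / (x * n i0) :=
    nonneg_of_mul_nonneg_right h7 (by linarith)
  have h10 : 0 ≤ ((y : ℚ) * n i0 - x) * (e - y) - x * n i0 * (y - 1) := by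
    have h11 : (0 : ℚ) < x * n i0 := by positivity
    have h12 := mul_nonneg h9 h11.le
    rwa [div_mul_cancel₀ _ h11.ne'] at h12
  have h13 : (x : ℚ) * n i0 * (y - 1) ≤ ((y : ℚ) * n i0 - x) * (e - y) := by linarith
  rw [he'] at h13
  exact_mod_cast h13

/-- Row SL. -/
theorem small_lam (h : IntSys A n x y g) (i0 : ι) (P0 : X) (hP0 : P0 ∉ A i0) (h2 : 2 ≤ n i0)
    (hm : n i0 + y ≤ x) : False := by
  have hkey := h.key_ineq i0 P0 hP0
  have hce := h.compl_eq i0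
  have hyN := h.hy
  have hy : (1 : ℤ) ≤ y := by exact_mod_cast h.hy
  have hg : (1 : ℤ) ≤ g := by exact_mod_cast h.hg
  have hlam : (2 : ℤ) ≤ n i0 := by exact_mod_cast h2
  have hmz : (n i0 : ℤ) + y ≤ x := by exact_mod_cast hm
  have he1 : (1 : ℤ) ≤ (((A i0)ᶜ.card : ℕ) : ℤ) := by
    exact_mod_cast Finset.card_pos.mpr ⟨P0, Finset.mem_compl.mpr hP0⟩
  set e : ℤ := (((A i0)ᶜ.card : ℕ) : ℤ) with he
  set L : ℤ := (n i0 : ℤ) with hL
  rcases Nat.lt_or_ge 1 y with hy2 | hy1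
  · -- `y ≥ 2`
    have hy2' : (2 : ℤ) ≤ y := by exact_mod_cast hy2
    rcases le_or_gt (e - y) x with h3 | h3
    · rcases le_or_gt ((y : ℤ) * L) x with h4 | h4
      · nlinarith [mul_nonneg (sub_nonneg.mpr h4) (sub_nonneg.mpr he1),
          mul_pos (by linarith : (0:ℤ) < y - 1) (by nlinarith : (0 : ℤ) < x * L - x + y * L)]
      · nlinarith [mul_nonneg (sub_nonneg.mpr h4.le) (sub_nonneg.mpr h3)]
    · -- `e > s`
      nlinarith [mul_nonneg (by linarith : (0 : ℤ) ≤ x - y - L) (by linarith : (0 : ℤ) ≤ e),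
        mul_pos (by linarith : (0 : ℤ) < y) (by nlinarith : (0 : ℤ) < g * y + 1)]
  · -- `y = 1`
    have hy1' : y = 1 := by omega
    subst hy1'
    have hxL : L + 1 ≤ x := by simpa using hmz
    have e1 : e = 1 := by
      by_contra hne
      have h3 : 2 ≤ e := by omega
      push_cast at hkey
      nlinarith
    rw [e1] at hce
    push_cast at hce
    have hr2 : (g : ℤ) + 1 = (x + 1) * L - (x - 1) := by linarith
    have hcard : ((A i0)ᶜ).card = 1 := by
      have h3 := he.symm.trans e1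
      exact_mod_cast h3
    have hA0 : (A i0)ᶜ = {P0} := by
      obtain ⟨Q, hQ⟩ := Finset.card_eq_one.mp hcard
      have : P0 ∈ (A i0)ᶜ := Finset.mem_compl.mpr hP0
      rw [hQ] at this ⊢
      rw [Finset.mem_singleton.mp this]
    -- the numbers
    have hDin : ∀ i, P0 ∈ A i → DD A i0 i = 0 := by
      intro i hi
      unfold DD
      rw [hA0, Finset.sdiff_eq_empty_iff_subset.mpr (Finset.singleton_subset_iff.mpr hi),
        Finset.card_empty]
    have hDout : ∀ i, P0 ∉ A i → DD A i0 i = 1 := by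
      intro i hi
      unfold DD
      have : ({P0} : Finset X) \ A i = {P0} := by
        ext Q
        simp only [Finset.mem_sdiff, Finset.mem_singleton]
        constructor
        · exact fun h => h.1
        · rintro rfl; exact ⟨rfl, hi⟩
      rw [hA0, this, Finset.card_singleton]
    have hnin : ∀ i, P0 ∈ A i → (n i : ℤ) = x * L - x + 1 := by
      intro i hi
      have hne : i ≠ i0 := fun h0 => hP0 (h0 ▸ hi)
      have h3 := h.DD_mul hne
      rw [hDin i hi] at h3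
      push_cast at h3
      linarith
    have hnout : ∀ i, i ≠ i0 → P0 ∉ A i → (n i : ℤ) = x * L := by
      intro i hne hi
      have h3 := h.DD_mul hne
      rw [hDout i hi] at h3
      push_cast at h3
      linarith
    -- a set containing `P0`
    obtain ⟨i, hi⟩ : ∃ i, P0 ∈ A i := by
      by_contra hcon
      push Not at hcon
      have h3 := h.inv_mem P0
      rw [Finset.filter_false_of_mem (fun i _ => hcon i), Finset.sum_empty] at h3
      have h4 : (0 : ℚ) < ((x : ℚ) + (1 : ℕ)) / (1 : ℕ) := by positivity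
      linarith
    have hci := h.compl_eq i
    rw [hnin i hi] at hci
    push_cast at hci
    have hci2 : ((x : ℤ) - 1) * (((A i)ᶜ.card : ℕ) : ℤ) = (x - 1) * ((x + 1) * (L - 1) + 1) := by
      linarith
    have hci3 : (((A i)ᶜ.card : ℕ) : ℤ) = (x + 1) * (L - 1) + 1 :=
      mul_left_cancel₀ (by linarith) hci2
    have hci4 : 1 < (A i)ᶜ.card := by
      have : (1 : ℤ) < (((A i)ᶜ.card : ℕ) : ℤ) := by rw [hci3]; nlinarith
      exact_mod_cast this
    obtain ⟨Q, hQ, Q', hQ', hQQ⟩ := Finset.one_lt_card.mp hci4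
    rw [Finset.mem_compl] at hQ hQ'
    have hQP : Q ≠ P0 := fun h0 => hQ (h0 ▸ hi)
    have hin0 : Q ∈ A i0 := by
      by_contra hcon
      have : Q ∈ (A i0)ᶜ := Finset.mem_compl.mpr hcon
      rw [hA0, Finset.mem_singleton] at this
      exact hQP this
    have hsum := h.inv_not2 hQQ
    -- split according to `P0`
    have hsplit := Finset.sum_filter_add_sum_filter_not
      (univ.filter fun i => Q ∉ A i ∧ Q' ∉ A i) (fun i => P0 ∈ A i) (fun i => (n i : ℚ)⁻¹)
    set F1 := (univ.filter fun i => Q ∉ A i ∧ Q' ∉ A i).filter fun i => P0 ∈ A i with hF1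
    set F2 := (univ.filter fun i => Q ∉ A i ∧ Q' ∉ A i).filter fun i => ¬ P0 ∈ A i with hF2
    have s1 : ∑ j ∈ F1, (n j : ℚ)⁻¹ = F1.card * ((x : ℚ) * n i0 - x + 1)⁻¹ := by
      rw [← nsmul_eq_mul, ← Finset.sum_const]
      refine Finset.sum_congr rfl fun j hj => ?_
      have h3 := hnin j (Finset.mem_filter.mp hj).2
      have h4 : (n j : ℚ) = (x : ℚ) * n i0 - x + 1 := by
        rw [hL] at h3
        exact_mod_cast h3
      rw [h4]
    have s2 : ∑ j ∈ F2, (n j : ℚ)⁻¹ = F2.card * ((x : ℚ) * n i0)⁻¹ := by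
      rw [← nsmul_eq_mul, ← Finset.sum_const]
      refine Finset.sum_congr rfl fun j hj => ?_
      have hj' := Finset.mem_filter.mp hj
      have hj0 : j ≠ i0 := by
        rintro rfl
        exact (Finset.mem_filter.mp hj'.1).2.1 hin0
      have h3 := hnout j hj0 hj'.2
      have h4 : (n j : ℚ) = (x : ℚ) * n i0 := by
        rw [hL] at h3
        exact_mod_cast h3
      rw [h4]
    rw [s1, s2, hsum] at hsplit
    have hx0 := h.qx
    have hl0 := h.qn i0
    have hn1 : (0 : ℚ) < (x : ℚ) * n i0 - x + 1 := by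
      have h3 : (2 : ℚ) ≤ n i0 := by exact_mod_cast h2
      nlinarith
    have hrel : (F1.card : ℚ) * (x * n i0) = (n i0 - F2.card) * ((x : ℚ) * n i0 - x + 1) := by
      have hx0' := hx0.ne'
      have hl0' := hl0.ne'
      have hn1' := hn1.ne'
      revert hn1' hsplit
      generalize (x : ℚ) * n i0 - x + 1 = N1
      intro hsplit hn1'
      field_simp at hsplit
      push_cast at hsplit
      linear_combination hsplit
    have hrelZ : (F1.card : ℤ) * (x * L) = (L - F2.card) * (x * L - x + 1) := by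
      rw [hL]
      exact_mod_cast hrel
    have hF1pos : 0 < F1.card := by
      refine Finset.card_pos.mpr ⟨i, ?_⟩
      rw [hF1, Finset.mem_filter, Finset.mem_filter]
      exact ⟨⟨Finset.mem_univ _, hQ, hQ'⟩, hi⟩
    have hF1z : (1 : ℤ) ≤ F1.card := by exact_mod_cast hF1pos
    have hdvd : (x : ℤ) ∣ L - F2.card := by
      refine ⟨(F1.card : ℤ) * L - (L - F2.card) * (L - 1), ?_⟩
      linear_combination -hrelZ
    have hpos : 0 < L - F2.card := by
      have h3 : 0 < (L - F2.card) * (x * L - x + 1) := by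
        rw [← hrelZ]
        have : (0 : ℤ) < x := by linarith
        positivity
      have h4 : (0 : ℤ) < x * L - x + 1 := by nlinarith
      by_contra hc
      rw [not_lt] at hc
      nlinarith [mul_nonneg (sub_nonneg.mpr hc) h4.le]
    have hle := Int.le_of_dvd hpos hdvd
    have : (0 : ℤ) ≤ F2.card := by positivity
    linarith

end IntSys

end Pool.Agent.Lib.MP_93e743_co
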