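import Pool.Agent.Lib.MP_93e743_qp.SmallY

/-!
Part II for `y ≤ q`: the case where `p` divides all the numbers.
-/

namespace Pool.Agent.Lib.MP_93e743_co

open Finset

set_option linter.unusedSectionVars false

variable {ι X : Type*} [Fintype ι] [Fintype X] [DecidableEq ι] [DecidableEq X]

namespace CtxB

variable {A : ι → Finset X} {n : ι → ℕ} {x y g : ℕ} {i0 : ι} {q p m : ℕ} {l : ℤ}
  {t : X → X → ℤ}

/-- Some number is near to the mean. -/
private lemma exists_near (c : CtxB A n x y g i0 q p m l t) (hy : y ≤ q) :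
    ∃ i, ((n i : ℚ) - x * y * (g * (x + y) + 2) / (x + y) ^ 2) ^ 2 ≤
      900 * (q : ℚ) ^ 9 * (p : ℚ) := by
  by_contra hcon
  push Not at hcon
  have h1 := c.var_le hy
  have hcard : (Fintype.card ι : ℚ) = g * (x + y) + 2 := by
    rw [c.sys.sys.card, c.sys.cardX]
    push_cast
    ring
  have hlt : (q : ℚ) * p ≤ g * (x + y) + 2 := by
    have := c.lt_v
    have h2 : q * p ≤ g * (x + y) + 2 := by omega
    exact_mod_cast h2
  have hne : (univ : Finset ι).Nonempty := ⟨i0, mem_univ _⟩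
  have h2 := Finset.sum_lt_sum_of_nonempty hne fun i _ => hcon i
  rw [Finset.sum_const, Finset.card_univ, nsmul_eq_mul, hcard] at h2
  have hq0 : (0 : ℚ) ≤ q := by positivity
  have hp0 : (0 : ℚ) ≤ p := by positivity
  have h3 : (q : ℚ) * p * (900 * (q : ℚ) ^ 9 * p) ≤
      (g * (x + y) + 2) * (900 * (q : ℚ) ^ 9 * p) :=
    mul_le_mul_of_nonneg_right hlt (by positivity)
  have h4 : (q : ℚ) * p * (900 * (q : ℚ) ^ 9 * p) = 900 * (q : ℚ) ^ 10 * (p : ℚ) ^ 2 := by ring
  linarith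

/-- `s k = z ρ` if `n i = p k` is near to the mean `(z p ρ ± w / s) / s`. -/
private lemma eq_of_near {s q p k z ρ w : ℤ} (hs : 0 < s) (hs6 : s ≤ 6 * q ^ 2) (hq : 3 ≤ q)
    (hw0 : |w| ≤ s ^ 2) (hp : 100000 * q ^ 13 ≤ p)
    (h : (s * (p * (s * k - z * ρ)) + w) ^ 2 ≤ s ^ 4 * (900 * q ^ 9 * p)) : s * k = z * ρ := by
  by_contra hne
  have h1 : 1 ≤ |s * k - z * ρ| := Int.one_le_abs (sub_ne_zero.mpr hne)
  have hq13 : (0 : ℤ) < q ^ 13 := by positivity
  have hp0 : 0 < p := by linarith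
  have h2 : s * p ≤ |s * (p * (s * k - z * ρ))| := by
    rw [abs_mul, abs_mul, abs_of_pos hs, abs_of_pos hp0, ← mul_assoc]
    exact le_mul_of_one_le_right (by positivity) h1
  have h3 : s * p - s ^ 2 ≤ |s * (p * (s * k - z * ρ)) + w| := by
    have := abs_sub_abs_le_abs_sub (s * (p * (s * k - z * ρ))) (-w)
    rw [abs_neg, sub_neg_eq_add] at this
    linarith
  have hps : s ≤ p := by
    have : 6 * q ^ 2 ≤ 100000 * q ^ 13 := by
      have h5 : q ^ 2 ≤ q ^ 13 := pow_le_pow_right₀ (by linarith) (by norm_num)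
      linarith [pow_pos (by linarith : (0 : ℤ) < q) 13]
    linarith
  have h4 : (s * p - s ^ 2) ^ 2 ≤ s ^ 4 * (900 * q ^ 9 * p) := by
    refine le_trans ?_ h
    rw [← sq_abs (s * (p * (s * k - z * ρ)) + w)]
    have h0 : 0 ≤ s * p - s ^ 2 := by nlinarith
    exact pow_le_pow_left₀ h0 h3 2
  have h5 : (s * p - s ^ 2) ^ 2 = s ^ 2 * (p - s) ^ 2 := by ring
  have h6 : s ^ 2 * (p - s) ^ 2 ≤ s ^ 2 * (s ^ 2 * (900 * q ^ 9 * p)) := by
    rw [← h5]
    calc (s * p - s ^ 2) ^ 2 ≤ s ^ 4 * (900 * q ^ 9 * p) := h4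
      _ = s ^ 2 * (s ^ 2 * (900 * q ^ 9 * p)) := by ring
  have h7 : (p - s) ^ 2 ≤ s ^ 2 * (900 * q ^ 9 * p) := le_of_mul_le_mul_left h6 (by positivity)
  have h8 : s ^ 2 ≤ 36 * q ^ 4 := by
    have := pow_le_pow_left₀ hs.le hs6 2
    calc s ^ 2 ≤ (6 * q ^ 2) ^ 2 := this
      _ = 36 * q ^ 4 := by ring
  have h9 : (p - s) ^ 2 ≤ 32400 * q ^ 13 * p := by
    refine h7.trans ?_
    calc s ^ 2 * (900 * q ^ 9 * p) ≤ 36 * q ^ 4 * (900 * q ^ 9 * p) :=
          mul_le_mul_of_nonneg_right h8 (by positivity)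
      _ = 32400 * q ^ 13 * p := by ring
  have h10 : p * (p - 2 * s) ≤ 32400 * q ^ 13 * p := by nlinarith
  have h11 : p - 2 * s ≤ 32400 * q ^ 13 := by
    rw [mul_comm] at h10
    exact le_of_mul_le_mul_right h10 hp0
  have h12 : q ^ 2 ≤ q ^ 13 := pow_le_pow_right₀ (by linarith) (by norm_num)
  linarith

theorem allZ (c : CtxB A n x y g i0 q p m l t) (hy : y ≤ q) (hall : ∀ i, p ∣ n i)
    (hp : 100000 * q ^ 13 ≤ p) : False := by
  have hq3 := c.hq3
  have hxy := c.sys.hxy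
  have hy0 := c.sys.hy
  have hx := c.hx
  have hm1 := c.hm1
  have hs6 := c.s_le hy
  obtain ⟨i, hi⟩ := c.exists_near hy
  obtain ⟨k, hk⟩ := hall i
  -- the bound without denominators
  have hsQ : (0 : ℚ) < (x : ℚ) + y := by
    have : (0 : ℚ) < y := by exact_mod_cast hy0
    positivity
  have hkey : (((x : ℤ) + y) ^ 2 * (p * k) - x * y * (g * (x + y) + 2)) ^ 2 ≤
      ((x : ℤ) + y) ^ 4 * (900 * q ^ 9 * p) := by
    have h1 : (((x : ℚ) + y) ^ 2 * (p * k) - x * y * (g * (x + y) + 2)) ^ 2 ≤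
        ((x : ℚ) + y) ^ 4 * (900 * q ^ 9 * p) := by
      rw [hk] at hi
      push_cast at hi
      have h2 : (((x : ℚ) + y) ^ 2 * (p * k) - x * y * (g * (x + y) + 2)) ^ 2 =
          ((x : ℚ) + y) ^ 4 *
            ((p : ℚ) * k - x * y * (g * (x + y) + 2) / (x + y) ^ 2) ^ 2 := by
        field_simp
      rw [h2]
      exact mul_le_mul_of_nonneg_left hi (by positivity)
    exact_mod_cast h1
  have hsum : p ∣ (g * x + 1) * (g * y + 1) := by
    have h1 : ∑ i, n i = (g * x + 1) * (g * y + 1) := by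
      have := c.sys.sum_n
      exact_mod_cast this
    rw [← h1]
    exact Finset.dvd_sum fun i _ => hall i
  have hsZ : (0 : ℤ) < (x : ℤ) + y := by
    have : (0 : ℤ) < y := by exact_mod_cast hy0
    positivity
  have hs6Z : (x : ℤ) + y ≤ 6 * (q : ℤ) ^ 2 := by exact_mod_cast hs6
  have hq3Z : (3 : ℤ) ≤ q := by exact_mod_cast hq3
  have hpZ : (100000 : ℤ) * q ^ 13 ≤ p := by exact_mod_cast hp
  have hxZ : (0 : ℤ) < x := by
    have : 0 < x := by omega
    exact_mod_cast this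
  have hyZ : (0 : ℤ) < y := by exact_mod_cast hy0
  have hxyZ : (y : ℤ) < x := by exact_mod_cast hxy
  have hcopxy : IsCoprime (x : ℤ) (y : ℤ) := Nat.isCoprime_iff_coprime.mpr c.sys.cop
  have hlm := c.l_mod
  -- the end of the proof
  have hfin : ∀ z : ℤ, 0 < z → z < q → ((x : ℤ) + y) ∣ 2 * z → False := by
    intro z hz0 hz1 hz
    obtain ⟨a, ha⟩ := hz
    have hsq : (q : ℤ) < (x : ℤ) + y := by
      have h1 : q < x + y := by
        have : 1 * q ≤ m * q := Nat.mul_le_mul_right q hm1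
        omega
      exact_mod_cast h1
    have ha1 : a = 1 := by
      have h1 : 0 < a := by
        by_contra h0
        rw [not_lt] at h0
        nlinarith
      have h2 : a < 2 := by
        by_contra h0
        rw [not_lt] at h0
        nlinarith
      omega
    rw [ha1, mul_one] at ha
    have hs2 : (x : ℤ) + y < 2 * q := by linarith
    have hs2N : x + y < 2 * q := by exact_mod_cast hs2
    have hm : m = 1 := by
      by_contra hne
      have h2 : 2 ≤ m := by omega
      have : 2 * q ≤ m * q := Nat.mul_le_mul_right q h2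
      omega
    rw [hm, one_mul] at hx
    have hodd : q % 2 = 1 := by
      rcases c.hq.eq_two_or_odd with h1 | h1
      · omega
      · exact h1
    have h1 : ((x + y : ℕ) : ℤ) = 2 * z := by push_cast; linarith
    omega
  have hl0 := c.T.l0
  have hl1 := c.T.l1
  rcases (Nat.Prime.dvd_mul c.hp).mp hsum with h1 | h1
  · -- `p ∣ r₁`
    obtain ⟨ρ, hρ⟩ := h1
    have hρZ : (g : ℤ) * x + 1 = p * ρ := by exact_mod_cast hρ
    have h2 : ((x : ℤ) + y) * k = y * ρ := by
      refine eq_of_near (w := -(y * ((x : ℤ) - y))) hsZ hs6Z hq3Z ?_ hpZ ?_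
      · rw [abs_neg, abs_of_nonneg (mul_nonneg hyZ.le (by linarith))]
        nlinarith
      · refine le_trans (le_of_eq ?_) hkey
        congr 1
        linear_combination (((x : ℤ) + y) * y) * hρZ
    have h3 : ((x : ℤ) + y) ∣ ρ := by
      have h4 : IsCoprime ((x : ℤ) + y) (y : ℤ) := by
        have := hcopxy.add_mul_left_left 1
        rwa [mul_one] at this
      exact h4.dvd_of_dvd_mul_left ⟨k, h2.symm⟩
    refine hfin l hl0 hl1 ?_
    have h4 : ((x : ℤ) + y) ∣ q * (g * x + 1) := by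
      rw [hρZ]
      exact (h3.mul_left _).mul_left _
    have := dvd_add hlm h4
    rwa [sub_add_cancel] at this
  · -- `p ∣ r₂`
    obtain ⟨ρ, hρ⟩ := h1
    have hρZ : (g : ℤ) * y + 1 = p * ρ := by exact_mod_cast hρ
    have h2 : ((x : ℤ) + y) * k = x * ρ := by
      refine eq_of_near (w := x * ((x : ℤ) - y)) hsZ hs6Z hq3Z ?_ hpZ ?_
      · rw [abs_of_nonneg (mul_nonneg hxZ.le (by linarith))]
        nlinarith
      · refine le_trans (le_of_eq ?_) hkey
        congr 1
        linear_combination (((x : ℤ) + y) * x) * hρZ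
    have h3 : ((x : ℤ) + y) ∣ ρ := by
      have h4 : IsCoprime ((x : ℤ) + y) (x : ℤ) := by
        have := hcopxy.symm.add_mul_left_left 1
        rwa [mul_one, add_comm] at this
      exact h4.dvd_of_dvd_mul_left ⟨k, h2.symm⟩
    refine hfin (q - l) (by linarith) (by linarith) ?_
    have h4 : ((x : ℤ) + y) ∣ q * (g * y + 1) := by
      rw [hρZ]
      exact (h3.mul_left _).mul_left _
    have h5 : 2 * ((q : ℤ) - l) = -(2 * l - q * (g * x + 1)) + (q * (g * y + 1) -
        (x + y) * (q * g)) := by ring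
    rw [h5]
    exact dvd_add ((dvd_neg).mpr hlm) (dvd_sub h4 (Dvd.intro _ rfl))

end CtxB

end Pool.Agent.Lib.MP_93e743_co
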