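import Pool.Agent.Lib.MP_93e743_co.Sparse
import Pool.Agent.Lib.MP_93e743_co.Ratio

/-!
Basic identities for the systems attached to `λ`-designs.
-/

namespace Pool.Agent.Lib.MP_93e743_co

open Finset

set_option linter.unusedSectionVars false

variable {ι X : Type*} [Fintype ι] [Fintype X] [DecidableEq ι] [DecidableEq X]

/-- `b i = |A i| - g x`. -/
def bz (A : ι → Finset X) (x g : ℕ) (i : ι) : ℤ := ((A i).card : ℤ) - g * x

/-- `Φ P = ∑ b i ^ 2 / n i` over the sets that avoid `P`. -/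
def Phi (A : ι → Finset X) (n : ι → ℕ) (x g : ℕ) (P : X) : ℚ :=
  ∑ i with P ∉ A i, (bz A x g i : ℚ) ^ 2 * (n i : ℚ)⁻¹

namespace IntSys

variable {A : ι → Finset X} {n : ι → ℕ} {x y g : ℕ}

lemma qy (h : IntSys A n x y g) : (0 : ℚ) < y := by exact_mod_cast h.hy

lemma qx (h : IntSys A n x y g) : (0 : ℚ) < x := by
  have := h.hxy
  have : 0 < x := by omega
  exact_mod_cast this

lemma qxy (h : IntSys A n x y g) : (y : ℚ) < x := by exact_mod_cast h.hxy

lemma qg (h : IntSys A n x y g) : (0 : ℚ) < g := by exact_mod_cast h.hg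

lemma qn (h : IntSys A n x y g) (i : ι) : (0 : ℚ) < n i := h.sys.npos' i

lemma qalpha (h : IntSys A n x y g) : 1 - (x : ℚ) / (x + y) = y / (x + y) := by
  have := h.sq0
  field_simp
  ring

lemma inv_all (h : IntSys A n x y g) : ∑ i, (n i : ℚ)⁻¹ = (x + y) ^ 2 / (x * y) := by
  have h1 := h.sys.s0
  have h2 := h.qx
  have h3 := h.qy
  rw [h1, h.qalpha]
  field_simp

lemma inv_mem (h : IntSys A n x y g) (P : X) :
    ∑ i with P ∈ A i, (n i : ℚ)⁻¹ = (x + y) / y := by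
  have h1 := h.sys.s1 P
  have h2 := h.qy
  rw [h.qalpha] at h1
  rw [Finset.sum_filter]
  have h3 : ∀ i, (if P ∈ A i then (n i : ℚ)⁻¹ else 0) = chi A i P * (n i : ℚ)⁻¹ := by
    intro i; unfold chi; split <;> simp
  simp_rw [h3]
  rw [h1, inv_div]

lemma inv_mem2 (h : IntSys A n x y g) {P Q : X} (hPQ : P ≠ Q) :
    ∑ i with P ∈ A i ∧ Q ∈ A i, (n i : ℚ)⁻¹ = x / y := by
  have h1 := h.sys.s2 P Q hPQ
  have h2 := h.qy
  have h4 := h.qx
  rw [h.qalpha] at h1
  rw [Finset.sum_filter]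
  have h3 : ∀ i, (if P ∈ A i ∧ Q ∈ A i then (n i : ℚ)⁻¹ else 0) =
      chi A i P * chi A i Q * (n i : ℚ)⁻¹ := by
    intro i
    unfold chi
    by_cases h5 : P ∈ A i <;> by_cases h6 : Q ∈ A i <;> simp [h5, h6]
  simp_rw [h3]
  rw [h1]
  field_simp

lemma inv_not (h : IntSys A n x y g) (P : X) :
    ∑ i with P ∉ A i, (n i : ℚ)⁻¹ = (x + y) / x := by
  have h1 := h.inv_all
  have h2 := h.inv_mem P
  have h3 := Finset.sum_filter_add_sum_filter_not univ (fun i => P ∈ A i) (fun i => (n i : ℚ)⁻¹)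
  rw [h1, h2] at h3
  have h4 := h.qx
  have h5 := h.qy
  have h6 : ∑ i with P ∉ A i, (n i : ℚ)⁻¹ = (x + y) ^ 2 / (x * y) - ((x : ℚ) + y) / y := by
    linarith
  rw [h6]
  field_simp
  ring

lemma inv_mem_not (h : IntSys A n x y g) {P Q : X} (hPQ : P ≠ Q) :
    ∑ i with P ∈ A i ∧ Q ∉ A i, (n i : ℚ)⁻¹ = 1 := h.K4 hPQ

lemma inv_not2 (h : IntSys A n x y g) {P Q : X} (hPQ : P ≠ Q) :
    ∑ i with P ∉ A i ∧ Q ∉ A i, (n i : ℚ)⁻¹ = y / x := by
  have h1 := h.inv_not Q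
  have h2 := h.inv_mem_not hPQ
  have h3 := Finset.sum_filter_add_sum_filter_not (univ.filter fun i => Q ∉ A i)
    (fun i => P ∈ A i) (fun i => (n i : ℚ)⁻¹)
  rw [Finset.filter_filter, Finset.filter_filter, h1] at h3
  have e1 : ∑ i with Q ∉ A i ∧ P ∈ A i, (n i : ℚ)⁻¹ = 1 := by
    rw [← h2]
    exact Finset.sum_congr (Finset.filter_congr fun i _ => and_comm) fun _ _ => rfl
  have e2 : ∑ i with Q ∉ A i ∧ P ∉ A i, (n i : ℚ)⁻¹ =
      ∑ i with P ∉ A i ∧ Q ∉ A i, (n i : ℚ)⁻¹ :=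
    Finset.sum_congr (Finset.filter_congr fun i _ => and_comm) fun _ _ => rfl
  rw [e1, e2] at h3
  have h4 := h.qx
  have h6 : ∑ i with P ∉ A i ∧ Q ∉ A i, (n i : ℚ)⁻¹ = ((x : ℚ) + y) / x - 1 := by
    linarith
  rw [h6]
  field_simp
  ring

/-- `m b = x r₂ - s n`. -/
theorem bz_eq (h : IntSys A n x y g) (i : ι) :
    ((x : ℤ) - y) * bz A x g i = x * (g * y + 1) - (x + y) * n i := by
  have h1 := h.K1 i
  unfold bz
  linear_combination h1

lemma compl_card (h : IntSys A n x y g) (i : ι) :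
    (((A i)ᶜ.card : ℕ) : ℤ) = g * y + 1 - bz A x g i := by
  rw [Finset.card_compl, Nat.cast_sub (Finset.card_le_univ _), h.cardX]
  unfold bz
  push_cast
  ring

lemma compl_eq (h : IntSys A n x y g) (i : ι) :
    ((x : ℤ) - y) * (((A i)ᶜ.card : ℕ) : ℤ) = (x + y) * n i - y * (g * y + 1) := by
  rw [h.compl_card i]
  have h1 := h.bz_eq i
  linear_combination -h1

theorem inter_compl (h : IntSys A n x y g) {i j : ι} (hij : i ≠ j) :
    ((x : ℤ) - y) * (((A i)ᶜ ∩ (A j)ᶜ).card : ℕ) = y * (n i + n j - (g * y + 1)) := by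
  have h1 := h.K2 hij
  have h2 := h.compl_eq j
  have h3 : (((A i)ᶜ ∩ (A j)ᶜ).card : ℤ) + ((A i).card - (A i ∩ A j).card) = (A j)ᶜ.card := by
    have h4 : (A j)ᶜ = ((A i)ᶜ ∩ (A j)ᶜ) ∪ (A i \ A j) := by
      ext P
      simp only [Finset.mem_compl, Finset.mem_union, Finset.mem_inter, Finset.mem_sdiff]
      tauto
    have h5 : Disjoint ((A i)ᶜ ∩ (A j)ᶜ) (A i \ A j) := by
      rw [Finset.disjoint_left]
      intro P hP hP'
      exact (Finset.mem_compl.mp (Finset.mem_inter.mp hP).1) (Finset.mem_sdiff.mp hP').1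
    have h6 : ((A j)ᶜ).card = ((A i)ᶜ ∩ (A j)ᶜ).card + (A i \ A j).card := by
      rw [← Finset.card_union_of_disjoint h5, ← h4]
    have h7 := Finset.card_sdiff_add_card_inter (A i) (A j)
    rw [h6]
    push_cast
    have : ((A i \ A j).card : ℤ) + (A i ∩ A j).card = (A i).card := by exact_mod_cast h7
    linarith
  linear_combination ((x : ℤ) - y) * h3 + h2 - h1

/-- `y n i ≤ x n j`. -/
theorem mul_le (h : IntSys A n x y g) {i j : ι} (hij : i ≠ j) : y * n i ≤ x * n j := by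
  have h1 := h.K2 hij
  have h2 : (0 : ℤ) ≤ ((x : ℤ) - y) * ((A i).card - (A i ∩ A j).card) := by
    apply mul_nonneg
    · have : (y : ℤ) < x := by exact_mod_cast h.hxy
      linarith
    · have : ((A i ∩ A j).card : ℤ) ≤ (A i).card := by
        exact_mod_cast Finset.card_le_card Finset.inter_subset_left
      linarith
  rw [h1] at h2
  have : (y : ℤ) * n i ≤ x * n j := by linarith
  exact_mod_cast this

theorem dvd_add_sub (h : IntSys A n x y g) {i j : ι} (hij : i ≠ j) :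
    ((x : ℤ) - y) ∣ n i + n j - (g * y + 1) := by
  have h1 := h.inter_compl hij
  exact h.cop_m.dvd_of_dvd_mul_left ⟨_, h1.symm⟩

lemma exists_ne (h : IntSys A n x y g) (i : ι) : ∃ j, i ≠ j := by
  have h1 := h.sys.card
  rw [h.cardX] at h1
  have h2 : 1 < Fintype.card ι := by rw [h1]; omega
  obtain ⟨j, hj⟩ := Fintype.exists_ne_of_one_lt_card h2 i
  exact ⟨j, hj.symm⟩

/-- `m ∣ n i + n j - r₂` for all `i`, `j`. -/
theorem dvd_add_sub' (h : IntSys A n x y g) (i j : ι) :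
    ((x : ℤ) - y) ∣ n i + n j - (g * y + 1) := by
  by_cases hij : i = j
  · subst hij
    obtain ⟨k, hk⟩ := h.exists_ne i
    have h1 := h.dvd_add_sub hk
    have h2 := h.K3 k i
    have h3 := dvd_add h1 h2
    have e : (n i + n k - (g * y + 1) + (n i - n k) : ℤ) = n i + n i - (g * y + 1) := by ring
    rwa [e] at h3
  · exact h.dvd_add_sub hij

lemma bz_kap (h : IntSys A n x y g) (i : ι) :
    (bz A x g i : ℚ) = 1 - Sys.kap A ((x : ℚ) / (x + y)) i := by
  unfold bz Sys.kap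
  rw [h.rr_eq, sz_eq]
  push_cast
  ring

theorem sum_b_sq (h : IntSys A n x y g) :
    ∑ i, (bz A x g i : ℚ) ^ 2 * (n i : ℚ)⁻¹ = (x + y) * (g * y + 1) / y := by
  have h1 := h.sys.sum_kap_sq
  have h2 := h.sys.sum_kap_inv
  have h3 := h.inv_all
  have h4 : ∀ i, (bz A x g i : ℚ) ^ 2 * (n i : ℚ)⁻¹ = (n i : ℚ)⁻¹ -
      2 * (Sys.kap A ((x : ℚ) / (x + y)) i * (n i : ℚ)⁻¹) +
        Sys.kap A ((x : ℚ) / (x + y)) i ^ 2 * (n i : ℚ)⁻¹ := by
    intro i
    rw [h.bz_kap i]; ring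
  simp_rw [h4]
  rw [Finset.sum_add_distrib, Finset.sum_sub_distrib, ← Finset.mul_sum, h1, h2, h3, h.rr_eq]
  have h5 := h.qx
  have h6 := h.qy
  field_simp
  ring

theorem sum_ab (h : IntSys A n x y g) (a b : ℚ) :
    ∑ i, ((n i : ℚ) - a) * ((n i : ℚ) - b) * (n i : ℚ)⁻¹ =
      (g * x + 1) * (g * y + 1) - (a + b) * (g * (x + y) + 2) + a * b * ((x + y) ^ 2 / (x * y)) := by
  have h1 : ∀ i, ((n i : ℚ) - a) * ((n i : ℚ) - b) * (n i : ℚ)⁻¹ =
      (n i : ℚ) - (a + b) + a * b * (n i : ℚ)⁻¹ := by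
    intro i
    have := (h.qn i).ne'
    field_simp
    ring
  simp_rw [h1]
  rw [Finset.sum_add_distrib, Finset.sum_sub_distrib, ← Finset.mul_sum, h.inv_all, h.sum_n,
    Finset.sum_const, Finset.card_univ, h.sys.card, h.cardX, nsmul_eq_mul]
  push_cast
  ring

/-- Counting over the points outside the sets. -/
lemma sum_compl_comm (A : ι → Finset X) (S : Finset ι) (U : Finset X) (f : ι → ℚ) :
    ∑ P ∈ U, ∑ i ∈ S with P ∉ A i, f i = ∑ i ∈ S, ((U \ A i).card : ℚ) * f i := by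
  simp_rw [Finset.sum_filter]
  rw [Finset.sum_comm]
  refine Finset.sum_congr rfl fun i _ => ?_
  rw [← Finset.sum_filter, Finset.sum_const, nsmul_eq_mul]
  congr 2
  have : U.filter (fun P => P ∉ A i) = U \ A i := by
    ext P; simp
  rw [this]

/-- `v > λ`. -/
theorem lt_v (h : IntSys A n x y g) (i : ι) (hi : A i ≠ ∅) : n i < g * (x + y) + 1 := by
  have h1 := h.K1 i
  have hg : (0 : ℤ) < g := by exact_mod_cast h.hg
  have hxy : (y : ℤ) < x := by exact_mod_cast h.hxy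
  have hy : (0 : ℤ) < y := by exact_mod_cast h.hy
  have h2 : (1 : ℤ) ≤ (A i).card := by
    exact_mod_cast Finset.card_pos.mpr (Finset.nonempty_iff_ne_empty.mpr hi)
  have h3 : ((x : ℤ) + y) * n i < (x + y) * (g * (x + y) + 1) := by
    have h4 : (x : ℤ) - y ≤ (x - y) * (A i).card := by nlinarith
    have h5 : (x : ℤ) * (g * x + 1) - (x - y) < (x + y) * (g * (x + y) + 1) := by
      have h6 : 0 < (g : ℤ) * y * (2 * x + y) := by positivity
      nlinarith
    linarith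
  have h7 := lt_of_mul_lt_mul_left h3 (by linarith)
  exact_mod_cast h7

/-- `y r₂ < s λ`. -/
theorem y_lt (h : IntSys A n x y g) (i : ι) {P : X} (hP : P ∉ A i) :
    y * (g * y + 1) < (x + y) * n i := by
  have h1 := h.compl_eq i
  have hxy : (y : ℤ) < x := by exact_mod_cast h.hxy
  have h2 : (1 : ℤ) ≤ (((A i)ᶜ.card : ℕ) : ℤ) := by
    exact_mod_cast Finset.card_pos.mpr ⟨P, Finset.mem_compl.mpr hP⟩
  have h3 : 0 < ((x : ℤ) - y) * (((A i)ᶜ.card : ℕ) : ℤ) := by nlinarith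
  rw [h1] at h3
  have : (y : ℤ) * (g * y + 1) < (x + y) * n i := by linarith
  exact_mod_cast this

/-! ### The matrix `t` -/

section T

variable {d m' : ℕ} {l : ℤ} {t : X → X → ℤ}

lemma abs_le' (t : X → X → ℤ) (P : X) : |∑ Q, t P Q| ≤ ∑ Q, t P Q ^ 2 := by
  refine (Finset.abs_sum_le_sum_abs _ _).trans (Finset.sum_le_sum fun Q _ => ?_)
  rw [← sq_abs]
  rcases eq_or_ne (t P Q) 0 with h0 | h0
  · simp [h0]
  · have := Int.one_le_abs h0
    nlinarith [abs_nonneg (t P Q)]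

/-- T1. -/
theorem tkey (h : IntSys A n x y g) (hm : (x : ℤ) - y = m' * d) (hm' : m' ≠ 0)
    (hT : TMat A x y g d m' l t) (P : X) :
    ((x : ℤ) + y) * ∑ Q, t P Q ^ 2 = g * (l * (d - l)) + (2 * l - d) * ∑ Q, t P Q := by
  have h1 := h.row_rel hm hm' hT P
  have e1 : ∑ Q, t Q P ^ 2 = ∑ Q, t P Q ^ 2 :=
    Finset.sum_congr rfl fun Q _ => by rw [h.tsymm hm' hT P Q]
  have e2 : ∑ Q, t Q P = ∑ Q, t P Q := Finset.sum_congr rfl fun Q _ => h.tsymm hm' hT Q P
  rw [e1, e2] at h1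
  linear_combination h1

/-- T2. -/
theorem trow (h : IntSys A n x y g) (hm : (x : ℤ) - y = m' * d) (hm' : m' ≠ 0)
    (hT : TMat A x y g d m' l t) (i : ι) {P : X} (hP : P ∉ A i) :
    ((x : ℤ) + y) * ∑ Q ∈ (A i)ᶜ, t P Q = y * (∑ Q, t P Q) - l * bz A x g i := by
  have h1 := h.row_eq hm hm' hT i P
  rw [if_neg hP] at h1
  have h2 := Finset.sum_add_sum_compl (A i) (fun Q => t P Q)
  unfold bz
  linear_combination -h1 + ((x : ℤ) + y) * h2

/-- T3. -/
theorem tphi (h : IntSys A n x y g) (hm : (x : ℤ) - y = m' * d) (hm' : m' ≠ 0)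
    (hT : TMat A x y g d m' l t) (P : X) :
    (d : ℚ) * Phi A n x g P = (x + y) * (g * (d - l) + ∑ Q, (t P Q : ℚ)) := by
  have h1 := h.ww_eq hm hm' hT P
  have h2 : ((ww x y l t P : ℤ) : ℚ) = (x + y) * ((∑ Q, (t P Q : ℚ)) - l * g) := by
    unfold ww
    simp_rw [WW_val hT]
    rw [Finset.sum_add_distrib, Finset.sum_sub_distrib, ← Finset.mul_sum, Finset.sum_const,
      Finset.card_univ, Finset.sum_ite_eq, if_pos (Finset.mem_univ _), nsmul_eq_mul, h.cardX]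
    push_cast
    ring
  have h3 : Phi A n x g P = ((x : ℚ) + y) * g - Sys.psi A n ((x : ℚ) / (x + y)) P := by
    have e1 : Phi A n x g P = (∑ i, (bz A x g i : ℚ) ^ 2 * (n i : ℚ)⁻¹) -
        ∑ i, (bz A x g i : ℚ) ^ 2 * chi A i P * (n i : ℚ)⁻¹ := by
      unfold Phi
      rw [Finset.sum_filter, ← Finset.sum_sub_distrib]
      refine Finset.sum_congr rfl fun i _ => ?_
      unfold chi
      by_cases hP : P ∈ A i <;> simp [hP]
    have e2 : ∑ i, (bz A x g i : ℚ) ^ 2 * chi A i P * (n i : ℚ)⁻¹ =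
        (∑ i, chi A i P * (n i : ℚ)⁻¹) -
          2 * (∑ i, Sys.kap A ((x : ℚ) / (x + y)) i * chi A i P * (n i : ℚ)⁻¹) +
          Sys.psi A n ((x : ℚ) / (x + y)) P := by
      unfold Sys.psi
      rw [Finset.mul_sum, ← Finset.sum_sub_distrib, ← Finset.sum_add_distrib]
      refine Finset.sum_congr rfl fun i _ => ?_
      rw [h.bz_kap i]
      ring
    rw [e1, e2, h.sum_b_sq, h.sys.s1, h.sys.kap_s1, h.qalpha]
    have h5 := h.qx
    have h6 := h.qy
    field_simp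
    ring
  have h4 : (d : ℚ) * Sys.psi A n ((x : ℚ) / (x + y)) P =
      -((x + y) * ((∑ Q, (t P Q : ℚ)) - l * g)) := by
    rw [← h2, h1]; ring
  rw [h3, mul_sub, h4]
  ring

end T

end IntSys

end Pool.Agent.Lib.MP_93e743_co
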