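import Pool.Agent.Lib.MP_93e743_qp.Gram

/-!
Row BB: bounds in the second case.
-/

namespace Pool.Agent.Lib.MP_93e743_co

open Finset

set_option linter.unusedSectionVars false

variable {ι X : Type*} [Fintype ι] [Fintype X] [DecidableEq ι] [DecidableEq X]

namespace CtxB

variable {A : ι → Finset X} {n : ι → ℕ} {x y g : ℕ} {i0 : ι} {q p m : ℕ} {l : ℤ}
  {t : X → X → ℤ}

/-- Row BB. -/
theorem K_le (c : CtxB A n x y g i0 q p m l t) : |((x : ℤ) + y) * l - q * x| ≤ 4 * q ^ 2 := by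
  have hl0 := c.T.l0
  have hl1 := c.T.l1
  have hy : (0 : ℤ) < y := by exact_mod_cast c.sys.hy
  have hxy : (y : ℤ) < x := by exact_mod_cast c.sys.hxy
  have e : ((x : ℤ) + y) * l - q * x = l * y - (q - l) * x := by ring
  have hq : (0 : ℤ) < q := by linarith
  rcases le_or_gt (4 * (q : ℤ)) (x + y) with h4 | h4
  · have h1 := c.sys.ratio_bound c.hmZ c.hm0 c.T
    have hone : 2 * ((x : ℤ) + y) < (g + 2) * q := by exact_mod_cast c.one
    rw [e] at h1
    have h2 := ratio_simple hl0 hl1 hone h4 h1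
    rw [e]
    nlinarith [sq_nonneg (q - 2 * l : ℤ)]
  · rw [e, abs_le]
    constructor
    · nlinarith [mul_pos hl0 hy]
    · nlinarith [mul_pos (sub_pos.mpr hl1) (hy.trans hxy)]

theorem J_ge (c : CtxB A n x y g i0 q p m l t) (hp : q ^ 2 ≤ p) :
    (q : ℤ) * (x + y) - q + 2 ≤ g * |((x : ℤ) + y) * l - q * x| := by
  have hl0 := c.T.l0
  have hl1 := c.T.l1
  have hy : (0 : ℤ) < y := by exact_mod_cast c.sys.hy
  have hxy : (y : ℤ) < x := by exact_mod_cast c.sys.hxy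
  have hg : (0 : ℤ) < g := by exact_mod_cast c.sys.hg
  have hq3 : (3 : ℤ) ≤ q := by exact_mod_cast c.hq3
  have hone : 2 * ((x : ℤ) + y) < (g + 2) * q := by exact_mod_cast c.one
  have hpZ : (q : ℤ) ^ 2 ≤ p := by exact_mod_cast hp
  have hlt : (q : ℤ) * p < g * (x + y) + 1 := by exact_mod_cast c.lt_v
  set K : ℤ := ((x : ℤ) + y) * l - q * x with hK
  have hs : ((x : ℤ) + y) ∣ g * K + 2 * l - q := by
    have h1 := c.l_mod
    have e : g * K + 2 * l - q = ((x : ℤ) + y) * (g * l) + (2 * l - q * (g * x + 1)) := by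
      rw [hK]; ring
    rw [e]
    exact dvd_add (Dvd.intro _ rfl) h1
  have hqd : (q : ℤ) ∣ g * K + 2 * l - q := by
    have h1 : (q : ℤ) ∣ (g : ℤ) * x + 1 := by exact_mod_cast c.dvd_r1
    have h2 : (q : ℤ) ∣ (g : ℤ) * y + 1 := by exact_mod_cast c.dvd_r2
    have e : g * K + 2 * l - q = l * ((g : ℤ) * x + 1) + l * ((g : ℤ) * y + 1) -
        q * (g * x + 1) := by
      rw [hK]; ring
    rw [e]
    exact dvd_sub (dvd_add (h1.mul_left _) (h2.mul_left _)) (Dvd.intro _ rfl)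
  have hcop : IsCoprime (q : ℤ) ((x : ℤ) + y) := by
    have := Nat.isCoprime_iff_coprime.mpr c.cop_s
    simpa using this
  have hqs : (q : ℤ) * (x + y) ∣ g * K + 2 * l - q := hcop.mul_dvd hqd hs
  have hKabs : (g : ℤ) * |K| = |g * K| := by rw [abs_mul, abs_of_pos hg]
  rw [hKabs]
  by_cases hJ : g * K + 2 * l - q = 0
  · exfalso
    have hodd : (q : ℤ) - 2 * l ≠ 0 := by
      intro h0
      have h2 : (2 : ℤ) ∣ q := ⟨l, by linarith⟩
      have h3 : 2 ∣ q := by exact_mod_cast h2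
      have h4 := (Nat.prime_dvd_prime_iff_eq Nat.prime_two c.hq).mp h3
      omega
    have hgK : g * K = q - 2 * l := by linarith
    have hK0 : K ≠ 0 := by
      intro h0
      rw [h0, mul_zero] at hgK
      exact hodd hgK.symm
    have hK1 : 1 ≤ |K| := Int.one_le_abs hK0
    have h5 : |g * K| ≤ q - 2 := by
      rw [hgK, abs_le]
      constructor <;> linarith
    have h6 : (g : ℤ) ≤ q - 2 := by
      rw [← hKabs] at h5
      nlinarith
    have h7 : 2 * ((x : ℤ) + y) < q * q := by nlinarith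
    have h8 : 2 * ((g : ℤ) * (x + y)) ≤ (q - 2) * (q * q) := by nlinarith
    have h9 : (q : ℤ) * q ^ 2 ≤ q * p := mul_le_mul_of_nonneg_left hpZ (by linarith)
    nlinarith [mul_pos (show (0 : ℤ) < q by linarith) (show (0 : ℤ) < q by linarith)]
  · have h1 : (q : ℤ) * (x + y) ≤ |g * K + 2 * l - q| :=
      Int.le_of_dvd (abs_pos.mpr hJ) ((dvd_abs _ _).mpr hqs)
    have h2 : |g * K + 2 * l - q| ≤ |g * K| + |2 * l - q| := by
      have := abs_add_le (g * K) (2 * l - q)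
      have e : g * K + (2 * l - q) = g * K + 2 * l - q := by ring
      rwa [e] at this
    have h3 : |2 * l - (q : ℤ)| ≤ q - 2 := by
      rw [abs_le]
      constructor <;> linarith
    linarith

theorem y_sq_le (c : CtxB A n x y g i0 q p m l t) (hp : q ^ 2 ≤ p) : y ^ 2 ≤ 8 * q ^ 2 * p := by
  have hJ := c.J_ge hp
  have hK := c.K_le
  have hy : (0 : ℤ) < y := by exact_mod_cast c.sys.hy
  have hxy : (y : ℤ) < x := by exact_mod_cast c.sys.hxy
  have hg : (0 : ℤ) < g := by exact_mod_cast c.sys.hg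
  have hq3 : (3 : ℤ) ≤ q := by exact_mod_cast c.hq3
  have hlt : (y : ℤ) * (g * y + 1) < (x + y) * (q * p) := by exact_mod_cast c.y_lt
  have hp0 : (0 : ℤ) < p := by exact_mod_cast c.hp.pos
  have h1 : (g : ℤ) * |((x : ℤ) + y) * l - q * x| ≤ g * (4 * q ^ 2) :=
    mul_le_mul_of_nonneg_left hK hg.le
  have h2 : ((x : ℤ) + y) ≤ 8 * q * g := by
    have h3 : (q : ℤ) * (x + y) ≤ q * (8 * q * g) := by nlinarith
    exact le_of_mul_le_mul_left h3 (by linarith)
  have h4 : (g : ℤ) * (y ^ 2) < g * (8 * q ^ 2 * p) := by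
    have h5 : ((x : ℤ) + y) * (q * p) ≤ 8 * q * g * (q * p) :=
      mul_le_mul_of_nonneg_right h2 (by positivity)
    nlinarith
  have h6 := lt_of_mul_lt_mul_left h4 hg.le
  have h7 : (y : ℤ) ^ 2 ≤ 8 * q ^ 2 * p := h6.le
  exact_mod_cast h7

theorem x_le (c : CtxB A n x y g i0 q p m l t) : x ≤ q * y + 4 * q ^ 2 := by
  have hK := (abs_le.mp c.K_le).1
  have hl0 := c.T.l0
  have hl1 := c.T.l1
  have hy : (0 : ℤ) < y := by exact_mod_cast c.sys.hy
  have hxy : (y : ℤ) < x := by exact_mod_cast c.sys.hxy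
  have h1 : (x : ℤ) ≤ x * (q - l) := by nlinarith
  have h2 : (x : ℤ) * (q - l) = l * y - (((x : ℤ) + y) * l - q * x) := by ring
  have h3 : l * (y : ℤ) ≤ q * y := mul_le_mul_of_nonneg_right hl1.le hy.le
  have h4 : (x : ℤ) ≤ q * y + 4 * q ^ 2 := by linarith
  exact_mod_cast h4

theorem s_lt (c : CtxB A n x y g i0 q p m l t) (hp : 40 * q ^ 4 ≤ p) : x + y < p := by
  have hq3 := c.hq3
  have hp2 : q ^ 2 ≤ p := by
    have : q ^ 2 ≤ q ^ 4 := Nat.pow_le_pow_right (by omega) (by norm_num)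
    omega
  have h1 := c.y_sq_le hp2
  have h2 := c.x_le
  by_contra hcon
  rw [not_lt] at hcon
  have h1' : (y : ℝ) ^ 2 ≤ 8 * q ^ 2 * p := by exact_mod_cast h1
  have h2' : (x : ℝ) ≤ q * y + 4 * q ^ 2 := by exact_mod_cast h2
  have h3' : (p : ℝ) ≤ x + y := by exact_mod_cast hcon
  have hp' : 40 * (q : ℝ) ^ 4 ≤ p := by exact_mod_cast hp
  have hq' : (3 : ℝ) ≤ q := by exact_mod_cast hq3
  have hy0 : (0 : ℝ) ≤ y := Nat.cast_nonneg _
  have hp0 : (0 : ℝ) < p := by exact_mod_cast c.hp.pos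
  have hq2 : (9 : ℝ) ≤ (q : ℝ) ^ 2 := by nlinarith
  have h5 : 4 * (q : ℝ) ^ 2 ≤ p / 90 := by
    have : (q : ℝ) ^ 4 = q ^ 2 * q ^ 2 := by ring
    nlinarith
  have h6 : 89 / 90 * (p : ℝ) ≤ (q + 1) * y := by linarith
  have h7 : (89 / 90 * (p : ℝ)) ^ 2 ≤ ((q + 1) * y) ^ 2 :=
    pow_le_pow_left₀ (by positivity) h6 2
  have h8 : ((q : ℝ) + 1) ^ 2 ≤ 16 / 9 * q ^ 2 := by nlinarith
  have h9 : (((q : ℝ) + 1) * y) ^ 2 ≤ 16 / 9 * q ^ 2 * (8 * q ^ 2 * p) := by
    rw [mul_pow]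
    exact mul_le_mul h8 h1' (by positivity) (by positivity)
  have h10 : (p : ℝ) * ((89 / 90) ^ 2 * p) ≤ p * (128 / 9 * q ^ 4) := by
    have e1 : (p : ℝ) * ((89 / 90) ^ 2 * p) = (89 / 90 * (p : ℝ)) ^ 2 := by ring
    have e2 : 16 / 9 * (q : ℝ) ^ 2 * (8 * (q : ℝ) ^ 2 * p) = p * (128 / 9 * (q : ℝ) ^ 4) := by
      ring
    rw [e1, ← e2]
    exact h7.trans h9
  have h11 := le_of_mul_le_mul_left h10 hp0
  have h12 : (0 : ℝ) < (q : ℝ) ^ 4 := by positivity
  nlinarith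

end CtxB

end Pool.Agent.Lib.MP_93e743_co
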