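import Pool.Agent.Lib.MP_93e743_qp.Gram

/-!
Row CB: in the second case of the generic point, `m = 1` and `y = 1`.
-/

namespace Pool.Agent.Lib.MP_93e743_co

open Finset

set_option linter.unusedSectionVars false

variable {ι X : Type*} [Fintype ι] [Fintype X] [DecidableEq ι] [DecidableEq X]

namespace CtxA

variable {A : ι → Finset X} {n : ι → ℕ} {x y g : ℕ} {i0 : ι} {q p m : ℕ} {l : ℤ}
  {t : X → X → ℤ}

private lemma exists_c0 (c : CtxA A n x y g i0 q p m l t) :
    ∃ c0 : ℤ, 1 ≤ c0 ∧ (2 ≤ m → c0 + 1 ≤ m) ∧ (m = 1 → c0 = 1) ∧ (m : ℤ) ∣ q - c0 := by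
  rcases Nat.lt_or_ge m 2 with h | h
  · have h1 : m = 1 := by have := c.hm1; omega
    refine ⟨1, le_refl _, fun h2 => by omega, fun _ => rfl, ?_⟩
    rw [h1]
    exact one_dvd _
  · refine ⟨((q % m : ℕ) : ℤ), ?_, ?_, fun h2 => by omega, ?_⟩
    · have h1 : q % m ≠ 0 := by
        intro h2
        have h3 : m ∣ q := Nat.dvd_of_mod_eq_zero h2
        rcases (Nat.dvd_prime c.hq).1 h3 with h4 | h4
        · omega
        · have := c.hmq; omega
      have : 1 ≤ q % m := Nat.one_le_iff_ne_zero.2 h1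
      exact_mod_cast this
    · intro _
      have : q % m < m := Nat.mod_lt _ (by omega)
      exact_mod_cast this
    · push_cast
      exact Int.dvd_self_sub_emod

theorem caseB (c : CtxA A n x y g i0 q p m l t) (hp16 : 16 ≤ p)
    (h3 : 3 * (y * (g * y + 1)) < p * (x + y)) : m = 1 ∧ y = 1 := by
  obtain ⟨c0, hc1, hc2, hc3, hc4⟩ := exists_c0 c
  have hx0 := c.sys.qx
  have hy0 := c.sys.qy
  have hg0 := c.sys.qg
  have hxm : (x : ℚ) = y + m * p := by
    have := c.hx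
    exact_mod_cast this
  have hm1 : (1 : ℚ) ≤ m := by exact_mod_cast c.hm1
  have hy1 : (1 : ℚ) ≤ y := by exact_mod_cast c.sys.hy
  have hp16' : (16 : ℚ) ≤ p := by exact_mod_cast hp16
  have hc1' : (1 : ℚ) ≤ c0 := by exact_mod_cast hc1
  set S : ℚ := (x : ℚ) + y with hS
  set P : ℚ := (p : ℚ) with hP
  set M : ℚ := (m : ℚ) with hM
  set a : ℚ := (g * y + 1) - c0 * P with ha
  set b : ℚ := a + M * P with hb
  have hS0 : 0 < S := by positivity
  have hP0 : 0 < P := by linarith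
  have hM0 : 0 < M := by linarith
  -- the terms are nonnegative
  have hnn : 0 ≤ ∑ i, ((n i : ℚ) - a) * ((n i : ℚ) - b) * (n i : ℚ)⁻¹ := by
    refine Finset.sum_nonneg fun i _ => ?_
    refine mul_nonneg ?_ (inv_nonneg.2 (c.sys.qn i).le)
    obtain ⟨k1, hk1⟩ := c.cong i
    obtain ⟨k2, hk2⟩ := c.cong_r
    obtain ⟨k3, hk3⟩ := hc4
    have e1 : (n i : ℚ) - q * p = m * p * k1 := by exact_mod_cast hk1
    have e2 : (2 * (q * p) - (g * y + 1) : ℚ) = m * p * k2 := by exact_mod_cast hk2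
    have e3 : (q : ℚ) - c0 = m * k3 := by exact_mod_cast hk3
    have e4 : (n i : ℚ) - a = (M * P) * ((k1 + k2 - k3 : ℤ) : ℚ) := by
      rw [ha, hM, hP]
      push_cast
      linear_combination e1 + e2 - (p : ℚ) * e3
    have e5 : (n i : ℚ) - b = (M * P) * (((k1 + k2 - k3 : ℤ) : ℚ) - 1) := by
      rw [hb]
      linear_combination e4
    rw [e4, e5]
    have e6 : (M * P) * ((k1 + k2 - k3 : ℤ) : ℚ) * ((M * P) * (((k1 + k2 - k3 : ℤ) : ℚ) - 1))
        = (M * P) ^ 2 * (((k1 + k2 - k3 : ℤ) : ℚ) * (((k1 + k2 - k3 : ℤ) : ℚ) - 1)) := by ring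
    rw [e6]
    refine mul_nonneg (by positivity) ?_
    have e7 : (0 : ℤ) ≤ (k1 + k2 - k3) * ((k1 + k2 - k3) - 1) := by
      rcases le_or_gt (k1 + k2 - k3) 0 with h | h
      · nlinarith
      · have : (0 : ℤ) ≤ (k1 + k2 - k3) - 1 := by omega
        positivity
    exact_mod_cast e7
  rw [c.sys.sum_ab a b] at hnn
  set D : ℚ := g * y ^ 2 * S + x ^ 2 + y ^ 2 with hD
  have hD0 : 0 < D := by positivity
  have key : 0 ≤ (D - c0 * P * S ^ 2) * (D + (M - c0) * P * S ^ 2)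
      + x * y * (M * P) ^ 2 * (g * S + 1) := by
    have h1 := mul_nonneg (show (0 : ℚ) ≤ S ^ 2 * (x * y) by positivity) hnn
    have h2 : S ^ 2 * ((x : ℚ) * y) * ((g * x + 1) * (g * y + 1) - (a + b) * (g * (x + y) + 2)
        + a * b * ((x + y) ^ 2 / (x * y)))
        = (D - c0 * P * S ^ 2) * (D + (M - c0) * P * S ^ 2)
          + x * y * (M * P) ^ 2 * (g * S + 1) := by
      have h5 : M * P = x - y := by rw [hxm]; ring
      have h6 : (D - c0 * P * S ^ 2) * (D + (M - c0) * P * S ^ 2)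
          = (D - c0 * P * S ^ 2) * (D + (M * P) * S ^ 2 - c0 * P * S ^ 2) := by ring
      have h7 : b = a + (x - y) := by rw [hb, h5]
      rw [h6, h5, h7, ha, hD, hS]
      field_simp
      ring
    rw [h2] at h1
    exact h1
  have hbd : y * (x * y * (M * P) ^ 2 * (g * S + 1)) ≤ M * P * S ^ 2 * D := by
    have h5 : M * P = x - y := by rw [hxm]; ring
    have h6 : (x : ℚ) * (M * P) ≤ S ^ 2 := by
      rw [h5, hS]; nlinarith
    have h7 : (x : ℚ) * (M * P) * (y ^ 2 * (g * S + 1)) ≤ S ^ 2 * (y ^ 2 * (g * S + 1)) :=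
      mul_le_mul_of_nonneg_right h6 (by positivity)
    have h8 : S ^ 2 * (y ^ 2 * (g * S + 1)) ≤ S ^ 2 * D := by
      refine mul_le_mul_of_nonneg_left ?_ (by positivity)
      rw [hD]
      nlinarith [sq_nonneg (x : ℚ)]
    have h9 := mul_le_mul_of_nonneg_left (h7.trans h8) (show (0 : ℚ) ≤ M * P by positivity)
    calc y * (x * y * (M * P) ^ 2 * (g * S + 1))
        = M * P * ((x : ℚ) * (M * P) * (y ^ 2 * (g * S + 1))) := by ring
      _ ≤ M * P * (S ^ 2 * D) := h9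
      _ = M * P * S ^ 2 * D := by ring
  -- the quotient
  set δ : ℚ := D / (P * S ^ 2) with hδ
  have hPS : 0 < P * S ^ 2 := by positivity
  have hDδ : D = δ * (P * S ^ 2) := by rw [hδ]; field_simp
  have hδ0 : 0 < δ := by positivity
  have hδ1 : δ < 2 / 5 := by
    rw [hδ, div_lt_iff₀ hPS]
    have h5 : D = y * (g * y + 1) * S + x * (M * P) := by
      have : M * P = x - y := by rw [hxm]; ring
      rw [this, hD, hS]; ring
    have h6 : (3 : ℚ) * (y * (g * y + 1)) < P * S := by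
      rw [hP, hS]
      exact_mod_cast h3
    have h7 : (16 : ℚ) * M ≤ x := by
      rw [hxm]
      nlinarith
    have h8 : (16 : ℚ) * M * x ≤ S ^ 2 := by
      have h9 : (16 : ℚ) * M * x ≤ x * x := mul_le_mul_of_nonneg_right h7 hx0.le
      have h10 : (x : ℚ) * x ≤ S ^ 2 := by rw [hS]; nlinarith
      linarith
    have h9 : 3 * (y * (g * y + 1) * S) < P * S ^ 2 := by
      have := mul_lt_mul_of_pos_right h6 hS0
      calc 3 * (y * (g * y + 1) * S) = 3 * (y * (g * y + 1)) * S := by ring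
        _ < P * S * S := this
        _ = P * S ^ 2 := by ring
    have h10 : 16 * (x * (M * P)) ≤ P * S ^ 2 := by
      have := mul_le_mul_of_nonneg_left h8 hP0.le
      calc 16 * (x * (M * P)) = P * (16 * M * x) := by ring
        _ ≤ P * S ^ 2 := this
    rw [h5]
    nlinarith
  have hfin : y * ((c0 - δ) * (M - c0 + δ)) ≤ M * δ := by
    have h5 : (D - c0 * P * S ^ 2) * (D + (M - c0) * P * S ^ 2)
        = -((c0 - δ) * (M - c0 + δ)) * (P * S ^ 2) ^ 2 := by
      rw [hDδ]; ring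
    rw [h5] at key
    have h6 : y * ((c0 - δ) * (M - c0 + δ)) * (P * S ^ 2) ^ 2 ≤ M * δ * (P * S ^ 2) ^ 2 := by
      have h7 : ((c0 - δ) * (M - c0 + δ)) * (P * S ^ 2) ^ 2
          ≤ x * y * (M * P) ^ 2 * (g * S + 1) := by linarith
      have h8 := mul_le_mul_of_nonneg_left h7 hy0.le
      have h9 : M * P * S ^ 2 * D = M * δ * (P * S ^ 2) ^ 2 := by
        rw [hDδ]; ring
      calc y * ((c0 - δ) * (M - c0 + δ)) * (P * S ^ 2) ^ 2
          = y * (((c0 - δ) * (M - c0 + δ)) * (P * S ^ 2) ^ 2) := by ring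
        _ ≤ y * (x * y * (M * P) ^ 2 * (g * S + 1)) := h8
        _ ≤ M * P * S ^ 2 * D := hbd
        _ = M * δ * (P * S ^ 2) ^ 2 := h9
    exact le_of_mul_le_mul_right h6 (by positivity)
  have hmeq : m = 1 := by
    by_contra hne
    have hm2 : 2 ≤ m := by have := c.hm1; omega
    have h5 : (c0 : ℚ) + 1 ≤ M := by
      have := hc2 hm2
      rw [hM]
      exact_mod_cast this
    obtain ⟨u, hu⟩ : ∃ u : ℚ, c0 = 1 + u := ⟨c0 - 1, by ring⟩
    obtain ⟨w, hw⟩ : ∃ w : ℚ, M = 2 + u + w := ⟨M - 2 - u, by ring⟩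
    have hu0 : 0 ≤ u := by linarith
    have hw0 : 0 ≤ w := by linarith
    have h6 : (0 : ℚ) ≤ (c0 - δ) * (M - c0 + δ) := by
      refine mul_nonneg ?_ ?_ <;> linarith
    have h7 : (c0 - δ) * (M - c0 + δ) ≤ M * δ := by
      refine le_trans ?_ hfin
      nlinarith
    rw [hw, hu] at h7
    have h8 : (1 + u - δ) * (2 + u + w - (1 + u) + δ) - (2 + u + w) * δ
        = (1 + w) * (1 + u - 2 * δ) - δ ^ 2 := by ring
    have h9 : (1 : ℚ) * (1 - 2 * δ) ≤ (1 + w) * (1 + u - 2 * δ) := by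
      refine mul_le_mul (by linarith) (by linarith) (by linarith) (by linarith)
    nlinarith
  refine ⟨hmeq, ?_⟩
  have hc0 := hc3 hmeq
  have hM1 : M = 1 := by rw [hM, hmeq]; norm_num
  rw [hc0, hM1] at hfin
  have h5 : (y : ℚ) * (1 - δ) * δ ≤ 1 * δ := by
    calc (y : ℚ) * (1 - δ) * δ = y * (((1 : ℤ) - δ) * (1 - ((1 : ℤ) : ℚ) + δ)) := by
          push_cast; ring
      _ ≤ 1 * δ := hfin
  have h6 : (y : ℚ) * (1 - δ) ≤ 1 := le_of_mul_le_mul_right h5 hδ0
  have h7 : (y : ℚ) < 2 := by nlinarith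
  have h8 : y < 2 := by exact_mod_cast h7
  have h9 := c.sys.hy
  omega

end CtxA

end Pool.Agent.Lib.MP_93e743_co
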