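import Pool.Agent.Lib.MP_93e743_qp.Base

/-!
The two contexts: `p ∣ x - y` (`CtxA`, with `d = p`) and `p ∤ x - y` (`CtxB`, with `d = q`).
-/

namespace Pool.Agent.Lib.MP_93e743_co

open Finset

set_option linter.unusedSectionVars false

variable {ι X : Type*} [Fintype ι] [Fintype X] [DecidableEq ι] [DecidableEq X]

/-- The data in the case `p ∣ x - y`. -/
structure CtxA (A : ι → Finset X) (n : ι → ℕ) (x y g : ℕ) (i0 : ι) (q p m : ℕ) (l : ℤ)
    (t : X → X → ℤ) : Prop where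
  sys : IntSys A n x y g
  hq : q.Prime
  hp : p.Prime
  hx : x = y + m * p
  hm1 : 1 ≤ m
  hmq : m < q
  root : n i0 = q * p
  out : ∃ P, P ∉ A i0
  T : TMat A x y g p m l t
  one : 2 * (x + y) < (g + 2) * p

/-- The data in the case `p ∤ x - y`. -/
structure CtxB (A : ι → Finset X) (n : ι → ℕ) (x y g : ℕ) (i0 : ι) (q p m : ℕ) (l : ℤ)
    (t : X → X → ℤ) : Prop where
  sys : IntSys A n x y g
  hq : q.Prime
  hp : p.Prime
  hq3 : 3 ≤ q
  hpq : q < p
  hx : x = y + m * q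
  hm1 : 1 ≤ m
  hpm : ¬ p ∣ m
  root : n i0 = q * p
  out : ∃ P, P ∉ A i0
  inn : ∃ P, P ∈ A i0
  T : TMat A x y g q m l t
  one : 2 * (x + y) < (g + 2) * q

namespace IntSys

variable {A : ι → Finset X} {n : ι → ℕ} {x y g : ℕ}

/-- If `d ∣ x - y` and `d` divides one of the numbers, then it divides all of them, and `r₁`,
`r₂`. -/
theorem dvd_all (h : IntSys A n x y g) {d m : ℕ} (hx : x = y + m * d) (i0 : ι) (hd : d ∣ n i0) :
    (∀ i, d ∣ n i) ∧ d ∣ g * x + 1 ∧ d ∣ g * y + 1 ∧ Nat.Coprime d x ∧ Nat.Coprime d y := by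
  have hmZ : (x : ℤ) - y = m * d := by rw [hx]; push_cast; ring
  have hdm : (d : ℤ) ∣ (x : ℤ) - y := ⟨m, by rw [hmZ]; ring⟩
  have hcy : Nat.Coprime d y := by
    have h1 : IsCoprime (d : ℤ) (y : ℤ) := h.cop_m.of_isCoprime_of_dvd_left hdm
    exact Nat.isCoprime_iff_coprime.mp h1
  have hcx : Nat.Coprime d x := by
    rw [hx]
    exact (Nat.coprime_add_mul_right_right d y m).mpr hcy
  have hall : ∀ i, d ∣ n i := by
    intro i
    have h1 := h.K3 i0 i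
    have h3 : (d : ℤ) ∣ (n i0 : ℤ) := by exact_mod_cast hd
    have h4 : (d : ℤ) ∣ (n i : ℤ) := by
      have := dvd_add (hdm.trans h1) h3
      simpa using this
    exact_mod_cast h4
  have hr1 : d ∣ g * x + 1 := by
    have h1 := h.K1 i0
    have h2 : (d : ℤ) ∣ x * (g * x + 1) := by
      have h3 : (d : ℤ) ∣ (n i0 : ℤ) := by exact_mod_cast hd
      have h4 := dvd_add (hdm.mul_right ((A i0).card : ℤ)) (h3.mul_left ((x : ℤ) + y))
      rw [h1] at h4
      have e : (x : ℤ) * (g * x + 1) - (x + y) * n i0 + (x + y) * n i0 = x * (g * x + 1) := by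
        ring
      rwa [e] at h4
    have h5 : d ∣ x * (g * x + 1) := by exact_mod_cast h2
    exact hcx.dvd_of_dvd_mul_left h5
  refine ⟨hall, hr1, ?_, hcx, hcy⟩
  have h1 : g * x + 1 = (g * y + 1) + g * m * d := by rw [hx]; ring
  rw [h1] at hr1
  exact (Nat.dvd_add_left (Dvd.intro_left _ rfl)).mp hr1

end IntSys

namespace CtxA

variable {A : ι → Finset X} {n : ι → ℕ} {x y g : ℕ} {i0 : ι} {q p m : ℕ} {l : ℤ}
  {t : X → X → ℤ}

lemma hmZ (c : CtxA A n x y g i0 q p m l t) : (x : ℤ) - y = m * p := by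
  rw [c.hx]; push_cast; ring

lemma hm0 (c : CtxA A n x y g i0 q p m l t) : m ≠ 0 := by have := c.hm1; omega

lemma dvd_n (c : CtxA A n x y g i0 q p m l t) (i : ι) : p ∣ n i :=
  (c.sys.dvd_all c.hx i0 (by rw [c.root]; exact Dvd.intro_left _ rfl)).1 i

lemma dvd_r1 (c : CtxA A n x y g i0 q p m l t) : p ∣ g * x + 1 :=
  (c.sys.dvd_all c.hx i0 (by rw [c.root]; exact Dvd.intro_left _ rfl)).2.1

lemma dvd_r2 (c : CtxA A n x y g i0 q p m l t) : p ∣ g * y + 1 :=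
  (c.sys.dvd_all c.hx i0 (by rw [c.root]; exact Dvd.intro_left _ rfl)).2.2.1

/-- `m p e = s q p - y r₂`. -/
lemma e_eq (c : CtxA A n x y g i0 q p m l t) :
    (m : ℤ) * p * (((A i0)ᶜ.card : ℕ) : ℤ) = (x + y) * (q * p) - y * (g * y + 1) := by
  have h1 := c.sys.compl_eq i0
  rw [c.hmZ, c.root] at h1
  rw [h1]; push_cast; ring

/-- `n i ≡ q p` modulo `m p`. -/
lemma cong (c : CtxA A n x y g i0 q p m l t) (i : ι) : ((m : ℤ) * p) ∣ n i - q * p := by
  have h1 := c.sys.K3 i0 i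
  rw [c.hmZ, c.root] at h1
  have e : ((q * p : ℕ) : ℤ) = q * p := by push_cast; ring
  rwa [e] at h1

/-- `r₂ ≡ 2 q p` modulo `m p`. -/
lemma cong_r (c : CtxA A n x y g i0 q p m l t) : ((m : ℤ) * p) ∣ 2 * (q * p) - (g * y + 1) := by
  have h1 := c.sys.dvd_add_sub' i0 i0
  rw [c.hmZ, c.root] at h1
  have e : (((q * p : ℕ) : ℤ) + ((q * p : ℕ) : ℤ) - (g * y + 1)) = 2 * (q * p) - (g * y + 1) := by
    push_cast; ring
  rwa [e] at h1

lemma y_lt (c : CtxA A n x y g i0 q p m l t) : y * (g * y + 1) < (x + y) * (q * p) := by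
  obtain ⟨P, hP⟩ := c.out
  have := c.sys.y_lt i0 hP
  rwa [c.root] at this

end CtxA

namespace CtxB

variable {A : ι → Finset X} {n : ι → ℕ} {x y g : ℕ} {i0 : ι} {q p m : ℕ} {l : ℤ}
  {t : X → X → ℤ}

lemma hmZ (c : CtxB A n x y g i0 q p m l t) : (x : ℤ) - y = m * q := by
  rw [c.hx]; push_cast; ring

lemma hm0 (c : CtxB A n x y g i0 q p m l t) : m ≠ 0 := by have := c.hm1; omega

lemma dvd_n (c : CtxB A n x y g i0 q p m l t) (i : ι) : q ∣ n i :=
  (c.sys.dvd_all c.hx i0 (by rw [c.root]; exact Dvd.intro _ rfl)).1 i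

lemma dvd_r1 (c : CtxB A n x y g i0 q p m l t) : q ∣ g * x + 1 :=
  (c.sys.dvd_all c.hx i0 (by rw [c.root]; exact Dvd.intro _ rfl)).2.1

lemma dvd_r2 (c : CtxB A n x y g i0 q p m l t) : q ∣ g * y + 1 :=
  (c.sys.dvd_all c.hx i0 (by rw [c.root]; exact Dvd.intro _ rfl)).2.2.1

lemma cop_x (c : CtxB A n x y g i0 q p m l t) : Nat.Coprime q x :=
  (c.sys.dvd_all c.hx i0 (by rw [c.root]; exact Dvd.intro _ rfl)).2.2.2.1

lemma cop_y (c : CtxB A n x y g i0 q p m l t) : Nat.Coprime q y :=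
  (c.sys.dvd_all c.hx i0 (by rw [c.root]; exact Dvd.intro _ rfl)).2.2.2.2

lemma cop_s (c : CtxB A n x y g i0 q p m l t) : Nat.Coprime q (x + y) := by
  have h1 := c.cop_y
  have h2 : x + y = 2 * y + m * q := by rw [c.hx]; ring
  rw [h2, Nat.coprime_add_mul_right_right]
  refine Nat.Coprime.mul_right ?_ h1
  rw [Nat.coprime_primes c.hq Nat.prime_two]
  have := c.hq3
  omega

lemma y_lt (c : CtxB A n x y g i0 q p m l t) : y * (g * y + 1) < (x + y) * (q * p) := by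
  obtain ⟨P, hP⟩ := c.out
  have := c.sys.y_lt i0 hP
  rwa [c.root] at this

/-- `λ < v`. -/
lemma lt_v (c : CtxB A n x y g i0 q p m l t) : q * p < g * (x + y) + 1 := by
  obtain ⟨P, hP⟩ := c.inn
  have := c.sys.lt_v i0 (fun h0 => by rw [h0] at hP; simp at hP)
  rwa [c.root] at this

/-- `s ∣ 2 l - q r₁`. -/
lemma l_mod (c : CtxB A n x y g i0 q p m l t) : ((x : ℤ) + y) ∣ 2 * l - q * (g * x + 1) := by
  obtain ⟨P, hP⟩ := c.out
  obtain ⟨Q, hQ⟩ := c.inn
  have hPQ : P ≠ Q := fun h0 => hP (h0 ▸ hQ)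
  exact c.sys.l_mod c.hmZ c.T hPQ

end CtxB

end Pool.Agent.Lib.MP_93e743_co
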