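import Pool.Agent.Lib.MP_93e743_qp.BoundsB
import Pool.Agent.Lib.MP_93e743_qp.PInt

/-!
Row D1: the integer data in the case `q < y`.
-/

namespace Pool.Agent.Lib.MP_93e743_co

open Finset

set_option linter.unusedSectionVars false

variable {ι X : Type*} [Fintype ι] [Fintype X] [DecidableEq ι] [DecidableEq X]

namespace CtxB

variable {A : ι → Finset X} {n : ι → ℕ} {x y g : ℕ} {i0 : ι} {q p m : ℕ} {l : ℤ}
  {t : X → X → ℤ}

/-- If `q < y` then `p ∣ n i` only for `n i = q p`. -/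
private theorem d1_n (c : CtxB A n x y g i0 q p m l t) (hy : q < y) (i : ι) (hi : p ∣ n i) :
    n i = q * p := by
  by_cases hi0 : i = i0
  · rw [hi0, c.root]
  have hcop : Nat.Coprime q p := by
    rw [Nat.coprime_primes c.hq c.hp]
    exact c.hpq.ne
  obtain ⟨k, hk⟩ : q * p ∣ n i := hcop.mul_dvd_of_dvd_of_dvd (c.dvd_n i) hi
  have hqpos : 0 < q := c.hq.pos
  have hppos : 0 < p := c.hp.pos
  have hk1 : 1 ≤ k := by
    rcases Nat.eq_zero_or_pos k with h0 | h0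
    · have h1 := c.sys.sys.npos i
      rw [hk, h0, mul_zero] at h1
      exact absurd h1 (lt_irrefl _)
    · exact h0
  by_contra hne
  have hk2 : 2 ≤ k := by
    by_contra h2
    have : k = 1 := by omega
    rw [this, mul_one] at hk
    exact hne hk
  have h3 := c.sys.K3 i0 i
  rw [c.hmZ, c.root, hk] at h3
  have h4 : ((m : ℤ) * q) ∣ (q : ℤ) * (p * (k - 1)) := by
    have e : (((q * p * k : ℕ) : ℤ) - ((q * p : ℕ) : ℤ)) = (q : ℤ) * (p * (k - 1)) := by
      push_cast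
      ring
    rwa [e] at h3
  have h5 : (m : ℤ) ∣ p * (k - 1) := by
    rw [mul_comm (m : ℤ) q] at h4
    exact (mul_dvd_mul_iff_left (by exact_mod_cast hqpos.ne')).mp h4
  have hcm : IsCoprime (m : ℤ) (p : ℤ) := by
    rw [Nat.isCoprime_iff_coprime, Nat.coprime_comm]
    exact (Nat.Prime.coprime_iff_not_dvd c.hp).mpr c.hpm
  have h6 : (m : ℤ) ∣ (k : ℤ) - 1 := hcm.dvd_of_dvd_mul_left h5
  have hk3 : (2 : ℤ) ≤ k := by exact_mod_cast hk2
  have h7 : (m : ℤ) ≤ (k : ℤ) - 1 := Int.le_of_dvd (by omega) h6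
  have h8 := c.sys.mul_le (i := i) (j := i0) hi0
  rw [c.root, hk] at h8
  have h9 : y * k ≤ x := by
    have : (q * p) * (y * k) ≤ (q * p) * x := by
      calc (q * p) * (y * k) = y * (q * p * k) := by ring
        _ ≤ x * (q * p) := h8
        _ = (q * p) * x := by ring
    exact Nat.le_of_mul_le_mul_left this (Nat.mul_pos hqpos hppos)
  have h10 : (y : ℤ) * k ≤ y + m * q := by
    have : (y : ℤ) * k ≤ x := by exact_mod_cast h9
    rw [c.hx] at this
    push_cast at this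
    exact this
  have hyq : (q : ℤ) < y := by exact_mod_cast hy
  have hq0 : (0 : ℤ) < q := by exact_mod_cast hqpos
  nlinarith

/-- Row D1. -/
theorem data1 (c : CtxB A n x y g i0 q p m l t) (hp : 40 * q ^ 4 ≤ p) (hy : q < y) :
    ∃ (q0 : ℤ) (N1 : X → ℤ) (M : X → X → ℤ), 0 < q0 ∧
      (∑ P, (((x : ℤ) + y) * N1 P - x * q0) ^ 2 = ((x : ℤ) + y) ^ 2 * q * q0 - x * y * q0 ^ 2) ∧
      ∀ P, 4 * ∑ Q ∈ univ.erase P, (((x : ℤ) + y) ^ 2 * M P Q -
        ((x : ℤ) + y) * x * (N1 P + N1 Q) + x ^ 2 * q0) ^ 2 ≤ ((x : ℤ) + y) ^ 4 * q ^ 2 := by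
  have hs := c.s_lt hp
  have hy0 : 0 < y := c.sys.hy
  have hx0 : 0 < x := by have := c.sys.hxy; omega
  have hpx : ¬ p ∣ x := fun h => by have := Nat.le_of_dvd hx0 h; omega
  have hpy : ¬ p ∣ y := fun h => by have := Nat.le_of_dvd hy0 h; omega
  have hL : ∀ i, p ∣ n i → n i ∣ p * q := by
    intro i hi
    rw [c.d1_n hy i hi, mul_comm]
  obtain ⟨q0, hq0⟩ := c.sys.pint0 c.hp hpx hpy q hL
  have h1 : ∀ P, ∃ z : ℤ, (q : ℚ) * M1 A n (univ.filter fun i => p ∣ n i) P = z :=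
    fun P => c.sys.pint1 c.hp hpy q hL P
  choose N1 hN1 using h1
  have h2 : ∀ P Q, ∃ z : ℤ, P ≠ Q → (q : ℚ) * M2 A n (univ.filter fun i => p ∣ n i) P Q = z := by
    intro P Q
    by_cases hPQ : P = Q
    · exact ⟨0, fun h => absurd hPQ h⟩
    · obtain ⟨z, hz⟩ := c.sys.pint2 c.hp hpy q hL hPQ
      exact ⟨z, fun _ => hz⟩
  choose M hM using h2
  have qq : (0 : ℚ) < q := by exact_mod_cast c.hq.pos
  have qx := c.sys.qx
  have qy := c.sys.qy
  have qs : (0 : ℚ) < (x : ℚ) + y := by linarith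
  have hα := c.sys.qalpha
  have hR0 := c.sys.sys.R0 (univ.filter fun i => p ∣ n i)
  rw [hα] at hR0
  refine ⟨q0, N1, M, ?_, ?_, ?_⟩
  · have h3 : 0 < M0 n (univ.filter fun i => p ∣ n i) := by
      unfold M0
      refine Finset.sum_pos (fun i _ => inv_pos.mpr (c.sys.qn i)) ⟨i0, ?_⟩
      rw [Finset.mem_filter]
      refine ⟨Finset.mem_univ _, ?_⟩
      rw [c.root]
      exact Dvd.intro_left _ rfl
    have h4 : (0 : ℚ) < q0 := by
      rw [← hq0]
      positivity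
    exact_mod_cast h4
  · have h5 : ∑ P, (((x : ℚ) + y) * N1 P - x * q0) ^ 2 =
        ((x : ℚ) + y) ^ 2 * q * q0 - x * y * q0 ^ 2 := by
      have e1 : ∀ P, (((x : ℚ) + y) * N1 P - x * q0) ^ 2 = (((x : ℚ) + y) * q) ^ 2 *
          G1 A n ((x : ℚ) / (x + y)) (univ.filter fun i => p ∣ n i) P ^ 2 := by
        intro P
        unfold G1
        rw [← hN1 P, ← hq0, ← mul_pow]
        congr 1
        field_simp
      rw [Finset.sum_congr rfl fun P _ => e1 P, ← Finset.mul_sum]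
      have e2 : ∑ P, G1 A n ((x : ℚ) / (x + y)) (univ.filter fun i => p ∣ n i) P ^ 2 =
          M0 n (univ.filter fun i => p ∣ n i) - (x : ℚ) / (x + y) * (y / (x + y)) *
            M0 n (univ.filter fun i => p ∣ n i) ^ 2 := by
        linarith
      rw [e2, ← hq0]
      field_simp
    exact_mod_cast h5
  · intro P
    have hRP := c.sys.sys.RP (univ.filter fun i => p ∣ n i) P
    rw [hα] at hRP
    have h6 : ∑ Q ∈ univ.erase P, (((x : ℚ) + y) ^ 2 * M P Q -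
        ((x : ℚ) + y) * x * (N1 P + N1 Q) + x ^ 2 * q0) ^ 2 = (((x : ℚ) + y) ^ 2 * q) ^ 2 *
        ∑ Q ∈ univ.erase P, G2 A n ((x : ℚ) / (x + y)) (univ.filter fun i => p ∣ n i) P Q ^ 2 := by
      rw [Finset.mul_sum]
      refine Finset.sum_congr rfl fun Q hQ => ?_
      have hPQ : P ≠ Q := (Finset.ne_of_mem_erase hQ).symm
      unfold G2
      rw [← hN1 P, ← hN1 Q, ← hM P Q hPQ, ← hq0, ← mul_pow]
      congr 1
      field_simp
    have h7 := Finset.add_sum_erase univ (fun Q => G2 A n ((x : ℚ) / (x + y))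
      (univ.filter fun i => p ∣ n i) P Q ^ 2) (Finset.mem_univ P)
    have h8 : ∑ Q ∈ univ.erase P, G2 A n ((x : ℚ) / (x + y)) (univ.filter fun i => p ∣ n i) P Q ^ 2
        ≤ 1 / 4 := by
      have h9 : 0 ≤ (x : ℚ) / (x + y) * (y / (x + y)) *
          G1 A n ((x : ℚ) / (x + y)) (univ.filter fun i => p ∣ n i) P ^ 2 := by positivity
      nlinarith [sq_nonneg (G2 A n ((x : ℚ) / (x + y)) (univ.filter fun i => p ∣ n i) P P - 1 / 2)]
    have h10 : 4 * ∑ Q ∈ univ.erase P, (((x : ℚ) + y) ^ 2 * M P Q -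
        ((x : ℚ) + y) * x * (N1 P + N1 Q) + x ^ 2 * q0) ^ 2 ≤ ((x : ℚ) + y) ^ 4 * q ^ 2 := by
      rw [h6]
      have h11 : (((x : ℚ) + y) ^ 2 * q) ^ 2 * ∑ Q ∈ univ.erase P, G2 A n ((x : ℚ) / (x + y))
          (univ.filter fun i => p ∣ n i) P Q ^ 2 ≤ (((x : ℚ) + y) ^ 2 * q) ^ 2 * (1 / 4) :=
        mul_le_mul_of_nonneg_left h8 (by positivity)
      calc _ ≤ 4 * ((((x : ℚ) + y) ^ 2 * q) ^ 2 * (1 / 4)) := by linarith
        _ = _ := by ring
    exact_mod_cast h10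

end CtxB

end Pool.Agent.Lib.MP_93e743_co
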