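import Pool.Agent.Lib.MP_93e743_qp.Gram

/-!
The end of Part I in the case `p s ≤ 3 y r₂`.
-/

namespace Pool.Agent.Lib.MP_93e743_co

open Finset

set_option linter.unusedSectionVars false

variable {ι X : Type*} [Fintype ι] [Fintype X] [DecidableEq ι] [DecidableEq X]

lemma fa_pred_nonneg (j : ℤ) : 0 ≤ j * (j - 1) := by
  rcases le_or_gt j 0 with h | h
  · nlinarith
  · exact mul_nonneg h.le (by linarith)

/-- `K7` in terms of `ρ₁ = r₁ / p` and `ρ₂ = r₂ / p`. -/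
lemma fa_ineq {x y g p ρ1 ρ2 a b : ℤ} (hs : 0 < x + y) (hp : 0 < p)
    (h1 : g * x + 1 = p * ρ1) (h2 : g * y + 1 = p * ρ2) (hρ1 : 0 < ρ1) (hρ2 : 0 < ρ2)
    (hK : 0 ≤ ((x + y) ^ 2 * (p * a) - x * y * (g * (x + y) + 2)) *
      ((x + y) ^ 2 * (p * b) - x * y * (g * (x + y) + 2)) +
      x * y * (x - y) ^ 2 * (g * (x + y) + 1)) :
    (p * ρ1 - 1) * (p * ρ2 - 1) * ((ρ1 * ρ2 - a * (ρ1 + ρ2)) * (b * (ρ1 + ρ2) - ρ1 * ρ2)) ≤
      a * b * (ρ1 - ρ2) ^ 2 * (p * (ρ1 + ρ2) - 1) := by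
  have hx' : g * x = p * ρ1 - 1 := by linarith
  have hy' : g * y = p * ρ2 - 1 := by linarith
  set Z : ℤ := x * y * ((g * x + 1) * (g * y + 1)) - x * y * (g * (x + y) + 2) * (p * a + p * b) +
    (p * a) * (p * b) * (x + y) ^ 2 with hZ
  have e1 : ((x + y) ^ 2 * (p * a) - x * y * (g * (x + y) + 2)) *
      ((x + y) ^ 2 * (p * b) - x * y * (g * (x + y) + 2)) +
      x * y * (x - y) ^ 2 * (g * (x + y) + 1) = (x + y) ^ 2 * Z := by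
    rw [hZ]; ring
  rw [e1] at hK
  have hZ0 : 0 ≤ Z := nonneg_of_mul_nonneg_right hK (by positivity)
  set W : ℤ := (p * ρ1 - 1) * (p * ρ2 - 1) * (ρ1 * ρ2) -
    (p * ρ1 - 1) * (p * ρ2 - 1) * (ρ1 + ρ2) * (a + b) + a * b * (p * (ρ1 + ρ2) - 2) ^ 2 with hW
  have e2 : g ^ 2 * Z = p ^ 2 * W := by
    have e3 : g ^ 2 * Z = (g * x) * (g * y) * (((g * x) + 1) * ((g * y) + 1)) -
        (g * x) * (g * y) * ((g * x) + (g * y) + 2) * (p * a + p * b) +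
        (p * a) * (p * b) * ((g * x) + (g * y)) ^ 2 := by
      rw [hZ]; ring
    rw [e3, hx', hy', hW]; ring
  have hW0 : 0 ≤ W := by
    have : 0 ≤ p ^ 2 * W := by rw [← e2]; exact mul_nonneg (sq_nonneg g) hZ0
    exact nonneg_of_mul_nonneg_right this (by positivity)
  have e4 : ρ1 * ρ2 * W = a * b * (ρ1 - ρ2) ^ 2 * (p * (ρ1 + ρ2) - 1) -
      (p * ρ1 - 1) * (p * ρ2 - 1) * ((ρ1 * ρ2 - a * (ρ1 + ρ2)) * (b * (ρ1 + ρ2) - ρ1 * ρ2)) := by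
    rw [hW]; ring
  have : 0 ≤ ρ1 * ρ2 * W := by positivity
  linarith

/-- The inequality is an equality. -/
lemma fa_eq {p ρ1 ρ2 q m a C : ℤ} (hp2 : 2 ≤ p) (hρ2 : 1 ≤ ρ2) (hlt : ρ2 < ρ1) (hC : ρ2 ≤ C)
    (hσ : ρ1 + ρ2 ≤ 3 * ρ2 ^ 2) (hm1 : 1 ≤ m) (hmq : m < q)
    (hlow : a * (ρ1 + ρ2) ≤ ρ1 * ρ2) (hup : ρ1 * ρ2 < (a + m) * (ρ1 + ρ2))
    (hp : 36 * (C + q) * C ^ 4 < p)
    (hI : (p * ρ1 - 1) * (p * ρ2 - 1) *
      ((ρ1 * ρ2 - a * (ρ1 + ρ2)) * ((a + m) * (ρ1 + ρ2) - ρ1 * ρ2)) ≤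
      a * (a + m) * (ρ1 - ρ2) ^ 2 * (p * (ρ1 + ρ2) - 1)) :
    ρ1 * ρ2 = a * (ρ1 + ρ2) := by
  by_contra hne
  have hρ1 : 1 ≤ ρ1 := by linarith
  have h1 : 1 ≤ ρ1 * ρ2 - a * (ρ1 + ρ2) := by
    have : a * (ρ1 + ρ2) < ρ1 * ρ2 := lt_of_le_of_ne hlow (fun h => hne h.symm)
    linarith
  have h2 : 1 ≤ (a + m) * (ρ1 + ρ2) - ρ1 * ρ2 := by linarith
  have h3 : 1 ≤ (ρ1 * ρ2 - a * (ρ1 + ρ2)) * ((a + m) * (ρ1 + ρ2) - ρ1 * ρ2) := by nlinarith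
  have hu1 : p * ρ1 ≤ 2 * (p * ρ1 - 1) := by nlinarith
  have hu2 : p * ρ2 ≤ 2 * (p * ρ2 - 1) := by nlinarith
  have hu1' : 0 < p * ρ1 - 1 := by nlinarith
  have hu2' : 0 < p * ρ2 - 1 := by nlinarith
  have hU : 0 < (p * ρ1 - 1) * (p * ρ2 - 1) := mul_pos hu1' hu2'
  have h4 : (p * ρ1 - 1) * (p * ρ2 - 1) ≤ a * (a + m) * (ρ1 - ρ2) ^ 2 * (p * (ρ1 + ρ2) - 1) := by
    refine le_trans ?_ hI
    nlinarith
  have hσ0 : 0 < ρ1 + ρ2 := by linarith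
  have hπ0 : 0 < ρ1 * ρ2 := by positivity
  have hb : 0 < a + m := by
    by_contra hcon
    rw [not_lt] at hcon
    have : (a + m) * (ρ1 + ρ2) ≤ 0 := mul_nonpos_of_nonpos_of_nonneg hcon hσ0.le
    linarith
  have hps : 0 < p * (ρ1 + ρ2) - 1 := by nlinarith
  rcases le_or_gt a 0 with ha | ha
  · have h5 : a * (a + m) ≤ 0 := mul_nonpos_of_nonpos_of_nonneg ha hb.le
    have h6 : a * (a + m) * (ρ1 - ρ2) ^ 2 ≤ 0 :=
      mul_nonpos_of_nonpos_of_nonneg h5 (sq_nonneg _)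
    have h7 : a * (a + m) * (ρ1 - ρ2) ^ 2 * (p * (ρ1 + ρ2) - 1) ≤ 0 :=
      mul_nonpos_of_nonpos_of_nonneg h6 hps.le
    linarith
  · have h5 : a ≤ ρ2 := by
      by_contra hcon
      rw [not_le] at hcon
      have : (ρ1 + ρ2) * ρ2 < (ρ1 + ρ2) * a := mul_lt_mul_of_pos_left hcon hσ0
      nlinarith
    have h6 : a * (a + m) ≤ ρ2 * (ρ2 + q) := mul_le_mul h5 (by linarith) hb.le (by linarith)
    have h7 : (ρ1 - ρ2) ^ 2 ≤ ρ1 ^ 2 := pow_le_pow_left₀ (by linarith) (by linarith) 2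
    have h8 : a * (a + m) * (ρ1 - ρ2) ^ 2 ≤ ρ2 * (ρ2 + q) * ρ1 ^ 2 :=
      mul_le_mul h6 h7 (sq_nonneg _) (mul_nonneg (by linarith) (by linarith))
    have hq0 : 0 < q := by linarith
    have h9 : a * (a + m) * (ρ1 - ρ2) ^ 2 * (p * (ρ1 + ρ2) - 1) ≤
        ρ2 * (ρ2 + q) * ρ1 ^ 2 * (p * (ρ1 + ρ2)) :=
      mul_le_mul h8 (by linarith) hps.le (by positivity)
    have h10 : (p * ρ1) * (p * ρ2) ≤ (2 * (p * ρ1 - 1)) * (2 * (p * ρ2 - 1)) :=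
      mul_le_mul hu1 hu2 (by positivity) (by linarith)
    have h11 : (p * ρ1) * (p * ρ2) ≤ 4 * (ρ2 * (ρ2 + q) * ρ1 ^ 2 * (p * (ρ1 + ρ2))) := by
      calc (p * ρ1) * (p * ρ2) ≤ (2 * (p * ρ1 - 1)) * (2 * (p * ρ2 - 1)) := h10
        _ = 4 * ((p * ρ1 - 1) * (p * ρ2 - 1)) := by ring
        _ ≤ 4 * (ρ2 * (ρ2 + q) * ρ1 ^ 2 * (p * (ρ1 + ρ2))) := by linarith
    have h12 : (p * ρ1 * ρ2) * p ≤ (p * ρ1 * ρ2) * (4 * (ρ2 + q) * ρ1 * (ρ1 + ρ2)) := by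
      calc (p * ρ1 * ρ2) * p = (p * ρ1) * (p * ρ2) := by ring
        _ ≤ _ := h11
        _ = _ := by ring
    have h13 : p ≤ 4 * (ρ2 + q) * ρ1 * (ρ1 + ρ2) := le_of_mul_le_mul_left h12 (by positivity)
    have h14 : ρ1 * (ρ1 + ρ2) ≤ (3 * C ^ 2) * (3 * C ^ 2) := by
      have h15 : ρ2 ^ 2 ≤ C ^ 2 := pow_le_pow_left₀ (by linarith) hC 2
      exact mul_le_mul (by linarith) (by linarith) hσ0.le (by positivity)
    have h16 : 4 * (ρ2 + q) * ρ1 * (ρ1 + ρ2) ≤ 36 * (C + q) * C ^ 4 := by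
      calc 4 * (ρ2 + q) * ρ1 * (ρ1 + ρ2) = (4 * (ρ2 + q)) * (ρ1 * (ρ1 + ρ2)) := by ring
        _ ≤ (4 * (C + q)) * ((3 * C ^ 2) * (3 * C ^ 2)) :=
          mul_le_mul (by linarith) h14 (by positivity) (by linarith)
        _ = 36 * (C + q) * C ^ 4 := by ring
    linarith

/-- The arithmetic of the equality. -/
lemma fa_nt {ρ1 ρ2 g m p y : ℕ} {a : ℤ} (h : (ρ1 : ℤ) * ρ2 = a * (ρ1 + ρ2))
    (hρ : ρ1 = ρ2 + g * m) (h2 : g * y + 1 = p * ρ2) (_hg : 0 < g) (hm : 0 < m) : g + 2 ≤ m := by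
  have hρ2 : 0 < ρ2 := by
    rcases Nat.eq_zero_or_pos ρ2 with h0 | h0
    · rw [h0] at h2; omega
    · exact h0
  set e := Nat.gcd ρ1 ρ2 with he
  have he0 : 0 < e := Nat.gcd_pos_of_pos_right _ hρ2
  obtain ⟨A', hA'⟩ : e ∣ ρ1 := Nat.gcd_dvd_left _ _
  obtain ⟨B', hB'⟩ : e ∣ ρ2 := Nat.gcd_dvd_right _ _
  have hcop : Nat.Coprime A' B' := by
    have h3 : Nat.Coprime (ρ1 / e) (ρ2 / e) := Nat.coprime_div_gcd_div_gcd he0
    rwa [hA', hB', Nat.mul_div_cancel_left _ he0, Nat.mul_div_cancel_left _ he0] at h3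
  have heZ : (e : ℤ) ≠ 0 := by exact_mod_cast he0.ne'
  have h3 : (e : ℤ) * (A' * B') = a * (A' + B') := by
    have h4 : (e : ℤ) * (e * (A' * B')) = e * (a * (A' + B')) := by
      have hA'' : (ρ1 : ℤ) = e * A' := by exact_mod_cast hA'
      have hB'' : (ρ2 : ℤ) = e * B' := by exact_mod_cast hB'
      rw [hA'', hB''] at h
      linear_combination h
    exact mul_left_cancel₀ heZ h4
  have h5 : (A' + B') ∣ e * (A' * B') := by
    have h6 : ((A' : ℤ) + B') ∣ e * (A' * B') := ⟨a, by rw [h3]; ring⟩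
    exact_mod_cast h6
  have h7 : Nat.Coprime (A' + B') (A' * B') := by
    refine Nat.Coprime.mul_right ?_ ?_
    · rw [Nat.coprime_comm]; simpa using hcop
    · simpa using hcop
  have h8 : (A' + B') ∣ e := h7.dvd_of_dvd_mul_right h5
  have h9 : e ∣ g * m := by
    have h10 : e ∣ ρ2 + g * m := by rw [← hρ]; exact ⟨A', hA'⟩
    exact (Nat.dvd_add_right ⟨B', hB'⟩).mp h10
  have h11 : Nat.Coprime e g := by
    have h12 : Nat.Coprime (g * y + 1) g := by simp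
    exact h12.coprime_dvd_left (by rw [h2]; exact Dvd.dvd.mul_left ⟨B', hB'⟩ p)
  have h13 : e ∣ m := h11.dvd_of_dvd_mul_left h9
  have h14 : e ≤ m := Nat.le_of_dvd hm h13
  have h15 : A' + B' ≤ e := Nat.le_of_dvd he0 h8
  have hB0 : 1 ≤ B' := by
    rcases Nat.eq_zero_or_pos B' with h0 | h0
    · rw [h0] at hB'; omega
    · exact h0
  have h16 : g * m + B' * e = A' * e := by
    have : ρ1 = ρ2 + g * m := hρ
    rw [hA', hB'] at this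
    linarith [mul_comm e A', mul_comm e B']
  have h17 : g + B' ≤ A' := by
    by_contra hcon
    rw [not_le] at hcon
    have h18 : A' * e < (g + B') * e := Nat.mul_lt_mul_of_pos_right hcon he0
    have h19 : g * e ≤ g * m := Nat.mul_le_mul_left g h14
    nlinarith
  omega

namespace CtxA

variable {A : ι → Finset X} {n : ι → ℕ} {x y g : ℕ} {i0 : ι} {q p m : ℕ} {l : ℤ}
  {t : X → X → ℤ}

/-- Row FA. -/
theorem falseA (c : CtxA A n x y g i0 q p m l t) (C2 : ℕ) (hr : g * y + 1 ≤ C2 * p)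
    (hA : p * (x + y) ≤ 3 * (y * (g * y + 1))) (hp : 36 * (C2 + q) * C2 ^ 4 < p) : False := by
  obtain ⟨ρ1, hρ1⟩ := c.dvd_r1
  obtain ⟨ρ2, hρ2⟩ := c.dvd_r2
  have hp0 : 0 < p := c.hp.pos
  have hp2 : 2 ≤ p := c.hp.two_le
  have hg : 0 < g := c.sys.hg
  have hx := c.hx
  have hm1 := c.hm1
  have hmq := c.hmq
  have hρ : ρ1 = ρ2 + g * m := by
    have h1 : p * ρ1 = p * (ρ2 + g * m) := by
      rw [← hρ1, mul_add, ← hρ2, hx]; ring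
    exact Nat.eq_of_mul_eq_mul_left hp0 h1
  have hρ20 : 1 ≤ ρ2 := by
    rcases Nat.eq_zero_or_pos ρ2 with h0 | h0
    · rw [h0] at hρ2; omega
    · exact h0
  have hgm : 1 ≤ g * m := Nat.mul_pos hg hm1
  have hlt : ρ2 < ρ1 := by omega
  have hC : ρ2 ≤ C2 := by
    rw [hρ2, mul_comm C2 p] at hr
    exact Nat.le_of_mul_le_mul_left hr hp0
  have hs : x + y ≤ 3 * (y * ρ2) := by
    rw [hρ2] at hA
    have e : 3 * (y * (p * ρ2)) = p * (3 * (y * ρ2)) := by ring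
    rw [e] at hA
    exact Nat.le_of_mul_le_mul_left hA hp0
  have hσ : (ρ1 : ℤ) + ρ2 ≤ 3 * (ρ2 : ℤ) ^ 2 := by
    have h1 : (g : ℤ) * x + 1 = p * ρ1 := by exact_mod_cast hρ1
    have h2 : (g : ℤ) * y + 1 = p * ρ2 := by exact_mod_cast hρ2
    have h3 : (x : ℤ) + y ≤ 3 * (y * ρ2) := by exact_mod_cast hs
    have hgZ : (0 : ℤ) < g := by exact_mod_cast hg
    have h4 : (g : ℤ) * (x + y) ≤ g * (3 * (y * ρ2)) := mul_le_mul_of_nonneg_left h3 hgZ.le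
    have h5 : (p : ℤ) * (ρ1 + ρ2) ≤ 3 * (p * ρ2 - 1) * ρ2 + 2 := by
      calc (p : ℤ) * (ρ1 + ρ2) = g * (x + y) + 2 := by rw [mul_add, ← h1, ← h2]; ring
        _ ≤ g * (3 * (y * ρ2)) + 2 := by linarith
        _ = 3 * (g * y) * ρ2 + 2 := by ring
        _ = 3 * (p * ρ2 - 1) * ρ2 + 2 := by rw [← h2]; ring
    have h6 : (1 : ℤ) ≤ ρ2 := by exact_mod_cast hρ20
    have h7 : (p : ℤ) * (ρ1 + ρ2) ≤ p * (3 * (ρ2 : ℤ) ^ 2) := by nlinarith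
    exact le_of_mul_le_mul_left h7 (by exact_mod_cast hp0)
  -- the integer `a`
  set R1 : ℤ := (ρ1 : ℤ) with hR1
  set R2 : ℤ := (ρ2 : ℤ) with hR2
  have hR20 : (1 : ℤ) ≤ R2 := by rw [hR2]; exact_mod_cast hρ20
  have hRlt : R2 < R1 := by rw [hR1, hR2]; exact_mod_cast hlt
  have hσ0 : 0 < R1 + R2 := by linarith
  have hm1Z : (1 : ℤ) ≤ m := by exact_mod_cast hm1
  have hmσ : 0 < (m : ℤ) * (R1 + R2) := by positivity
  set k : ℤ := (R1 * R2 - q * (R1 + R2)) / (m * (R1 + R2)) with hk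
  set a : ℤ := q + m * k with ha
  have hlow : a * (R1 + R2) ≤ R1 * R2 := by
    have h1 : k * (m * (R1 + R2)) ≤ R1 * R2 - q * (R1 + R2) := Int.ediv_mul_le _ hmσ.ne'
    rw [ha]
    linarith [mul_comm k ((m : ℤ) * (R1 + R2)),
      (by ring : (q + m * k) * (R1 + R2) = q * (R1 + R2) + k * (m * (R1 + R2)))]
  have hup : R1 * R2 < (a + m) * (R1 + R2) := by
    have h1 : R1 * R2 - q * (R1 + R2) < (k + 1) * (m * (R1 + R2)) :=
      Int.lt_ediv_add_one_mul_self _ hmσ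
    rw [ha]
    linarith [(by ring : (q + m * k + m) * (R1 + R2) =
      q * (R1 + R2) + (k + 1) * (m * (R1 + R2)))]
  have hK := c.sys.K7 (p * a) (p * (a + m)) (by
    intro i
    obtain ⟨j, hj⟩ := c.cong i
    have e : ((n i : ℤ) - p * a) * ((n i : ℤ) - p * (a + m)) =
        (m * p) ^ 2 * ((j - k) * ((j - k) - 1)) := by
      have hn : (n i : ℤ) = q * p + m * p * j := by linarith
      rw [hn, ha]; ring
    rw [e]
    exact mul_nonneg (sq_nonneg _) (fa_pred_nonneg _))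
  have h1 : (g : ℤ) * x + 1 = p * R1 := by rw [hR1]; exact_mod_cast hρ1
  have h2 : (g : ℤ) * y + 1 = p * R2 := by rw [hR2]; exact_mod_cast hρ2
  have hsZ : (0 : ℤ) < (x : ℤ) + y := by
    have := c.sys.hy
    have : (0 : ℤ) < y := by exact_mod_cast this
    positivity
  have hpZ : (0 : ℤ) < p := by exact_mod_cast hp0
  have hI := fa_ineq hsZ hpZ h1 h2 (by linarith) (by linarith) hK
  have heq := fa_eq (p := (p : ℤ)) (q := (q : ℤ)) (m := (m : ℤ)) (C := (C2 : ℤ))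
    (by exact_mod_cast hp2) hR20 hRlt (by rw [hR2]; exact_mod_cast hC) hσ hm1Z
    (by exact_mod_cast hmq) hlow hup (by exact_mod_cast hp) hI
  have hfin := fa_nt heq hρ hρ2 hg hm1
  have hone := c.one
  have h3 : (g + 2) * p ≤ m * p := Nat.mul_le_mul_right p hfin
  omega

end CtxA

end Pool.Agent.Lib.MP_93e743_co
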