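import Pool.Agent.Lib.MP_93e743_qp.Gram

/-!
Row F1: the finite sums of part II, small case.
-/

namespace Pool.Agent.Lib.MP_93e743_co

open Finset

set_option linter.unusedSectionVars false

variable {ι X : Type*} [Fintype ι] [Fintype X] [DecidableEq ι] [DecidableEq X]

/-- The number of points is small if all the terms of a sum of squares are large. -/
private theorem card_le_aux {X : Type*} (S : Finset X) (F : X → ℤ) (a b c : ℤ)
    (hF : ∀ P ∈ S, a ≤ b * F P ^ 2) (hb : 0 ≤ b) (hS : ∑ P ∈ S, F P ^ 2 ≤ c) :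
    (S.card : ℤ) * a ≤ b * c := by
  have h1 : ∑ _P ∈ S, a ≤ ∑ P ∈ S, b * F P ^ 2 := Finset.sum_le_sum hF
  rw [Finset.sum_const, nsmul_eq_mul, ← Finset.mul_sum] at h1
  exact h1.trans (mul_le_mul_of_nonneg_left hS hb)

private theorem sq_half {s a b : ℤ} (hs : 0 < s) (ha : a ≠ 0) (hb : 2 * |b| < s) :
    s ^ 2 ≤ 4 * (s * a + b) ^ 2 := by
  have h1 : 1 ≤ |a| := Int.one_le_abs ha
  have h2 : s ≤ |s * a| := by
    rw [abs_mul, abs_of_pos hs]
    nlinarith
  have h3 : |s * a| - |b| ≤ |s * a + b| := by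
    have := abs_sub_abs_le_abs_sub (s * a) (-b)
    rwa [abs_neg, sub_neg_eq_add] at this
  have h4 : s ≤ 2 * |s * a + b| := by linarith
  have h5 : s ^ 2 ≤ (2 * |s * a + b|) ^ 2 := by
    apply pow_le_pow_left₀ hs.le h4
  calc s ^ 2 ≤ (2 * |s * a + b|) ^ 2 := h5
    _ = 4 * (s * a + b) ^ 2 := by rw [mul_pow, sq_abs]; ring

/-- Row F1. -/
theorem fin_small (s x y q l q0 g : ℤ) (N1 : X → ℤ) (M : X → X → ℤ) (hs : s = x + y) (hyx : y < x)
    (hq : Prime q) (hq3 : 3 ≤ q) (hy : q < y) (hl0 : 0 < l) (hl1 : l < q)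
    (hv : (Fintype.card X : ℤ) = g * s + 1) (hbig : 30 * q ^ 5 ≤ g * s)
    (hK : |s * l - q * x| ≤ 4 * q ^ 2) (hJ : q * s - q + 2 ≤ g * |s * l - q * x|)
    (hx : x ≤ q * y + 4 * q ^ 2) (hq0 : 0 < q0)
    (h1 : ∑ P, (s * N1 P - x * q0) ^ 2 = s ^ 2 * q * q0 - x * y * q0 ^ 2)
    (h2 : ∀ P, 4 * ∑ Q ∈ univ.erase P,
      (s ^ 2 * M P Q - s * x * (N1 P + N1 Q) + x ^ 2 * q0) ^ 2 ≤ s ^ 4 * q ^ 2)
    (hc : 2 * |s * l - q * x| * q0 < s) : False := by
  classical
  have hq0' : 0 < q := by linarith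
  have hy0 : 0 < y := by linarith
  have hx0 : 0 < x := by linarith
  have hs0 : 0 < s := by linarith
  have hxy0 : 0 < x * y := mul_pos hx0 hy0
  have hs2 : 0 < s ^ 2 := by positivity
  set K : ℤ := s * l - q * x with hKdef
  have hKq : 2 * |K * q0| < s := by
    rw [abs_mul, abs_of_pos hq0]
    linarith
  -- bound for q0
  have hb1 : s ^ 2 ≤ (5 * q + 3) * (x * y) := by
    have e1 : y * y ≤ x * y := by nlinarith
    have e2 : x * x ≤ x * (q * y + 4 * q ^ 2) := by nlinarith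
    have e3 : q * q ≤ q * y := by nlinarith
    have e4 : x * (q * q) ≤ x * (q * y) := mul_le_mul_of_nonneg_left e3 hx0.le
    rw [hs]
    nlinarith
  have hb2 : x * y * q0 ≤ s ^ 2 * q := by
    have e1 : 0 ≤ ∑ P, (s * N1 P - x * q0) ^ 2 := Finset.sum_nonneg fun P _ => sq_nonneg _
    rw [h1] at e1
    have e2 : (x * y * q0) * q0 ≤ (s ^ 2 * q) * q0 := by nlinarith
    exact le_of_mul_le_mul_right e2 hq0
  have hb3 : q0 ≤ 6 * q ^ 2 := by
    have e1 : (x * y) * q0 ≤ (x * y) * ((5 * q + 3) * q) := by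
      have : s ^ 2 * q ≤ (5 * q + 3) * (x * y) * q := mul_le_mul_of_nonneg_right hb1 hq0'.le
      linarith
    have e2 : q0 ≤ (5 * q + 3) * q := le_of_mul_le_mul_left e1 hxy0
    nlinarith
  have hsum : ∑ P, (s * N1 P - x * q0) ^ 2 ≤ s ^ 2 * q * q0 := by
    rw [h1]
    have : 0 ≤ x * y * q0 ^ 2 := by positivity
    linarith
  have hid : ∀ P, q * (s * N1 P - x * q0) = s * (q * N1 P - l * q0) + K * q0 := by
    intro P
    rw [hKdef]
    ring
  -- points with a nonzero value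
  have hbad : ∀ P, q * N1 P - l * q0 ≠ 0 → s ^ 2 ≤ 4 * q ^ 2 * (s * N1 P - x * q0) ^ 2 := by
    intro P hP
    have e1 := sq_half hs0 hP hKq
    rw [← hid P] at e1
    linarith [e1, mul_pow q (s * N1 P - x * q0) 2]
  have hbadc : ∀ S : Finset X, (∀ P ∈ S, q * N1 P - l * q0 ≠ 0) → (S.card : ℤ) ≤ 24 * q ^ 5 := by
    intro S hS
    have e1 : ∑ P ∈ S, (s * N1 P - x * q0) ^ 2 ≤ s ^ 2 * q * q0 :=
      (Finset.sum_le_univ_sum_of_nonneg fun P => sq_nonneg _).trans hsum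
    have e2 := card_le_aux S (fun P => s * N1 P - x * q0) (s ^ 2) (4 * q ^ 2) (s ^ 2 * q * q0)
      (fun P hP => hbad P (hS P hP)) (by positivity) e1
    have e3 : (S.card : ℤ) * s ^ 2 ≤ (4 * q ^ 3 * q0) * s ^ 2 := by linarith
    have e4 : (S.card : ℤ) ≤ 4 * q ^ 3 * q0 := le_of_mul_le_mul_right e3 hs2
    have e5 : 4 * q ^ 3 * q0 ≤ 4 * q ^ 3 * (6 * q ^ 2) :=
      mul_le_mul_of_nonneg_left hb3 (by positivity)
    linarith [e4, e5, show 4 * q ^ 3 * (6 * q ^ 2) = 24 * q ^ 5 by ring]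
  have hq5 : 0 < q ^ 5 := by positivity
  by_cases hd : q ∣ q0
  swap
  · -- case 1
    have e1 := hbadc univ (fun P _ h0 => by
      have e2 : q ∣ l * q0 := ⟨N1 P, by linarith⟩
      rcases hq.dvd_or_dvd e2 with h | h
      · exact absurd (Int.le_of_dvd hl0 h) (by linarith)
      · exact hd h)
    rw [Finset.card_univ] at e1
    linarith
  obtain ⟨q1, rfl⟩ := hd
  have hq1 : 0 < q1 := (mul_pos_iff_of_pos_left hq0').mp hq0
  set S : Finset X := univ.filter fun P => N1 P = l * q1 with hSdef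
  have hSc : g * s + 1 - 24 * q ^ 5 ≤ S.card := by
    have e1 := hbadc (univ.filter fun P => ¬ N1 P = l * q1) (fun P hP h0 => by
      apply (Finset.mem_filter.mp hP).2
      have e3 : q * (N1 P - l * q1) = 0 := by linarith
      rcases mul_eq_zero.mp e3 with h | h
      · exact absurd h hq0'.ne'
      · linarith)
    have e2 := Finset.card_filter_add_card_filter_not (s := (univ : Finset X))
      (fun P => N1 P = l * q1)
    rw [Finset.card_univ] at e2
    have e3 : (S.card : ℤ) + ((univ.filter fun P => ¬ N1 P = l * q1).card : ℤ) =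
        Fintype.card X := by exact_mod_cast e2
    rw [hv] at e3
    linarith
  by_cases hd : q ∣ q1
  swap
  · -- case 2a
    have hne : S.Nonempty := by
      rw [← Finset.card_pos]
      have : (0 : ℤ) < S.card := by linarith
      exact_mod_cast this
    obtain ⟨P, hP⟩ := hne
    have hNP : N1 P = l * q1 := (Finset.mem_filter.mp hP).2
    have hK2 : 4 * (q1 * K ^ 2) ≤ s ^ 2 := by
      have e1 : |K * (q * q1)| ≤ s := by linarith [abs_nonneg (K * (q * q1))]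
      have e2 : (2 * |K * (q * q1)|) ^ 2 ≤ s ^ 2 :=
        pow_le_pow_left₀ (by positivity) hKq.le 2
      have e3 : (2 * |K * (q * q1)|) ^ 2 = 4 * (K ^ 2 * (q ^ 2 * q1 ^ 2)) := by
        rw [mul_pow, sq_abs]; ring
      rw [e3] at e2
      have e4 : q1 ≤ q ^ 2 * q1 ^ 2 := by
        have a1 : 1 ≤ q ^ 2 := by nlinarith
        have a2 : q1 ≤ q1 ^ 2 := by nlinarith
        have a3 : q1 ^ 2 ≤ q ^ 2 * q1 ^ 2 := by nlinarith [sq_nonneg q1]
        linarith
      have e5 : K ^ 2 * q1 ≤ K ^ 2 * (q ^ 2 * q1 ^ 2) := mul_le_mul_of_nonneg_left e4 (sq_nonneg K)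
      linarith
    have hE : ∀ Q ∈ S.erase P, 9 * s ^ 4 ≤ 16 * q ^ 2 *
        (s ^ 2 * M P Q - s * x * (N1 P + N1 Q) + x ^ 2 * (q * q1)) ^ 2 := by
      intro Q hQ
      have hNQ : N1 Q = l * q1 := (Finset.mem_filter.mp (Finset.mem_of_mem_erase hQ)).2
      have e1 : q * (s ^ 2 * M P Q - s * x * (N1 P + N1 Q) + x ^ 2 * (q * q1)) =
          s ^ 2 * (q * M P Q - q1 * l ^ 2) + q1 * K ^ 2 := by
        rw [hNP, hNQ, hKdef]
        ring
      have e2 : q * M P Q - q1 * l ^ 2 ≠ 0 := by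
        intro h0
        have e3 : q ∣ q1 * l ^ 2 := ⟨M P Q, by linarith⟩
        rcases hq.dvd_or_dvd e3 with h | h
        · exact hd h
        · exact absurd (Int.le_of_dvd hl0 (hq.dvd_of_dvd_pow h)) (by linarith)
      have e4 : 3 * s ^ 2 ≤ 4 * |s ^ 2 * (q * M P Q - q1 * l ^ 2) + q1 * K ^ 2| := by
        have a1 : 1 ≤ |q * M P Q - q1 * l ^ 2| := Int.one_le_abs e2
        have a2 : s ^ 2 ≤ |s ^ 2 * (q * M P Q - q1 * l ^ 2)| := by
          rw [abs_mul, abs_of_pos hs2]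
          nlinarith
        have a3 : |s ^ 2 * (q * M P Q - q1 * l ^ 2)| - |q1 * K ^ 2| ≤
            |s ^ 2 * (q * M P Q - q1 * l ^ 2) + q1 * K ^ 2| := by
          have := abs_sub_abs_le_abs_sub (s ^ 2 * (q * M P Q - q1 * l ^ 2)) (-(q1 * K ^ 2))
          rwa [abs_neg, sub_neg_eq_add] at this
        have a4 : |q1 * K ^ 2| = q1 * K ^ 2 := abs_of_nonneg (by positivity)
        rw [a4] at a3
        linarith
      rw [← e1] at e4
      have e5 : (3 * s ^ 2) ^ 2 ≤ (4 * |q * (s ^ 2 * M P Q - s * x * (N1 P + N1 Q) +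
          x ^ 2 * (q * q1))|) ^ 2 := pow_le_pow_left₀ (by positivity) e4 2
      rw [mul_pow 4, sq_abs] at e5
      linarith [e5, mul_pow q (s ^ 2 * M P Q - s * x * (N1 P + N1 Q) + x ^ 2 * (q * q1)) 2,
        show (3 * s ^ 2) ^ 2 = 9 * s ^ 4 by ring]
    have e1 : 4 * ∑ Q ∈ S.erase P,
        (s ^ 2 * M P Q - s * x * (N1 P + N1 Q) + x ^ 2 * (q * q1)) ^ 2 ≤ s ^ 4 * q ^ 2 := by
      refine le_trans ?_ (h2 P)
      refine mul_le_mul_of_nonneg_left ?_ (by norm_num)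
      exact Finset.sum_le_sum_of_subset_of_nonneg (Finset.erase_subset_erase P (Finset.subset_univ S))
        fun Q _ _ => sq_nonneg _
    have e2 := card_le_aux (S.erase P)
      (fun Q => s ^ 2 * M P Q - s * x * (N1 P + N1 Q) + x ^ 2 * (q * q1)) (9 * s ^ 4) (16 * q ^ 2)
      (∑ Q ∈ S.erase P, (s ^ 2 * M P Q - s * x * (N1 P + N1 Q) + x ^ 2 * (q * q1)) ^ 2)
      hE (by positivity) le_rfl
    have e3 : ((S.erase P).card : ℤ) * (9 * s ^ 4) ≤ 4 * q ^ 2 * (s ^ 4 * q ^ 2) := by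
      have a1 : (4 * q ^ 2) * (4 * ∑ Q ∈ S.erase P,
        (s ^ 2 * M P Q - s * x * (N1 P + N1 Q) + x ^ 2 * (q * q1)) ^ 2) ≤
          (4 * q ^ 2) * (s ^ 4 * q ^ 2) := mul_le_mul_of_nonneg_left e1 (by positivity)
      linarith
    have hs4 : 0 < s ^ 4 := by positivity
    have e4 : (9 * ((S.erase P).card : ℤ)) * s ^ 4 ≤ (4 * q ^ 4) * s ^ 4 := by linarith
    have e5 : 9 * ((S.erase P).card : ℤ) ≤ 4 * q ^ 4 := le_of_mul_le_mul_right e4 hs4
    have e6 : ((S.erase P).card : ℤ) = S.card - 1 := by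
      rw [Finset.card_erase_of_mem hP, Nat.cast_sub (Finset.card_pos.mpr ⟨P, hP⟩)]
      simp
    have e7 : 3 * q ^ 4 ≤ q ^ 5 := by
      have : 0 < q ^ 4 := by positivity
      nlinarith
    have e8 : 0 < q ^ 4 := by positivity
    rw [e6] at e5
    linarith
  -- case 2b
  obtain ⟨q2, rfl⟩ := hd
  have hq2 : 0 < q2 := (mul_pos_iff_of_pos_left hq0').mp hq1
  set q0 : ℤ := q * (q * q2) with hq0def
  have hq0q : q ^ 2 ≤ q0 := by
    rw [hq0def]
    nlinarith [mul_pos hq0' hq0']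
  have hall : ∀ P, (K * q0) ^ 2 ≤ q ^ 2 * (s * N1 P - x * q0) ^ 2 := by
    intro P
    have e1 : q ^ 2 * (s * N1 P - x * q0) ^ 2 = (s * (q * N1 P - l * q0) + K * q0) ^ 2 := by
      rw [← hid P]; ring
    rw [e1]
    by_cases h0 : q * N1 P - l * q0 = 0
    · rw [h0, mul_zero, zero_add]
    · have e2 := sq_half hs0 h0 hKq
      have e3 : (2 * |K * q0|) ^ 2 ≤ s ^ 2 := pow_le_pow_left₀ (by positivity) hKq.le 2
      rw [mul_pow, sq_abs] at e3
      linarith
  have e1 := card_le_aux univ (fun P => s * N1 P - x * q0) ((K * q0) ^ 2) (q ^ 2)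
    (s ^ 2 * q * q0 - x * y * q0 ^ 2) (fun P _ => hall P) (by positivity) h1.le
  rw [Finset.card_univ, hv] at e1
  have hgK : 0 < g * |K| := by
    have : 0 < q * s - q + 2 := by nlinarith
    linarith
  have hg : 0 < g := by
    by_contra h
    linarith [mul_nonpos_of_nonpos_of_nonneg (not_lt.mp h) (abs_nonneg K)]
  have hK0 : 1 ≤ |K| := by
    have : 0 < |K| := (mul_pos_iff_of_pos_left hg).mp hgK
    linarith [Int.add_one_le_iff.mpr this]
  have e2 : g * |K| ≤ g * K ^ 2 := by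
    have : |K| ≤ K ^ 2 := by
      rw [← sq_abs]
      nlinarith
    exact mul_le_mul_of_nonneg_left this hg.le
  have e3 : (g * s * K ^ 2 * q0 + q ^ 2 * (x * y * q0)) * q0 ≤ (q ^ 3 * s ^ 2) * q0 := by
    have : 0 ≤ (K * q0) ^ 2 := sq_nonneg _
    linarith [e1, show (g * s + 1) * (K * q0) ^ 2 = g * s * K ^ 2 * q0 * q0 + (K * q0) ^ 2 by ring,
      show q ^ 2 * (s ^ 2 * q * q0 - x * y * q0 ^ 2) =
        q ^ 3 * s ^ 2 * q0 - q ^ 2 * (x * y * q0) * q0 by ring]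
  have e4 : g * s * K ^ 2 * q0 + q ^ 2 * (x * y * q0) ≤ q ^ 3 * s ^ 2 :=
    le_of_mul_le_mul_right e3 hq0
  have e5 : (q * s - q + 2) * (s * q0) ≤ g * K ^ 2 * (s * q0) :=
    mul_le_mul_of_nonneg_right (hJ.trans e2) (by positivity)
  have e6 : ((q * s - q + 2) * s + q ^ 2 * (x * y)) * q0 ≤ q ^ 3 * s ^ 2 := by linarith
  have e7 : 0 < (q * s - q + 2) * s + q ^ 2 * (x * y) := by
    have : 0 < q * s - q + 2 := by nlinarith
    positivity
  have e8 : ((q * s - q + 2) * s + q ^ 2 * (x * y)) * q ^ 2 ≤ (q * s ^ 2) * q ^ 2 := by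
    have := mul_le_mul_of_nonneg_left hq0q e7.le
    linarith
  have e9 : (q * s - q + 2) * s + q ^ 2 * (x * y) ≤ q * s ^ 2 :=
    le_of_mul_le_mul_right e8 (by positivity)
  have e10 : q ^ 2 * (x * y) ≤ (q - 2) * s := by linarith
  have e11 : (q - 2) * s ≤ (q - 2) * (2 * x) := by
    apply mul_le_mul_of_nonneg_left _ (by linarith)
    linarith
  have e12 : (q ^ 2 * y) * x ≤ (2 * (q - 2)) * x := by linarith
  have e13 : q ^ 2 * y ≤ 2 * (q - 2) := le_of_mul_le_mul_right e12 hx0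
  nlinarith

end Pool.Agent.Lib.MP_93e743_co
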