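import Pool.Agent.Lib.MP_93e743_qp.Ctx

/-!
Sums over a subfamily of the sets.
-/

namespace Pool.Agent.Lib.MP_93e743_co

open Finset

set_option linter.unusedSectionVars false

variable {ι X : Type*} [Fintype ι] [Fintype X] [DecidableEq ι] [DecidableEq X]

/-- `∑ 1 / n i` over `Z`. -/
def M0 (n : ι → ℕ) (Z : Finset ι) : ℚ := ∑ i ∈ Z, (n i : ℚ)⁻¹

/-- `∑ 1 / n i` over the members of `Z` that contain `P`. -/
def M1 (A : ι → Finset X) (n : ι → ℕ) (Z : Finset ι) (P : X) : ℚ :=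
  ∑ i ∈ Z, chi A i P * (n i : ℚ)⁻¹

/-- `∑ 1 / n i` over the members of `Z` that contain `P` and `Q`. -/
def M2 (A : ι → Finset X) (n : ι → ℕ) (Z : Finset ι) (P Q : X) : ℚ :=
  ∑ i ∈ Z, chi A i P * chi A i Q * (n i : ℚ)⁻¹

/-- `M1 - α M0`. -/
def G1 (A : ι → Finset X) (n : ι → ℕ) (α : ℚ) (Z : Finset ι) (P : X) : ℚ :=
  M1 A n Z P - α * M0 n Z

/-- `M2 - α (M1 + M1) + α² M0`. -/
def G2 (A : ι → Finset X) (n : ι → ℕ) (α : ℚ) (Z : Finset ι) (P Q : X) : ℚ :=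
  M2 A n Z P Q - α * (M1 A n Z P + M1 A n Z Q) + α ^ 2 * M0 n Z

section

variable {A : ι → Finset X} {n : ι → ℕ} {α : ℚ}

lemma G1_eq (Z : Finset ι) (P : X) :
    G1 A n α Z P = ∑ i ∈ Z, (chi A i P - α) * (n i : ℚ)⁻¹ := by
  unfold G1 M1 M0
  rw [Finset.mul_sum, ← Finset.sum_sub_distrib]
  exact Finset.sum_congr rfl fun i _ => by ring

lemma G2_eq (Z : Finset ι) (P Q : X) :
    G2 A n α Z P Q = ∑ i ∈ Z, (chi A i P - α) * (chi A i Q - α) * (n i : ℚ)⁻¹ := by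
  unfold G2 M2 M1 M0
  rw [← Finset.sum_add_distrib, Finset.mul_sum, Finset.mul_sum, ← Finset.sum_sub_distrib,
    ← Finset.sum_add_distrib]
  exact Finset.sum_congr rfl fun i _ => by ring

lemma G2_comm (Z : Finset ι) (P Q : X) : G2 A n α Z P Q = G2 A n α Z Q P := by
  rw [G2_eq, G2_eq]
  exact Finset.sum_congr rfl fun i _ => by ring

lemma M2_self (Z : Finset ι) (P : X) : M2 A n Z P P = M1 A n Z P := by
  unfold M2 M1
  exact Finset.sum_congr rfl fun i _ => by rw [chi_mul_self]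

lemma M2_comm (Z : Finset ι) (P Q : X) : M2 A n Z P Q = M2 A n Z Q P := by
  unfold M2
  exact Finset.sum_congr rfl fun i _ => by ring

end

namespace Sys

variable {A : ι → Finset X} {n : ι → ℕ} {α : ℚ}

/-- The general relation: for weights `u`, `w`. -/
lemma gen (h : Sys A n α) (Z : Finset ι) (u w : ι → ℚ) :
    (∑ Q, (∑ i ∈ Z, u i * (chi A i Q - α)) * (∑ j, w j * (chi A j Q - α))) +
      α * (1 - α) * (∑ i ∈ Z, u i) * (∑ j, w j) = ∑ i ∈ Z, u i * w i * (n i : ℚ) := by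
  have h1 : ∀ Q, (∑ i ∈ Z, u i * (chi A i Q - α)) * (∑ j, w j * (chi A j Q - α)) =
      ∑ i ∈ Z, ∑ j, u i * w j * ((chi A i Q - α) * (chi A j Q - α)) := by
    intro Q
    rw [Finset.sum_mul_sum]
    exact Finset.sum_congr rfl fun i _ => Finset.sum_congr rfl fun j _ => by ring
  simp_rw [h1]
  rw [Finset.sum_comm, mul_assoc, Finset.sum_mul_sum, Finset.mul_sum, ← Finset.sum_add_distrib]
  refine Finset.sum_congr rfl fun i _ => ?_
  rw [Finset.sum_comm, Finset.mul_sum, ← Finset.sum_add_distrib]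
  have h2 : ∀ j, ∑ Q, u i * w j * ((chi A i Q - α) * (chi A j Q - α)) +
      α * (1 - α) * (u i * w j) = if i = j then u i * w j * (n i : ℚ) else 0 := by
    intro j
    rw [← Finset.mul_sum]
    have h3 := h.dual i j
    have h4 : u i * w j * (∑ Q, (chi A i Q - α) * (chi A j Q - α)) + α * (1 - α) * (u i * w j) =
        u i * w j * (α * (1 - α) + ∑ Q, (chi A i Q - α) * (chi A j Q - α)) := by ring
    rw [h4, h3]
    split <;> ring
  rw [Finset.sum_congr rfl fun j _ => h2 j, Finset.sum_ite_eq, if_pos (Finset.mem_univ _)]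

/-- Sums over `Z` with one summation variable in `Z`. -/
lemma genZ (h : Sys A n α) (Z W : Finset ι) (u w : ι → ℚ) :
    (∑ Q, (∑ i ∈ Z, u i * (chi A i Q - α)) * (∑ j ∈ W, w j * (chi A j Q - α))) +
      α * (1 - α) * (∑ i ∈ Z, u i) * (∑ j ∈ W, w j) =
        ∑ i ∈ Z, if i ∈ W then u i * w i * (n i : ℚ) else 0 := by
  have h1 := h.gen Z u (fun j => if j ∈ W then w j else 0)
  have e1 : ∀ Q, ∑ j, (if j ∈ W then w j else 0) * (chi A j Q - α) =
      ∑ j ∈ W, w j * (chi A j Q - α) := by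
    intro Q
    simp_rw [ite_mul, zero_mul]
    rw [Finset.sum_ite_mem, Finset.univ_inter]
  have e2 : ∑ j, (if j ∈ W then w j else 0) = ∑ j ∈ W, w j := by
    rw [Finset.sum_ite_mem, Finset.univ_inter]
  simp_rw [e1] at h1
  rw [e2] at h1
  rw [h1]
  refine Finset.sum_congr rfl fun i _ => ?_
  split <;> ring

theorem R0 (h : Sys A n α) (Z : Finset ι) :
    ∑ Q, G1 A n α Z Q ^ 2 + α * (1 - α) * M0 n Z ^ 2 = M0 n Z := by
  have h1 := h.genZ Z Z (fun i => (n i : ℚ)⁻¹) (fun i => (n i : ℚ)⁻¹)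
  have e1 : ∀ Q, ∑ i ∈ Z, (n i : ℚ)⁻¹ * (chi A i Q - α) = G1 A n α Z Q := by
    intro Q
    rw [G1_eq]
    exact Finset.sum_congr rfl fun i _ => by ring
  simp_rw [e1] at h1
  have e2 : (∑ i ∈ Z, if i ∈ Z then (n i : ℚ)⁻¹ * (n i : ℚ)⁻¹ * (n i : ℚ) else 0) = M0 n Z := by
    unfold M0
    refine Finset.sum_congr rfl fun i hi => ?_
    rw [if_pos hi, mul_assoc, inv_mul_cancel₀ (h.npos' i).ne', mul_one]
  rw [e2] at h1
  have e3 : ∑ i ∈ Z, (n i : ℚ)⁻¹ = M0 n Z := rfl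
  have e4 : ∑ Q, G1 A n α Z Q ^ 2 = ∑ Q, G1 A n α Z Q * G1 A n α Z Q :=
    Finset.sum_congr rfl fun Q _ => sq _
  rw [e3] at h1
  rw [e4]
  linear_combination h1

theorem RP (h : Sys A n α) (Z : Finset ι) (P : X) :
    ∑ Q, G2 A n α Z P Q ^ 2 + α * (1 - α) * G1 A n α Z P ^ 2 = G2 A n α Z P P := by
  have h1 := h.genZ Z Z (fun i => (chi A i P - α) * (n i : ℚ)⁻¹)
    (fun i => (chi A i P - α) * (n i : ℚ)⁻¹)
  have e1 : ∀ Q, ∑ i ∈ Z, (chi A i P - α) * (n i : ℚ)⁻¹ * (chi A i Q - α) =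
      G2 A n α Z P Q := by
    intro Q
    rw [G2_eq]
    exact Finset.sum_congr rfl fun i _ => by ring
  simp_rw [e1] at h1
  rw [← G1_eq] at h1
  have e2 : (∑ i ∈ Z, if i ∈ Z then (chi A i P - α) * (n i : ℚ)⁻¹ *
      ((chi A i P - α) * (n i : ℚ)⁻¹) * (n i : ℚ) else 0) = G2 A n α Z P P := by
    rw [G2_eq]
    refine Finset.sum_congr rfl fun i hi => ?_
    rw [if_pos hi]
    have := inv_mul_cancel₀ (h.npos' i).ne'
    linear_combination ((chi A i P - α) ^ 2 * (n i : ℚ)⁻¹) * this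
  rw [e2] at h1
  rw [← h1]
  simp_rw [sq]
  ring

theorem Rrow (h : Sys A n α) (Z : Finset ι) (P : X) (i : ι) :
    ∑ Q, G2 A n α Z P Q * (chi A i Q - α) + α * (1 - α) * G1 A n α Z P =
      if i ∈ Z then chi A i P - α else 0 := by
  have h1 := h.genZ Z {i} (fun i => (chi A i P - α) * (n i : ℚ)⁻¹) (fun _ => 1)
  have e1 : ∀ Q, ∑ i ∈ Z, (chi A i P - α) * (n i : ℚ)⁻¹ * (chi A i Q - α) =
      G2 A n α Z P Q := by
    intro Q
    rw [G2_eq]
    exact Finset.sum_congr rfl fun i _ => by ring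
  simp_rw [e1] at h1
  rw [← G1_eq] at h1
  simp only [Finset.sum_singleton, one_mul, mul_one, Finset.mem_singleton] at h1
  rw [h1]
  have e2 : (∑ j ∈ Z, if j = i then (chi A j P - α) * (n j : ℚ)⁻¹ * (n j : ℚ) else 0) =
      if i ∈ Z then (chi A i P - α) * (n i : ℚ)⁻¹ * (n i : ℚ) else 0 := by
    rw [Finset.sum_ite_eq']
  rw [e2]
  split
  · rw [mul_assoc, inv_mul_cancel₀ (h.npos' i).ne', mul_one]
  · rfl

end Sys

end Pool.Agent.Lib.MP_93e743_co
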