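import Pool.Agent.Lib.MP_93e743_qp.BoundsB

/-!
Bounds in the case `y ≤ q`.
-/

namespace Pool.Agent.Lib.MP_93e743_co

open Finset

set_option linter.unusedSectionVars false

variable {ι X : Type*} [Fintype ι] [Fintype X] [DecidableEq ι] [DecidableEq X]

namespace CtxB

variable {A : ι → Finset X} {n : ι → ℕ} {x y g : ℕ} {i0 : ι} {q p m : ℕ} {l : ℤ}
  {t : X → X → ℤ}

private lemma x_le' (c : CtxB A n x y g i0 q p m l t) (hy : y ≤ q) : x ≤ 5 * q ^ 2 := by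
  have h1 := c.x_le
  have h2 : q * y ≤ q * q := Nat.mul_le_mul_left q hy
  have h3 : q * q = q ^ 2 := by ring
  omega

theorem n_le (c : CtxB A n x y g i0 q p m l t) (hy : y ≤ q) (i : ι) : n i ≤ 5 * q ^ 3 * p := by
  have hq1 : 1 ≤ q := by have := c.hq3; omega
  have hx := x_le' c hy
  by_cases hi : i = i0
  · subst hi
    rw [c.root]
    refine Nat.mul_le_mul_right p ?_
    have : q ^ 1 ≤ q ^ 3 := Nat.pow_le_pow_right hq1 (by norm_num)
    rw [pow_one] at this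
    omega
  · have h1 := c.sys.mul_le hi
    rw [c.root] at h1
    have h2 : n i ≤ y * n i := Nat.le_mul_of_pos_left _ c.sys.hy
    have h3 : x * (q * p) ≤ 5 * q ^ 2 * (q * p) := Nat.mul_le_mul_right _ hx
    have h4 : 5 * q ^ 2 * (q * p) = 5 * q ^ 3 * p := by ring
    omega

theorem s_le (c : CtxB A n x y g i0 q p m l t) (hy : y ≤ q) : x + y ≤ 6 * q ^ 2 := by
  have hq1 : 1 ≤ q := by have := c.hq3; omega
  have hx := x_le' c hy
  have : q ^ 1 ≤ q ^ 2 := Nat.pow_le_pow_right hq1 (by norm_num)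
  rw [pow_one] at this
  omega

theorem v_le (c : CtxB A n x y g i0 q p m l t) (hy : y ≤ q) :
    g * (x + y) + 2 ≤ 180 * q ^ 7 * p := by
  have hq1 : 1 ≤ q := by have := c.hq3; omega
  have hp1 : 1 ≤ p := c.hp.pos
  have hqQ : (0 : ℚ) < q := by exact_mod_cast hq1
  have hpQ : (0 : ℚ) < p := by exact_mod_cast hp1
  have hB : (0 : ℚ) < 5 * (q : ℚ) ^ 3 * p := by positivity
  have h1 := c.sys.inv_all
  have hcard : ((Fintype.card ι : ℕ) : ℚ) = g * (x + y) + 2 := by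
    rw [c.sys.sys.card, c.sys.cardX]; push_cast; ring
  have h2 : ((Fintype.card ι : ℕ) : ℚ) * (5 * (q : ℚ) ^ 3 * p)⁻¹ ≤ ∑ i, (n i : ℚ)⁻¹ := by
    calc ((Fintype.card ι : ℕ) : ℚ) * (5 * (q : ℚ) ^ 3 * p)⁻¹
        = ∑ _i : ι, (5 * (q : ℚ) ^ 3 * p)⁻¹ := by
          rw [Finset.sum_const, Finset.card_univ, nsmul_eq_mul]
      _ ≤ ∑ i, (n i : ℚ)⁻¹ := by
          refine Finset.sum_le_sum fun i _ => ?_
          have h3 : (n i : ℚ) ≤ 5 * (q : ℚ) ^ 3 * p := by exact_mod_cast c.n_le hy i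
          exact inv_anti₀ (c.sys.qn i) h3
  rw [h1, hcard] at h2
  have h4 : ((x : ℚ) + y) ^ 2 / (x * y) ≤ 36 * q ^ 4 := by
    have hx1 : (1 : ℚ) ≤ x := by
      have := c.sys.hxy
      have : 1 ≤ x := by omega
      exact_mod_cast this
    have hy1 : (1 : ℚ) ≤ y := by
      have := c.sys.hy
      exact_mod_cast this
    have hxy1 : (1 : ℚ) ≤ x * y := by nlinarith
    have h5 : ((x : ℚ) + y) ≤ 6 * q ^ 2 := by exact_mod_cast c.s_le hy
    have h6 : ((x : ℚ) + y) ^ 2 ≤ (6 * q ^ 2) ^ 2 := pow_le_pow_left₀ (by positivity) h5 2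
    calc ((x : ℚ) + y) ^ 2 / (x * y) ≤ ((x : ℚ) + y) ^ 2 := div_le_self (by positivity) hxy1
      _ ≤ (6 * q ^ 2) ^ 2 := h6
      _ = 36 * q ^ 4 := by ring
  have h7 := h2.trans h4
  rw [mul_inv_le_iff₀ hB] at h7
  have h8 : ((g : ℚ) * (x + y) + 2) ≤ 180 * (q : ℚ) ^ 7 * p := by
    calc ((g : ℚ) * (x + y) + 2) ≤ 36 * (q : ℚ) ^ 4 * (5 * (q : ℚ) ^ 3 * p) := h7
      _ = 180 * (q : ℚ) ^ 7 * p := by ring
  exact_mod_cast h8

theorem var_le (c : CtxB A n x y g i0 q p m l t) (hy : y ≤ q) :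
    ∑ i, ((n i : ℚ) - x * y * (g * (x + y) + 2) / (x + y) ^ 2) ^ 2 ≤
      900 * (q : ℚ) ^ 10 * (p : ℚ) ^ 2 := by
  set H : ℚ := x * y * (g * (x + y) + 2) / (x + y) ^ 2 with hH
  have hx0 := c.sys.qx
  have hy0 := c.sys.qy
  have hg0 := c.sys.qg
  have hs0 : (0 : ℚ) < x + y := by positivity
  have hqQ : (0 : ℚ) < q := by exact_mod_cast c.hq.pos
  have hpQ : (0 : ℚ) < p := by exact_mod_cast c.hp.pos
  have h1 := c.sys.sum_ab H H
  have h2 : ((g : ℚ) * x + 1) * (g * y + 1) - (H + H) * (g * (x + y) + 2) +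
      H * H * ((x + y) ^ 2 / (x * y)) = (g * (x + y) + 1) * (x - y) ^ 2 / (x + y) ^ 2 := by
    rw [hH]
    field_simp
    ring
  rw [h2] at h1
  have h3 : ((g : ℚ) * (x + y) + 1) * (x - y) ^ 2 / (x + y) ^ 2 ≤ g * (x + y) + 1 := by
    rw [div_le_iff₀ (by positivity)]
    have h4 : ((x : ℚ) - y) ^ 2 ≤ (x + y) ^ 2 := by nlinarith [mul_pos hx0 hy0]
    have h5 : (0 : ℚ) ≤ g * (x + y) + 1 := by positivity
    exact mul_le_mul_of_nonneg_left h4 h5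
  have h6 : ((g : ℚ) * (x + y) + 1) ≤ 180 * (q : ℚ) ^ 7 * p := by
    have h7 : ((g : ℚ) * (x + y) + 2) ≤ 180 * (q : ℚ) ^ 7 * p := by exact_mod_cast c.v_le hy
    linarith
  calc ∑ i, ((n i : ℚ) - H) ^ 2
      ≤ ∑ i, 5 * (q : ℚ) ^ 3 * p * (((n i : ℚ) - H) * ((n i : ℚ) - H) * (n i : ℚ)⁻¹) := by
        refine Finset.sum_le_sum fun i _ => ?_
        have h8 : (n i : ℚ) ≤ 5 * (q : ℚ) ^ 3 * p := by exact_mod_cast c.n_le hy i
        have h9 := c.sys.qn i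
        have h10 : ((n i : ℚ) - H) ^ 2 =
            (n i : ℚ) * (((n i : ℚ) - H) * ((n i : ℚ) - H) * (n i : ℚ)⁻¹) := by
          field_simp
        rw [h10]
        refine mul_le_mul_of_nonneg_right h8 ?_
        exact mul_nonneg (mul_self_nonneg _) (inv_pos.mpr h9).le
    _ = 5 * (q : ℚ) ^ 3 * p * ((g * (x + y) + 1) * (x - y) ^ 2 / (x + y) ^ 2) := by
        rw [← Finset.mul_sum, h1]
    _ ≤ 5 * (q : ℚ) ^ 3 * p * (180 * (q : ℚ) ^ 7 * p) :=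
        mul_le_mul_of_nonneg_left (h3.trans h6) (by positivity)
    _ = 900 * (q : ℚ) ^ 10 * (p : ℚ) ^ 2 := by ring

end CtxB

end Pool.Agent.Lib.MP_93e743_co
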