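import Pool.Agent.Lib.MP_93e743_qp.PInt
import Pool.Agent.Lib.MP_93e743_qp.BoundsB
import Pool.Agent.Lib.MP_93e743_qp.SmallY

/-!
The mixed case: `p` does not divide `x - y`, `y ≤ q` and `p` does not divide all the numbers.
-/

namespace Pool.Agent.Lib.MP_93e743_co

open Finset

set_option linter.unusedSectionVars false

variable {ι X : Type*} [Fintype ι] [Fintype X] [DecidableEq ι] [DecidableEq X]

/-- the rational integers -/
private abbrev RZ : Subring ℚ := (Int.castRingHom ℚ).range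

private lemma mem_RZ {r : ℚ} : r ∈ RZ ↔ ∃ z : ℤ, r = z := by
  constructor
  · rintro ⟨z, hz⟩
    exact ⟨z, by rw [← hz]; rfl⟩
  · rintro ⟨z, hz⟩
    exact ⟨z, by rw [hz]; rfl⟩

private lemma chi_RZ (A : ι → Finset X) (i : ι) (P : X) : chi A i P ∈ RZ := by
  unfold chi
  split
  · exact one_mem _
  · exact zero_mem _

private lemma card_ne_zero_le (f : X → ℚ) (K : ℕ) (B : ℚ)
    (hf : ∀ P, (K : ℚ) * f P ∈ RZ) (hB : ∑ P, f P ^ 2 ≤ B) (hK : 0 < K) :
    ((univ.filter fun P => f P ≠ 0).card : ℚ) ≤ B * K ^ 2 := by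
  have hKq : (0 : ℚ) < K := by exact_mod_cast hK
  have h1 : ((univ.filter fun P => f P ≠ 0).card : ℚ) ≤
      ∑ P ∈ univ.filter (fun P => f P ≠ 0), ((K : ℚ) * f P) ^ 2 := by
    rw [Finset.card_eq_sum_ones]
    push_cast
    apply Finset.sum_le_sum
    intro P hP
    obtain ⟨z, hz⟩ := mem_RZ.1 (hf P)
    have hne : f P ≠ 0 := (Finset.mem_filter.1 hP).2
    have hz0 : z ≠ 0 := by
      rintro rfl
      have h2 : (K : ℚ) * f P = 0 := by rw [hz]; norm_num
      rcases mul_eq_zero.1 h2 with h3 | h3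
      · exact hKq.ne' h3
      · exact hne h3
    rw [hz]
    have h4 : 0 < z ^ 2 := by positivity
    have h5 : (1 : ℤ) ≤ z ^ 2 := by omega
    exact_mod_cast h5
  have h2 : ∑ P ∈ univ.filter (fun P => f P ≠ 0), ((K : ℚ) * f P) ^ 2 ≤ ∑ P, ((K : ℚ) * f P) ^ 2 :=
    Finset.sum_le_sum_of_subset_of_nonneg (Finset.filter_subset _ _) (fun _ _ _ => sq_nonneg _)
  have h3 : ∑ P, ((K : ℚ) * f P) ^ 2 = K ^ 2 * ∑ P, f P ^ 2 := by
    rw [Finset.mul_sum]
    exact Finset.sum_congr rfl fun P _ => by ring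
  have h4 : (K : ℚ) ^ 2 * ∑ P, f P ^ 2 ≤ K ^ 2 * B := mul_le_mul_of_nonneg_left hB (by positivity)
  linarith

namespace CtxB

variable {A : ι → Finset X} {n : ι → ℕ} {x y g : ℕ} {i0 : ι} {q p m : ℕ} {l : ℤ}
  {t : X → X → ℤ}

/-- The bound for the mixed case. -/
def bdM (q : ℕ) : ℕ :=
  1296 * q ^ 8 * (5 * q ^ 3).factorial ^ 2 +
    2 ^ (3600 * q ^ 10) * (1296 * q ^ 8 * (5 * q ^ 3).factorial ^ 2 + 2) + 40 * q ^ 4

/-- Row MX. -/
theorem mixed (c : CtxB A n x y g i0 q p m l t) (hy : y ≤ q) (i1 : ι) (h1 : ¬ p ∣ n i1)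
    (hp : bdM q ≤ p) : False := by
  have hsys := c.sys.sys
  have hq3 := c.hq3
  have hq1 : 1 ≤ q := by omega
  have hxy := c.sys.hxy
  have hy0 := c.sys.hy
  have hpp := c.hp
  have hppos := hpp.pos
  set L : ℕ := (5 * q ^ 3).factorial with hL
  have hLpos : 0 < L := Nat.factorial_pos _
  set W : ℕ := 1296 * q ^ 8 * L ^ 2 with hW
  have hbd : bdM q = W + 2 ^ (3600 * q ^ 10) * (W + 2) + 40 * q ^ 4 := rfl
  have hp40 : 40 * q ^ 4 ≤ p := le_trans (by rw [hbd]; exact Nat.le_add_left _ _) hp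
  have hsp : x + y < p := c.s_lt hp40
  have hpx : ¬ p ∣ x := Nat.not_dvd_of_pos_of_lt (by omega) (by omega)
  have hpy : ¬ p ∣ y := Nat.not_dvd_of_pos_of_lt hy0 (by omega)
  have hps : ¬ p ∣ x + y := Nat.not_dvd_of_pos_of_lt (by omega) hsp
  have h5 : 5 * q ^ 3 < p := by
    have h2 : q ^ 3 ≤ q ^ 4 := Nat.pow_le_pow_right hq1 (by norm_num)
    have h3 : 0 < q ^ 4 := by positivity
    omega
  have hpL : ¬ p ∣ L := by
    rw [hL, hpp.dvd_factorial]
    omega
  have hLdvd : ∀ i, p ∣ n i → n i ∣ p * L := by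
    rintro i ⟨k, hk⟩
    rw [hk]
    apply Nat.mul_dvd_mul_left
    have h3 := c.n_le hy i
    have hpos : 0 < n i := hsys.npos i
    have hk0 : 0 < k := by
      rcases Nat.eq_zero_or_pos k with h | h
      · rw [h, Nat.mul_zero] at hk; omega
      · exact h
    refine Nat.dvd_factorial hk0 ?_
    rw [hk, mul_comm] at h3
    exact Nat.le_of_mul_le_mul_right h3 hppos
  have hs2 : x + y ≤ 6 * q ^ 2 := c.s_le hy
  -- rational numbers
  have hqs : (0 : ℚ) < (x : ℚ) + y := by
    have := c.sys.qx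
    have := c.sys.qy
    linarith
  have hxq := c.sys.qx
  have hyq := c.sys.qy
  set α : ℚ := (x : ℚ) / (x + y) with hα
  have hαs : α * ((x : ℚ) + y) = x := by
    rw [hα]; field_simp
  have h1α : 1 - α = (y : ℚ) / (x + y) := c.sys.qalpha
  have hα0 : 0 < α := by rw [hα]; positivity
  set Z : Finset ι := univ.filter fun i => p ∣ n i with hZ
  have hiM0 : (L : ℚ) * M0 n Z ∈ RZ := mem_RZ.2 (c.sys.pint0 hpp hpx hpy L hLdvd)
  have hiM1 : ∀ P, (L : ℚ) * M1 A n Z P ∈ RZ := fun P => mem_RZ.2 (c.sys.pint1 hpp hpy L hLdvd P)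
  have hiM2 : ∀ P Q, (L : ℚ) * M2 A n Z P Q ∈ RZ := by
    intro P Q
    by_cases hPQ : P = Q
    · subst hPQ
      rw [M2_self]
      exact hiM1 P
    · exact mem_RZ.2 (c.sys.pint2 hpp hpy L hLdvd hPQ)
  have hnat : ∀ k : ℕ, (k : ℚ) ∈ RZ := fun k => natCast_mem _ k
  have hiG1 : ∀ P, (((x + y) * L : ℕ) : ℚ) * G1 A n α Z P ∈ RZ := by
    intro P
    have e : (((x + y) * L : ℕ) : ℚ) * G1 A n α Z P =
        ((x + y : ℕ) : ℚ) * ((L : ℚ) * M1 A n Z P) - (x : ℚ) * ((L : ℚ) * M0 n Z) := by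
      unfold G1
      push_cast
      linear_combination (-(L : ℚ) * M0 n Z) * hαs
    rw [e]
    exact sub_mem (mul_mem (hnat _) (hiM1 P)) (mul_mem (hnat _) hiM0)
  have hiG2 : ∀ Q P, (((x + y) ^ 2 * L : ℕ) : ℚ) * G2 A n α Z Q P ∈ RZ := by
    intro Q P
    have e : (((x + y) ^ 2 * L : ℕ) : ℚ) * G2 A n α Z Q P =
        (((x + y) ^ 2 : ℕ) : ℚ) * ((L : ℚ) * M2 A n Z Q P) -
          (((x + y) * x : ℕ) : ℚ) * ((L : ℚ) * M1 A n Z Q + (L : ℚ) * M1 A n Z P) +
          ((x ^ 2 : ℕ) : ℚ) * ((L : ℚ) * M0 n Z) := by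
      unfold G2
      push_cast
      linear_combination (-((x : ℚ) + y) * L * (M1 A n Z Q + M1 A n Z P) +
        (L : ℚ) * M0 n Z * (α * ((x : ℚ) + y) + x)) * hαs
    rw [e]
    exact add_mem (sub_mem (mul_mem (hnat _) (hiM2 Q P))
      (mul_mem (hnat _) (add_mem (hiM1 Q) (hiM1 P)))) (mul_mem (hnat _) hiM0)
  -- the two counting bounds
  have hsW : (((x : ℚ) + y) ^ 2 * L) ^ 2 ≤ W := by
    have h2 : (((x + y) ^ 2 * L) ^ 2 : ℕ) ≤ W := by
      have h3 : (x + y) ^ 4 ≤ (6 * q ^ 2) ^ 4 := Nat.pow_le_pow_left hs2 4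
      calc ((x + y) ^ 2 * L) ^ 2 = (x + y) ^ 4 * L ^ 2 := by ring
        _ ≤ (6 * q ^ 2) ^ 4 * L ^ 2 := Nat.mul_le_mul_right _ h3
        _ = W := by rw [hW]; ring
    exact_mod_cast h2
  have hB1 : ∑ P, G1 A n α Z P ^ 2 ≤ ((x : ℚ) + y) ^ 2 := by
    have h2 := hsys.R0 Z
    set S := ∑ P, G1 A n α Z P ^ 2 with hS
    have h3 : α * (1 - α) * ((x : ℚ) + y) ^ 2 = x * y := by
      rw [h1α, hα]; field_simp
    have hxy1 : (1 : ℚ) ≤ x * y := by
      have : 1 ≤ x * y := Nat.mul_pos (by omega) hy0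
      exact_mod_cast this
    have hS0 : 0 ≤ S := Finset.sum_nonneg fun _ _ => sq_nonneg _
    have h4 : 4 * (α * (1 - α)) * S ≤ 1 := by
      have e : S = M0 n Z - α * (1 - α) * M0 n Z ^ 2 := by linarith
      rw [e]
      nlinarith [sq_nonneg (2 * (α * (1 - α)) * M0 n Z - 1)]
    have h5 : (x * y : ℚ) * S ≤ ((x : ℚ) + y) ^ 2 := by
      have h6 : 4 * (x * y : ℚ) * S ≤ ((x : ℚ) + y) ^ 2 := by
        calc 4 * (x * y : ℚ) * S = (4 * (α * (1 - α)) * S) * ((x : ℚ) + y) ^ 2 := by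
              rw [← h3]; ring
          _ ≤ 1 * ((x : ℚ) + y) ^ 2 := mul_le_mul_of_nonneg_right h4 (by positivity)
          _ = ((x : ℚ) + y) ^ 2 := one_mul _
      have h7 : 0 ≤ (x * y : ℚ) * S := mul_nonneg (by linarith) hS0
      linarith
    have h8 : 1 * S ≤ (x * y : ℚ) * S := mul_le_mul_of_nonneg_right hxy1 hS0
    linarith
  have hB2 : ∀ Q, ∑ P, G2 A n α Z Q P ^ 2 ≤ 1 := by
    intro Q
    have h2 := hsys.RP Z Q
    have h3 : 0 ≤ α * (1 - α) * G1 A n α Z Q ^ 2 := by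
      rw [h1α]; positivity
    have h4 : G2 A n α Z Q Q ^ 2 ≤ ∑ P, G2 A n α Z Q P ^ 2 :=
      Finset.single_le_sum (f := fun P => G2 A n α Z Q P ^ 2) (fun _ _ => sq_nonneg _)
        (Finset.mem_univ Q)
    have h5 : G2 A n α Z Q Q ≤ 1 := by
      by_contra hcon
      push Not at hcon
      nlinarith
    linarith
  have hc1 : (univ.filter fun P => G1 A n α Z P ≠ 0).card ≤ W := by
    have h2 := card_ne_zero_le (fun P => G1 A n α Z P) ((x + y) * L) _ hiG1 hB1 (by positivity)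
    have h3 : (((univ.filter fun P => G1 A n α Z P ≠ 0).card : ℕ) : ℚ) ≤ W := by
      refine h2.trans (le_trans (le_of_eq ?_) hsW)
      push_cast
      ring
    exact_mod_cast h3
  have hc2 : ∀ Q, (univ.filter fun P => G2 A n α Z Q P ≠ 0).card ≤ W := by
    intro Q
    have h2 := card_ne_zero_le (fun P => G2 A n α Z Q P) ((x + y) ^ 2 * L) _ (hiG2 Q) (hB2 Q)
      (by positivity)
    have h3 : (((univ.filter fun P => G2 A n α Z Q P ≠ 0).card : ℕ) : ℚ) ≤ W := by
      refine h2.trans (le_trans (le_of_eq ?_) hsW)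
      push_cast
      ring
    exact_mod_cast h3
  -- the exceptional sets
  set H : ℚ := (x : ℚ) * y * (g * (x + y) + 2) / (x + y) ^ 2 with hH
  set μ : ℤ := round (H / p) with hμ
  set O : Finset ι := Z.filter fun i => (n i : ℤ) ≠ p * μ with hO
  have hpq : (0 : ℚ) < p := by exact_mod_cast hppos
  have hOc : O.card ≤ 3600 * q ^ 10 := by
    have h2 := c.var_le hy
    rw [← hH] at h2
    have h3 : ∑ i ∈ O, ((p : ℚ) ^ 2 / 4) ≤ ∑ i, ((n i : ℚ) - H) ^ 2 := by
      refine le_trans (Finset.sum_le_sum ?_)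
        (Finset.sum_le_sum_of_subset_of_nonneg (Finset.subset_univ O) fun _ _ _ => sq_nonneg _)
      intro i hi
      obtain ⟨hiZ, hiO⟩ := Finset.mem_filter.1 hi
      obtain ⟨k, hk⟩ := (Finset.mem_filter.1 hiZ).2
      have hkμ : (k : ℤ) - μ ≠ 0 := by
        intro h0
        apply hiO
        rw [hk]
        push_cast
        have : (k : ℤ) = μ := by linarith
        rw [this]
      have h4 : (1 : ℤ) ≤ |(k : ℤ) - μ| := Int.one_le_abs hkμ
      have h4' : (1 : ℚ) ≤ |(k : ℚ) - μ| := by exact_mod_cast h4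
      have h6 : |H / p - μ| ≤ 1 / 2 := abs_sub_round (H / p)
      have h7 : 1 / 2 ≤ |(k : ℚ) - H / p| := by
        have h8 : |(k : ℚ) - μ| ≤ |(k : ℚ) - H / p| + |H / p - μ| := abs_sub_le _ _ _
        linarith
      have h9 : (n i : ℚ) - H = p * ((k : ℚ) - H / p) := by
        rw [hk]
        push_cast
        field_simp
      rw [h9, mul_pow]
      have h10 : (1 / 4 : ℚ) ≤ ((k : ℚ) - H / p) ^ 2 := by
        rw [← sq_abs]
        nlinarith
      nlinarith [sq_nonneg (p : ℚ)]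
    rw [Finset.sum_const, nsmul_eq_mul] at h3
    have h11 : (O.card : ℚ) * ((p : ℚ) ^ 2 / 4) ≤ 3600 * (q : ℚ) ^ 10 * ((p : ℚ) ^ 2 / 4) := by
      linarith
    have h12 : (O.card : ℚ) ≤ 3600 * (q : ℚ) ^ 10 :=
      le_of_mul_le_mul_right h11 (by positivity)
    exact_mod_cast h12
  obtain ⟨ν, hν0, hν1, hν2⟩ : ∃ ν : ℕ, 0 < ν ∧ (∀ i ∈ Z, i ∉ O → n i = p * ν) ∧ ¬ (x + y ∣ ν) := by
    by_cases hne : ∃ i2 ∈ Z, i2 ∉ O
    · obtain ⟨i2, hi2, hi2'⟩ := hne
      obtain ⟨k, hk⟩ := (Finset.mem_filter.1 hi2).2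
      have hk1 : (n i2 : ℤ) = p * μ := by
        by_contra hcon
        exact hi2' (Finset.mem_filter.2 ⟨hi2, hcon⟩)
      have hkpos : 0 < k := by
        have hpos : 0 < n i2 := hsys.npos i2
        rcases Nat.eq_zero_or_pos k with h | h
        · rw [h, Nat.mul_zero] at hk; omega
        · exact h
      refine ⟨k, hkpos, ?_, ?_⟩
      · intro i hi hi'
        have h2 : (n i : ℤ) = p * μ := by
          by_contra hcon
          exact hi' (Finset.mem_filter.2 ⟨hi, hcon⟩)
        have h3 : (n i : ℤ) = n i2 := by rw [h2, hk1]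
        have h4 : n i = n i2 := by exact_mod_cast h3
        rw [h4, hk]
      · intro hdv
        have hqk : q ∣ k := by
          have h2 := c.dvd_n i2
          rw [hk] at h2
          have h3 : Nat.Coprime q p := (Nat.coprime_primes c.hq hpp).2 (by have := c.hpq; omega)
          exact h3.dvd_of_dvd_mul_left h2
        have h2 : q * (x + y) ∣ k := Nat.Coprime.mul_dvd_of_dvd_of_dvd c.cop_s hqk hdv
        have h3 : q * (x + y) ≤ k := Nat.le_of_dvd hkpos h2
        have h4 : k ≤ q * x := by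
          by_cases h0 : i2 = i0
          · have h5 := c.root
            rw [← h0, hk, mul_comm q p] at h5
            have h6 : k = q := Nat.eq_of_mul_eq_mul_left hppos h5
            rw [h6]
            exact Nat.le_mul_of_pos_right _ (by omega)
          · have h5 := c.sys.mul_le h0
            rw [c.root, hk] at h5
            have h6 : (y * k) * p ≤ (q * x) * p := by
              calc (y * k) * p = y * (p * k) := by ring
                _ ≤ x * (q * p) := h5
                _ = (q * x) * p := by ring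
            have h7 := Nat.le_of_mul_le_mul_right h6 hppos
            exact le_trans (Nat.le_mul_of_pos_left _ hy0) h7
        have h5 : q * (x + y) ≤ q * x := h3.trans h4
        have h6 := Nat.le_of_mul_le_mul_left h5 (by omega)
        omega
    · refine ⟨1, one_pos, ?_, ?_⟩
      · intro i hi hi'
        exact absurd ⟨i, hi, hi'⟩ hne
      · intro hdv
        have := Nat.le_of_dvd one_pos hdv
        omega
  -- a class of points
  set S1 : Finset X := univ.filter fun P => G1 A n α Z P = 0 with hS1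
  have hv : p < Fintype.card X := by
    rw [c.sys.cardX]
    have h2 := c.lt_v
    have h3 : p ≤ q * p := Nat.le_mul_of_pos_left _ (by omega)
    omega
  have hS1c : S1.card + (univ.filter fun P => G1 A n α Z P ≠ 0).card = Fintype.card X := by
    have h2 := Finset.card_filter_add_card_filter_not (s := (univ : Finset X))
      (fun P => G1 A n α Z P = 0)
    rw [Finset.card_univ] at h2
    exact h2
  obtain ⟨T, hT, hTc⟩ : ∃ T ∈ O.powerset,
      W + 1 < (S1.filter fun P => (O.filter fun i => P ∈ A i) = T).card := by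
    apply Finset.exists_lt_card_fiber_of_mul_lt_card_of_maps_to
    · intro P _
      rw [Finset.mem_powerset]
      exact Finset.filter_subset _ _
    · rw [Finset.card_powerset]
      have h2 : 2 ^ O.card ≤ 2 ^ (3600 * q ^ 10) := Nat.pow_le_pow_right (by norm_num) hOc
      have h3 : 2 ^ O.card * (W + 1) ≤ 2 ^ (3600 * q ^ 10) * (W + 1) := Nat.mul_le_mul_right _ h2
      have h4 : 0 < 2 ^ (3600 * q ^ 10) := by positivity
      generalize 2 ^ (3600 * q ^ 10) = E at *
      generalize 2 ^ O.card = E' at *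
      have h6 : E * (W + 2) = E * (W + 1) + E := by ring
      rw [hbd] at hp
      omega
  set CC := S1.filter fun P => (O.filter fun i => P ∈ A i) = T with hCC
  obtain ⟨P, hP⟩ : CC.Nonempty := Finset.card_pos.1 (by omega)
  have hCG : ∀ P ∈ CC, G1 A n α Z P = 0 := by
    intro P hP
    exact (Finset.mem_filter.1 (Finset.mem_filter.1 hP).1).2
  have hCM : ∀ P ∈ CC, M1 A n Z P = α * M0 n Z := by
    intro P hP
    have h2 := hCG P hP
    unfold G1 at h2
    linarith
  have hCO : ∀ P ∈ CC, ∀ P' ∈ CC, ∀ i ∈ O, chi A i P = chi A i P' := by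
    intro P hP P' hP' i hi
    have h2 := (Finset.mem_filter.1 hP).2
    have h3 := (Finset.mem_filter.1 hP').2
    rw [← h3] at h2
    have h4 : P ∈ A i ↔ P' ∈ A i := by
      have h6 : i ∈ O.filter (fun i => P ∈ A i) ↔ i ∈ O.filter (fun i => P' ∈ A i) := by rw [h2]
      simpa [hi] using h6
    unfold chi
    simp only [h4]
  -- the key fact
  have key : ∀ Q, Q ≠ P → (ν : ℚ) * G2 A n α Z P Q ∈ RZ := by
    intro Q hQP
    obtain ⟨P', hP', hPQ', hG⟩ : ∃ P' ∈ CC, P' ≠ Q ∧ G2 A n α Z Q P' = 0 := by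
      by_contra hcon
      have h2 : CC ⊆ insert Q (univ.filter fun P => G2 A n α Z Q P ≠ 0) := by
        intro R hR
        rw [Finset.mem_insert, Finset.mem_filter]
        by_contra h3
        push Not at h3
        exact hcon ⟨R, hR, h3.1, h3.2 (Finset.mem_univ _)⟩
      have h3 := (Finset.card_le_card h2).trans (Finset.card_insert_le _ _)
      have h4 := hc2 Q
      omega
    have h2 : G2 A n α Z P Q = M2 A n Z P Q - M2 A n Z P' Q := by
      have h3 : G2 A n α Z P' Q = 0 := by rw [G2_comm]; exact hG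
      have h4 := hCM P hP
      have h6 := hCM P' hP'
      unfold G2 at h3 ⊢
      rw [h6] at h3
      rw [h4]
      linarith
    have h3 : (p : ℚ) * (ν * G2 A n α Z P Q) ∈ RZ := by
      have e : (p : ℚ) * (ν * G2 A n α Z P Q) =
          ∑ i ∈ Z, ((p : ℚ) * ν) * ((chi A i P - chi A i P') * chi A i Q * (n i : ℚ)⁻¹) := by
        rw [h2, ← Finset.mul_sum]
        unfold M2
        rw [← Finset.sum_sub_distrib, ← mul_assoc]
        congr 1
        exact Finset.sum_congr rfl fun i _ => by ring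
      rw [e]
      refine sum_mem fun i hi => ?_
      by_cases hiO : i ∈ O
      · rw [hCO P hP P' hP' i hiO, sub_self, zero_mul, zero_mul, mul_zero]
        exact zero_mem _
      · have h4 := hν1 i hi hiO
        have h6 : ((p : ℚ) * ν) * (n i : ℚ)⁻¹ = 1 := by
          rw [h4]
          push_cast
          have : (ν : ℚ) ≠ 0 := by exact_mod_cast hν0.ne'
          field_simp
        have e2 : ((p : ℚ) * ν) * ((chi A i P - chi A i P') * chi A i Q * (n i : ℚ)⁻¹) =
            (chi A i P - chi A i P') * chi A i Q := by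
          linear_combination ((chi A i P - chi A i P') * chi A i Q) * h6
        rw [e2]
        exact mul_mem (sub_mem (chi_RZ A i P) (chi_RZ A i P')) (chi_RZ A i Q)
    obtain ⟨z, hz⟩ := mem_RZ.1 h3
    obtain ⟨w, hw⟩ := mem_RZ.1 (hiG2 P Q)
    have h4 : (p : ℤ) * (ν * w) = (((x + y) ^ 2 * L : ℕ) : ℤ) * z := by
      have h6 : (p : ℚ) * (ν * w) = (((x + y) ^ 2 * L : ℕ) : ℚ) * z := by
        rw [← hw, ← hz]; ring
      exact_mod_cast h6
    have hpZ : Prime (p : ℤ) := Nat.prime_iff_prime_int.1 hpp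
    have h6 : (p : ℤ) ∣ z := by
      have h7 : (p : ℤ) ∣ (((x + y) ^ 2 * L : ℕ) : ℤ) * z := ⟨_, h4.symm⟩
      rcases hpZ.dvd_or_dvd h7 with h8 | h8
      · exfalso
        have h9 : p ∣ (x + y) ^ 2 * L := by exact_mod_cast h8
        rcases hpp.dvd_mul.1 h9 with h10 | h10
        · exact hps (hpp.dvd_of_dvd_pow h10)
        · exact hpL h10
      · exact h8
    obtain ⟨z', hz'⟩ := h6
    refine mem_RZ.2 ⟨z', ?_⟩
    rw [hz'] at hz
    push_cast at hz
    exact mul_left_cancel₀ hpq.ne' hz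
  -- the two sets
  have hM0 : 0 < M0 n Z := by
    unfold M0
    refine Finset.sum_pos (fun i _ => inv_pos.2 (hsys.npos' i)) ⟨i0, ?_⟩
    rw [hZ, Finset.mem_filter]
    exact ⟨Finset.mem_univ _, by rw [c.root]; exact Dvd.intro_left _ rfl⟩
  obtain ⟨i, hiZ, hiP⟩ : ∃ i ∈ Z, P ∈ A i := by
    by_contra hcon
    have h2 : M1 A n Z P = 0 := by
      unfold M1
      refine Finset.sum_eq_zero fun i hi => ?_
      have h3 : P ∉ A i := fun h => hcon ⟨i, hi, h⟩
      unfold chi
      rw [if_neg h3, zero_mul]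
    rw [hCM P hP] at h2
    have := mul_pos hα0 hM0
    linarith
  obtain ⟨j, hjZ, hjP⟩ : ∃ j, j ∉ Z ∧ P ∈ A j := by
    by_contra hcon
    have h2 : M1 A n Z P = (1 - α)⁻¹ := by
      rw [← hsys.s1 P]
      unfold M1
      refine Finset.sum_subset (Finset.subset_univ _) fun i _ hi => ?_
      have h3 : P ∉ A i := fun h => hcon ⟨i, hi, h⟩
      unfold chi
      rw [if_neg h3, zero_mul]
    have h3 : M0 n Z < (α * (1 - α))⁻¹ := by
      rw [← hsys.s0]
      unfold M0
      refine Finset.sum_lt_sum_of_subset (Finset.subset_univ Z) (Finset.mem_univ i1) ?_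
        (inv_pos.2 (hsys.npos' i1)) fun j _ _ => (inv_pos.2 (hsys.npos' j)).le
      rw [hZ, Finset.mem_filter]
      exact fun h => h1 h.2
    rw [hCM P hP] at h2
    have h4 : 0 < 1 - α := by rw [h1α]; positivity
    have h6 : α * M0 n Z < α * (α * (1 - α))⁻¹ := mul_lt_mul_of_pos_left h3 hα0
    have h7 : α * (α * (1 - α))⁻¹ = (1 - α)⁻¹ := by
      field_simp
    rw [h7, h2] at h6
    exact lt_irrefl _ h6
  have hri := hsys.Rrow Z P i
  have hrj := hsys.Rrow Z P j
  rw [if_pos hiZ] at hri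
  rw [if_neg hjZ] at hrj
  have hchi : chi A i P = 1 := by unfold chi; rw [if_pos hiP]
  have hchj : chi A j P = 1 := by unfold chi; rw [if_pos hjP]
  have hsum : ∑ Q, G2 A n α Z P Q * (chi A i Q - chi A j Q) = (y : ℚ) / (x + y) := by
    rw [← h1α]
    have e : ∑ Q, G2 A n α Z P Q * (chi A i Q - chi A j Q) =
        ∑ Q, G2 A n α Z P Q * (chi A i Q - α) - ∑ Q, G2 A n α Z P Q * (chi A j Q - α) := by
      rw [← Finset.sum_sub_distrib]
      exact Finset.sum_congr rfl fun Q _ => by ring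
    rw [hchi] at hri
    rw [e]
    linarith
  have hfin : (ν : ℚ) * ((y : ℚ) / (x + y)) ∈ RZ := by
    rw [← hsum, Finset.mul_sum]
    refine sum_mem fun Q _ => ?_
    by_cases hQ : Q = P
    · rw [hQ, hchi, hchj, sub_self, mul_zero, mul_zero]
      exact zero_mem _
    · rw [← mul_assoc]
      exact mul_mem (key Q hQ) (sub_mem (chi_RZ A i Q) (chi_RZ A j Q))
  obtain ⟨z, hz⟩ := mem_RZ.1 hfin
  have h2 : (ν : ℤ) * y = z * ((x + y : ℕ) : ℤ) := by
    have h3 : (ν : ℚ) * y = z * ((x + y : ℕ) : ℚ) := by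
      rw [← hz]
      push_cast
      field_simp
    exact_mod_cast h3
  have h3 : x + y ∣ ν * y := by
    have h4 : ((x + y : ℕ) : ℤ) ∣ ((ν * y : ℕ) : ℤ) := by
      push_cast
      push_cast at h2
      exact ⟨z, by rw [h2]; ring⟩
    exact_mod_cast h4
  have h4 : Nat.Coprime (x + y) y := by
    have := c.sys.cop
    simpa using this
  exact hν2 (h4.dvd_of_dvd_mul_right h3)

end CtxB

end Pool.Agent.Lib.MP_93e743_co
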