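import Pool.Agent.Lib.MP_93e743_qp.R2Le
import Pool.Agent.Lib.MP_93e743_qp.SmallLam
import Pool.Agent.Lib.MP_93e743_qp.FalseA
import Pool.Agent.Lib.MP_93e743_qp.FalseB
import Pool.Agent.Lib.MP_93e743_qp.Data1
import Pool.Agent.Lib.MP_93e743_qp.FinSmall
import Pool.Agent.Lib.MP_93e743_qp.FinLarge
import Pool.Agent.Lib.MP_93e743_qp.AllZ
import Pool.Agent.Lib.MP_93e743_qp.Mixed

/-!
The assembly: `λ = q p`.
-/

namespace Pool.Agent.Lib.MP_93e743_co

open Finset

set_option linter.unusedSectionVars false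

variable {ι X : Type*} [Fintype ι] [Fintype X] [DecidableEq ι] [DecidableEq X]

namespace CtxA

variable {A : ι → Finset X} {n : ι → ℕ} {x y g : ℕ} {i0 : ι} {q p m : ℕ} {l : ℤ}
  {t : X → X → ℤ}

/-- The bound for Part I. -/
def bdA (q : ℕ) : ℕ :=
  36 * (2000000 * q ^ 4 + q) * (2000000 * q ^ 4) ^ 4 + (2 * (2000000 * q ^ 4) + 4) ^ 2 + 16

theorem false (c : CtxA A n x y g i0 q p m l t) (hp : bdA q < p) : False := by
  unfold bdA at hp
  have h16 : 16 ≤ p := by omega
  have hr := c.r2_le h16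
  rcases le_or_gt (p * (x + y)) (3 * (y * (g * y + 1))) with h3 | h3
  · exact c.falseA _ hr h3 (by omega)
  · obtain ⟨hm, hy⟩ := c.caseB h16 h3
    exact c.falseB _ hr hm hy (by omega)

end CtxA

namespace CtxB

variable {A : ι → Finset X} {n : ι → ℕ} {x y g : ℕ} {i0 : ι} {q p m : ℕ} {l : ℤ}
  {t : X → X → ℤ}

theorem false1 (c : CtxB A n x y g i0 q p m l t) (hp : 1400000 * q ^ 17 ≤ p) (hy : q < y) :
    False := by
  have hq3 := c.hq3
  have hq1 : 1 ≤ q := by omega
  have hp4 : 40 * q ^ 4 ≤ p := by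
    have : q ^ 4 ≤ q ^ 17 := Nat.pow_le_pow_right hq1 (by norm_num)
    omega
  have hp2 : q ^ 2 ≤ p := by
    have : q ^ 2 ≤ q ^ 4 := Nat.pow_le_pow_right hq1 (by norm_num)
    omega
  obtain ⟨q0, N1, M, hq0, h1, h2⟩ := c.data1 hp4 hy
  have hv : (Fintype.card X : ℤ) = g * ((x : ℤ) + y) + 1 := by
    rw [c.sys.cardX]; push_cast; ring
  have hlt := c.lt_v
  have hbig : 1400000 * q ^ 18 ≤ g * (x + y) := by
    have : q * (1400000 * q ^ 17) ≤ q * p := Nat.mul_le_mul_left q hp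
    have e : q * (1400000 * q ^ 17) = 1400000 * q ^ 18 := by ring
    omega
  have hbig' : (1400000 : ℤ) * q ^ 18 ≤ g * (x + y) := by exact_mod_cast hbig
  have hyx : (y : ℤ) < x := by exact_mod_cast c.sys.hxy
  have hyZ : (q : ℤ) < y := by exact_mod_cast hy
  have hxZ : (x : ℤ) ≤ q * y + 4 * q ^ 2 := by exact_mod_cast c.x_le
  have hq3Z : (3 : ℤ) ≤ q := by exact_mod_cast hq3
  rcases lt_or_ge (2 * |((x : ℤ) + y) * l - q * x| * q0) ((x : ℤ) + y) with hc | hc
  · refine fin_small ((x : ℤ) + y) x y q l q0 g N1 M rfl hyx (Nat.prime_iff_prime_int.mp c.hq) hq3Z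
      hyZ c.T.l0 c.T.l1 hv ?_ c.K_le (c.J_ge hp2) hxZ hq0 h1 h2 hc
    have h5 : 30 * q ^ 5 ≤ 1400000 * q ^ 18 := by
      have : q ^ 5 ≤ q ^ 18 := Nat.pow_le_pow_right hq1 (by norm_num)
      omega
    have h6 : (30 : ℤ) * q ^ 5 ≤ 1400000 * q ^ 18 := by exact_mod_cast h5
    linarith
  · exact fin_large ((x : ℤ) + y) x y q l q0 g N1 M rfl hyx
      (Nat.isCoprime_iff_coprime.mpr c.sys.cop) hq3Z hyZ hv hbig' c.K_le hxZ hq0 h1 h2 hc

/-- The bound for Part II. -/
def bdB (q : ℕ) : ℕ := 1400000 * q ^ 17 + bdM q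

theorem false (c : CtxB A n x y g i0 q p m l t) (hp : bdB q ≤ p) : False := by
  unfold bdB at hp
  rcases lt_or_ge q y with hy | hy
  · exact c.false1 (by omega) hy
  · by_cases hall : ∀ i, p ∣ n i
    · refine c.allZ hy hall ?_
      have hq1 : 1 ≤ q := by have := c.hq3; omega
      have : q ^ 13 ≤ q ^ 17 := Nat.pow_le_pow_right hq1 (by norm_num)
      omega
    · push Not at hall
      obtain ⟨i1, h1⟩ := hall
      exact c.mixed hy i1 h1 (by omega)

end CtxB

/-! ## Assembly -/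

namespace IntSys

variable {A : ι → Finset X} {n : ι → ℕ} {x y g : ℕ}

/-- The bound. -/
def bdQ (q : ℕ) : ℕ := CtxA.bdA q + CtxB.bdB q + q + 1

theorem qp_const (h : IntSys A n x y g) (i0 : ι) {q p : ℕ} (hq : q.Prime) (hp : p.Prime)
    (hroot : n i0 = q * p) (hout : ∃ P, P ∉ A i0) (hin : ∃ P, P ∈ A i0) (hpq : bdQ q ≤ p) :
    ∃ c, ∀ P Q, P ≠ Q → cc A P Q = c := by
  by_contra hnc
  unfold bdQ at hpq
  have hqp : q < p := by omega
  have hxyN := h.hxy
  have hmpos : 0 < x - y := by omega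
  set d := Nat.gcd (n i0) (x - y) with hd
  have hdpos : 0 < d := Nat.gcd_pos_of_pos_right _ hmpos
  have hddm : d ∣ x - y := Nat.gcd_dvd_right _ _
  obtain ⟨l, t, hT⟩ := h.exists_tmat i0 d ((x - y) / d) rfl rfl hnc
  obtain ⟨N, ρ, a, b, hPar⟩ := h.exists_params i0 d ((x - y) / d) rfl rfl hnc
  have hone := hPar.ineq_one
  have hd3 := hPar.hd
  have hmm : x - y = (x - y) / d * d := (Nat.div_mul_cancel hddm).symm
  set m' := (x - y) / d with hm'
  have hm'0 : 1 ≤ m' := by
    rcases Nat.eq_zero_or_pos m' with h0 | h0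
    · rw [h0] at hmm; omega
    · exact h0
  by_cases hpm : p ∣ x - y
  · -- Part I
    obtain ⟨P0, hP0⟩ := hout
    have hp2 := hp.two_le
    have hq2 := hq.two_le
    have hlam : 2 ≤ n i0 := by rw [hroot]; nlinarith
    have hlt : x - y < q * p := by
      by_contra hcon
      rw [not_lt] at hcon
      exact h.small_lam i0 P0 hP0 hlam (by rw [hroot]; omega)
    obtain ⟨m, hm⟩ := hpm
    have hmq : m < q := by
      rw [hm, mul_comm] at hlt
      exact lt_of_mul_lt_mul_right hlt (Nat.zero_le _)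
    have hm1 : 1 ≤ m := by
      rcases Nat.eq_zero_or_pos m with h0 | h0
      · rw [h0] at hm; omega
      · exact h0
    have hcop : Nat.Coprime q m := by
      exact (Nat.coprime_of_lt_prime (by omega) hmq hq)
    have hdp : d = p := by
      rw [hd, hroot, hm, mul_comm q p, Nat.gcd_mul_left, hcop.gcd_eq_one, mul_one]
    have hm'm : m' = m := by
      rw [hm', hdp, hm, Nat.mul_div_cancel_left _ hp.pos]
    rw [hdp, hm'm] at hT
    refine CtxA.false (A := A) (n := n) (i0 := i0) (q := q) (p := p) (m := m) (l := l) (t := t)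
      ⟨h, hq, hp, ?_, hm1, hmq, hroot, ⟨P0, hP0⟩, hT, ?_⟩ (by omega)
    · rw [mul_comm m p]; omega
    · rw [hdp] at hone
      exact_mod_cast hone
  · -- Part II
    have hdq : d ∣ q := by
      have h1 : d ∣ q * p := by rw [← hroot]; exact Nat.gcd_dvd_left _ _
      have h2 : Nat.Coprime d p := by
        rw [Nat.coprime_comm]
        exact (Nat.Prime.coprime_iff_not_dvd hp).mpr fun h3 => hpm (h3.trans hddm)
      exact h2.dvd_of_dvd_mul_right h1
    have hdq' : d = q := by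
      rcases (Nat.dvd_prime hq).mp hdq with h1 | h1
      · rw [h1] at hd3; norm_num at hd3
      · exact h1
    rw [hdq'] at hT hone hd3 hmm
    refine CtxB.false (A := A) (n := n) (i0 := i0) (q := q) (p := p) (m := m') (l := l) (t := t)
      ⟨h, hq, hp, by exact_mod_cast hd3, hqp, by omega, hm'0, ?_, hroot, hout, hin, hT, ?_⟩
      (by omega)
    · intro h1
      apply hpm
      rw [hmm]
      exact h1.mul_right q
    · exact_mod_cast hone

end IntSys

namespace IsLambdaDesign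

variable {v lam : ℕ} {L : Finset (Finset (Fin v))}

theorem isType1_of_qp (h : IsLambdaDesign v lam L) {q p : ℕ} (hq : q.Prime) (hp : p.Prime)
    (hlam : lam = q * p) (hpq : IntSys.bdQ q ≤ p) : IsType1 v L := by
  obtain ⟨E, x, y, g, hE1, hE2, hI, hr1, hr2⟩ := h.exists_intSys
  refine h.isType1_of_const hE1 hE2 hI ?_
  refine hI.qp_const none hq hp (by rw [← hlam]; rfl) ?_ ?_ hpq
  · by_contra hcon
    push Not at hcon
    exact hE2 (Finset.eq_univ_iff_forall.mpr hcon)
  · exact Finset.nonempty_iff_ne_empty.mpr hE1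

end IsLambdaDesign

end Pool.Agent.Lib.MP_93e743_co
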