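import Pool.Agent.Lib.MP_93e743_qp.Theta
import Pool.Agent.Lib.MP_93e743_qp.Generic
import Pool.Agent.Lib.MP_93e743_qp.CaseB
import Pool.Agent.Lib.MP_93e743_qp.GenericB

/-!
The bound for `r₂` in Part I.
-/

namespace Pool.Agent.Lib.MP_93e743_co

open Finset

set_option linter.unusedSectionVars false

variable {ι X : Type*} [Fintype ι] [Fintype X] [DecidableEq ι] [DecidableEq X]

/-- The arithmetic at the end of the proof of `r2_le`. -/
lemma r2_arith {s y g m p q e l : ℤ} (hs0 : 0 < s) (hy : 0 < y) (hg : 0 < g) (hm : 1 ≤ m)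
    (hmq : m ≤ q) (hp : 0 < p) (_he1 : 1 ≤ e) (hl0 : 0 < l) (hl1 : l < p)
    (hs : s = 2 * y + m * p) (hes : m * e ≤ s * q) (hPhi : s * (p - l) ≤ 2 * p * (1776 * q ^ 2 * y))
    (h4 : 4 * (1776 * q ^ 2) * y ≤ s) (hge : 4 * e ≤ g * y)
    (hF : l ^ 2 * (g * y - 2 * e) ^ 2 ≤ 4 * s ^ 2 * (e - 1) * (g * (p - l))) :
    g * y ≤ 909312 * q ^ 4 * p := by
  have hq : 1 ≤ q := hm.trans hmq
  have hq2 : 1 ≤ q ^ 2 := one_le_pow₀ hq
  have hgy : 0 < g * y := mul_pos hg hy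
  -- `2 l' ≤ p`
  have h1 : s * (2 * (p - l)) ≤ s * p := by
    have h2 : p * (4 * (1776 * q ^ 2) * y) ≤ p * s := mul_le_mul_of_nonneg_left h4 hp.le
    linarith
  have h2 : 2 * (p - l) ≤ p := le_of_mul_le_mul_left h1 hs0
  have hpl : p ≤ 2 * l := by linarith
  -- `s ≤ 2 m p`
  have h3 : s ≤ 2 * (m * p) := by
    have h5 : 4 * y ≤ 4 * (1776 * q ^ 2) * y := by
      have : 4 * 1 * y ≤ 4 * (1776 * q ^ 2) * y := by
        apply mul_le_mul_of_nonneg_right _ hy.le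
        linarith
      linarith
    linarith
  -- from `F3`
  have h6 : (g * y) ^ 2 ≤ 4 * (g * y - 2 * e) ^ 2 := by
    have h7 : g * y ≤ 2 * (g * y - 2 * e) := by linarith
    have h8 := pow_le_pow_left₀ hgy.le h7 2
    linarith
  have h9 : l ^ 2 * (g * y) ^ 2 ≤ 16 * s ^ 2 * e * (g * (p - l)) := by
    have h10 : l ^ 2 * (g * y) ^ 2 ≤ l ^ 2 * (4 * (g * y - 2 * e) ^ 2) :=
      mul_le_mul_of_nonneg_left h6 (by positivity)
    have h11 : 4 * s ^ 2 * (e - 1) * (g * (p - l)) ≤ 4 * s ^ 2 * e * (g * (p - l)) := by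
      apply mul_le_mul_of_nonneg_right _ (mul_nonneg hg.le (by linarith))
      apply mul_le_mul_of_nonneg_left _ (by positivity)
      linarith
    linarith
  have h12 : p ^ 2 * (g * y) ^ 2 ≤ 64 * s ^ 2 * e * (g * (p - l)) := by
    have h13 : p ^ 2 ≤ (2 * l) ^ 2 := pow_le_pow_left₀ hp.le hpl 2
    have h14 : p ^ 2 * (g * y) ^ 2 ≤ (2 * l) ^ 2 * (g * y) ^ 2 :=
      mul_le_mul_of_nonneg_right h13 (by positivity)
    linarith
  have h15 : p ^ 2 * (g * y) ^ 2 * m ≤ 64 * s ^ 2 * g * (q * (2 * p * (1776 * q ^ 2 * y))) := by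
    calc p ^ 2 * (g * y) ^ 2 * m ≤ 64 * s ^ 2 * e * (g * (p - l)) * m :=
          mul_le_mul_of_nonneg_right h12 (by linarith)
      _ = (64 * s ^ 2 * g * (p - l)) * (m * e) := by ring
      _ ≤ (64 * s ^ 2 * g * (p - l)) * (s * q) := by
          apply mul_le_mul_of_nonneg_left hes
          exact mul_nonneg (by positivity) (by linarith)
      _ = (64 * s ^ 2 * g * q) * (s * (p - l)) := by ring
      _ ≤ (64 * s ^ 2 * g * q) * (2 * p * (1776 * q ^ 2 * y)) :=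
          mul_le_mul_of_nonneg_left hPhi (by positivity)
      _ = 64 * s ^ 2 * g * (q * (2 * p * (1776 * q ^ 2 * y))) := by ring
  have h16 : s ^ 2 ≤ (2 * (m * p)) ^ 2 := pow_le_pow_left₀ hs0.le h3 2
  have h17 : (p ^ 2 * (g * y) * m) * (g * y) ≤ (p ^ 2 * (g * y) * m) * (909312 * q ^ 3 * m * p) := by
    calc (p ^ 2 * (g * y) * m) * (g * y) = p ^ 2 * (g * y) ^ 2 * m := by ring
      _ ≤ 64 * s ^ 2 * g * (q * (2 * p * (1776 * q ^ 2 * y))) := h15
      _ = s ^ 2 * (64 * g * (q * (2 * p * (1776 * q ^ 2 * y)))) := by ring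
      _ ≤ (2 * (m * p)) ^ 2 * (64 * g * (q * (2 * p * (1776 * q ^ 2 * y)))) :=
          mul_le_mul_of_nonneg_right h16 (by positivity)
      _ = (p ^ 2 * (g * y) * m) * (909312 * q ^ 3 * m * p) := by ring
  have h18 : g * y ≤ 909312 * q ^ 3 * m * p := le_of_mul_le_mul_left h17 (by positivity)
  refine h18.trans ?_
  have h19 : 909312 * q ^ 3 * m * p ≤ 909312 * q ^ 3 * q * p := by
    apply mul_le_mul_of_nonneg_right _ hp.le
    exact mul_le_mul_of_nonneg_left hmq (by positivity)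
  calc 909312 * q ^ 3 * m * p ≤ 909312 * q ^ 3 * q * p := h19
    _ = 909312 * q ^ 4 * p := by ring

namespace CtxA

variable {A : ι → Finset X} {n : ι → ℕ} {x y g : ℕ} {i0 : ι} {q p m : ℕ} {l : ℤ}
  {t : X → X → ℤ}

/-- Both generic cases. -/
lemma generic (c : CtxA A n x y g i0 q p m l t) (hp16 : 16 ≤ p) (h8 : 8 * (q * p) ≤ g * y + 1) :
    ∃ P, Phi A n x g P ≤ 1776 * q ^ 2 * g * y := by
  rcases le_or_gt (p * (x + y)) (3 * (y * (g * y + 1))) with h3 | h3
  · exact c.genericA (by omega) h8 h3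
  · obtain ⟨hm, hy⟩ := c.caseB hp16 h3
    obtain ⟨P, hP⟩ := c.genericB hp16 hm hy h3
    refine ⟨P, hP.trans ?_⟩
    have hq : (1 : ℚ) ≤ q := by
      have := c.hq.one_lt.le
      exact_mod_cast this
    have hq2 : (1 : ℚ) ≤ (q : ℚ) ^ 2 := one_le_pow₀ hq
    have hg := c.sys.qg
    rw [hy, Nat.cast_one, mul_one]
    apply mul_le_mul_of_nonneg_right _ hg.le
    linarith

/-- `s l' ≤ 2 p C y`. -/
lemma s_mul_le (c : CtxA A n x y g i0 q p m l t) {P : X}
    (hP : Phi A n x g P ≤ 1776 * q ^ 2 * g * y) :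
    ((x : ℤ) + y) * (p - l) ≤ 2 * p * (1776 * q ^ 2 * y) := by
  have h1 := c.sys.Phi_ge c.hmZ c.hm0 c.T P
  have hg := c.sys.qg
  have hp : (0 : ℚ) < p := by exact_mod_cast c.hp.pos
  have h2 : 2 * ((p : ℚ) * Phi A n x g P) ≤ 2 * (p * (1776 * q ^ 2 * g * y)) := by
    have := mul_le_mul_of_nonneg_left hP hp.le
    linarith
  have h3 : (g : ℚ) * (((x : ℚ) + y) * (p - l)) ≤ g * (2 * p * (1776 * q ^ 2 * y)) := by
    linarith
  have h4 := le_of_mul_le_mul_left h3 hg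
  exact_mod_cast h4

/-- Row R2. -/
theorem r2_le (c : CtxA A n x y g i0 q p m l t) (hp16 : 16 ≤ p) :
    g * y + 1 ≤ 2000000 * q ^ 4 * p := by
  have hq2 : 2 ≤ q := c.hq.two_le
  have hp2 : 2 ≤ p := c.hp.two_le
  have hq3le : q ^ 3 ≤ q ^ 4 := Nat.pow_le_pow_right (by omega) (by norm_num)
  have hq1le : q ≤ q ^ 4 := by
    calc q = q ^ 1 := (pow_one q).symm
      _ ≤ q ^ 4 := Nat.pow_le_pow_right (by omega) (by norm_num)
  have hqp1 : q * p ≤ q ^ 4 * p := Nat.mul_le_mul_right _ hq1le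
  have hqp3 : q ^ 3 * p ≤ q ^ 4 * p := Nat.mul_le_mul_right _ hq3le
  have hqp0 : 1 ≤ q ^ 4 * p := Nat.mul_pos (by positivity) (by omega)
  have hgoal : 2000000 * q ^ 4 * p = 2000000 * (q ^ 4 * p) := by ring
  rw [hgoal]
  rcases lt_or_ge (g * y + 1) (8 * (q * p)) with h8 | h8
  · omega
  obtain ⟨P, hP⟩ := c.generic hp16 h8
  have hPhi := c.s_mul_le hP
  obtain ⟨P0, hP0⟩ := c.out
  have hy := c.sys.hy
  have hg := c.sys.hg
  rcases lt_or_ge (x + y) (4 * (1776 * q ^ 2) * y) with h4 | h4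
  · -- `s` small
    have h5 := c.y_lt
    have h6 : y * (g * y + 1) < y * (7104 * (q ^ 3 * p)) := by
      calc y * (g * y + 1) < (x + y) * (q * p) := h5
        _ ≤ (4 * (1776 * q ^ 2) * y) * (q * p) := Nat.mul_le_mul_right _ h4.le
        _ = y * (7104 * (q ^ 3 * p)) := by ring
    have h7 := lt_of_mul_lt_mul_left h6 (Nat.zero_le _)
    omega
  · have he := c.e_eq
    obtain ⟨e, hedef⟩ : ∃ e : ℤ, e = (((A i0)ᶜ.card : ℕ) : ℤ) := ⟨_, rfl⟩
    have he1 : (1 : ℤ) ≤ e := by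
      rw [hedef]
      exact_mod_cast Finset.card_pos.mpr ⟨P0, Finset.mem_compl.mpr hP0⟩
    have hyZ : (0 : ℤ) < y := by exact_mod_cast hy
    have hgZ : (0 : ℤ) < g := by exact_mod_cast hg
    have hpZ : (0 : ℤ) < p := by exact_mod_cast c.hp.pos
    have hxZ : (x : ℤ) = y + m * p := by rw [c.hx]; push_cast; ring
    have hes : (m : ℤ) * e ≤ ((x : ℤ) + y) * q := by
      have h5 : (p : ℤ) * (m * e) ≤ p * (((x : ℤ) + y) * q) := by
        rw [← hedef] at he
        have h6 : (0 : ℤ) < (y : ℤ) * (g * y + 1) := by positivity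
        linarith
      exact le_of_mul_le_mul_left h5 hpZ
    have hm1 : (1 : ℤ) ≤ m := by exact_mod_cast c.hm1
    have hmq : (m : ℤ) ≤ q := by exact_mod_cast c.hmq.le
    have h4Z : 4 * (1776 * (q : ℤ) ^ 2) * y ≤ (x : ℤ) + y := by exact_mod_cast h4
    rcases lt_or_ge ((g : ℤ) * y) (4 * e) with h7 | h7
    · -- `g y < 4 e ≤ 8 p q`
      have h8' : (m : ℤ) * (g * y) ≤ m * (8 * (q * p)) := by
        have h9 : (x : ℤ) + y ≤ 2 * (m * p) := by
          have h10 : 4 * (y : ℤ) ≤ 4 * (1776 * (q : ℤ) ^ 2) * y := by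
            have hq1 : (1 : ℤ) ≤ (q : ℤ) ^ 2 := one_le_pow₀ (by linarith)
            have : 4 * 1 * (y : ℤ) ≤ 4 * (1776 * (q : ℤ) ^ 2) * y := by
              apply mul_le_mul_of_nonneg_right _ hyZ.le
              linarith
            linarith
          linarith
        have h11 : ((x : ℤ) + y) * q ≤ 2 * (m * p) * q :=
          mul_le_mul_of_nonneg_right h9 (by linarith)
        have h12 : (m : ℤ) * (g * y) ≤ m * (4 * e) :=
          mul_le_mul_of_nonneg_left h7.le (by linarith)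
        linarith
      have h13 : (g : ℤ) * y ≤ 8 * (q * p) := le_of_mul_le_mul_left h8' (by linarith)
      have h14 : g * y ≤ 8 * (q * p) := by exact_mod_cast h13
      omega
    · have hF := c.sys.F3 c.hmZ c.hm0 c.T i0 hP0 (by rw [← hedef]; linarith)
      rw [← hedef] at hF
      have h5 := r2_arith (s := (x : ℤ) + y) (y := y) (g := g) (m := m) (p := p) (q := q) (e := e)
        (l := l) (by linarith [mul_pos (lt_of_lt_of_le one_pos hm1) hpZ]) hyZ hgZ hm1 hmq hpZ he1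
        c.T.l0 c.T.l1 (by rw [hxZ]; ring) hes hPhi h4Z h7 hF
      have h6 : g * y ≤ 909312 * q ^ 4 * p := by exact_mod_cast h5
      have h7' : 909312 * q ^ 4 * p = 909312 * (q ^ 4 * p) := by ring
      omega

end CtxA

end Pool.Agent.Lib.MP_93e743_co
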