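import Pool.Agent.Lib.MP_93e743_qp.Gram

/-!
Bounds for the row sums of `t`.
-/

namespace Pool.Agent.Lib.MP_93e743_co

open Finset

set_option linter.unusedSectionVars false

variable {ι X : Type*} [Fintype ι] [Fintype X] [DecidableEq ι] [DecidableEq X]

namespace IntSys

variable {A : ι → Finset X} {n : ι → ℕ} {x y g : ℕ}

section T

variable {d m' : ℕ} {l : ℤ} {t : X → X → ℤ}

lemma d_le_s (h : IntSys A n x y g) (hm : (x : ℤ) - y = m' * d) (hm' : m' ≠ 0) :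
    (d : ℤ) < x + y := by
  have hy : (0 : ℤ) < y := by exact_mod_cast h.hy
  have h1 : (1 : ℤ) ≤ m' := by exact_mod_cast Nat.one_le_iff_ne_zero.mpr hm'
  have h2 : (0 : ℤ) ≤ d := by positivity
  nlinarith

theorem theta_ge (h : IntSys A n x y g) (hm : (x : ℤ) - y = m' * d) (hm' : m' ≠ 0)
    (hT : TMat A x y g d m' l t) (P : X) : -(g * (d - l)) ≤ 2 * ∑ Q, t P Q := by
  have h1 := h.tkey hm hm' hT P
  have h2 := abs_le' t P
  have hs := h.d_le_s hm hm'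
  have hl0 := hT.l0
  have hl1 := hT.l1
  have hg : (0 : ℤ) < g := by exact_mod_cast h.hg
  set θ := ∑ Q, t P Q
  set N := ∑ Q, t P Q ^ 2
  have h3 : -θ ≤ N := (neg_le_abs θ).trans h2
  by_contra hcon
  rw [not_le] at hcon
  set s : ℤ := (x : ℤ) + y
  have h4 : s * (-θ) ≤ s * N := mul_le_mul_of_nonneg_left h3 (by linarith)
  have h5 : (-(2 * θ)) * (s + 2 * l - d) ≤ 2 * (g * (l * (d - l))) := by linarith
  have h6 : g * (d - l) * (s + 2 * l - d) < (-(2 * θ)) * (s + 2 * l - d) :=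
    mul_lt_mul_of_pos_right (by linarith) (by linarith)
  have h7 : g * (d - l) * (2 * l) ≤ g * (d - l) * (s + 2 * l - d) :=
    mul_le_mul_of_nonneg_left (by linarith) (mul_nonneg hg.le (by linarith))
  linarith

theorem theta_le (h : IntSys A n x y g) (hm : (x : ℤ) - y = m' * d) (hm' : m' ≠ 0)
    (hT : TMat A x y g d m' l t) (P : X) : 2 * ∑ Q, t P Q ≤ g * l := by
  have h1 := h.tkey hm hm' hT P
  have h2 := abs_le' t P
  have hs := h.d_le_s hm hm'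
  have hl0 := hT.l0
  have hl1 := hT.l1
  have hg : (0 : ℤ) < g := by exact_mod_cast h.hg
  set θ := ∑ Q, t P Q
  set N := ∑ Q, t P Q ^ 2
  have h3 : θ ≤ N := (le_abs_self θ).trans h2
  by_contra hcon
  rw [not_le] at hcon
  set s : ℤ := (x : ℤ) + y
  have h4 : s * θ ≤ s * N := mul_le_mul_of_nonneg_left h3 (by linarith)
  have h5 : (2 * θ) * (s - 2 * l + d) ≤ 2 * (g * (l * (d - l))) := by linarith
  have h6 : g * l * (s - 2 * l + d) < (2 * θ) * (s - 2 * l + d) :=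
    mul_lt_mul_of_pos_right (by linarith) (by linarith)
  have h7 : g * l * (2 * (d - l)) ≤ g * l * (s - 2 * l + d) :=
    mul_le_mul_of_nonneg_left (by linarith) (mul_nonneg hg.le (by linarith))
  linarith

theorem theta_diff (h : IntSys A n x y g) (hm : (x : ℤ) - y = m' * d) (hm' : m' ≠ 0)
    (hT : TMat A x y g d m' l t) (P : X) :
    ∑ Q, t P Q ^ 2 - ∑ Q, t P Q ≤ g * (d - l) := by
  have h1 := h.tkey hm hm' hT P
  have h2 := h.theta_ge hm hm' hT P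
  have hs := h.d_le_s hm hm'
  have hl0 := hT.l0
  have hl1 := hT.l1
  have hg : (0 : ℤ) < g := by exact_mod_cast h.hg
  set θ := ∑ Q, t P Q
  set N := ∑ Q, t P Q ^ 2
  set s : ℤ := (x : ℤ) + y
  have hs0 : 0 < s := by linarith
  have h3 : (s - 2 * l + d) * (-(2 * θ)) ≤ (s - 2 * l + d) * (g * (d - l)) :=
    mul_le_mul_of_nonneg_left (by linarith) (by linarith)
  have h4 : (2 * s) * (N - θ) ≤ g * (d - l) * (s + d) := by linarith
  have h5 : g * (d - l) * (s + d) ≤ g * (d - l) * (2 * s) :=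
    mul_le_mul_of_nonneg_left (by linarith) (mul_nonneg hg.le (by linarith))
  have h6 : (2 * s) * (N - θ) ≤ (2 * s) * (g * (d - l)) := by linarith
  exact le_of_mul_le_mul_left h6 (by linarith)

theorem Phi_ge (h : IntSys A n x y g) (hm : (x : ℤ) - y = m' * d) (hm' : m' ≠ 0)
    (hT : TMat A x y g d m' l t) (P : X) :
    ((x : ℚ) + y) * (g * (d - l)) ≤ 2 * (d * Phi A n x g P) := by
  have h1 := h.tphi hm hm' hT P
  have h2 : -((g : ℚ) * (d - l)) ≤ 2 * ∑ Q, (t P Q : ℚ) := by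
    exact_mod_cast h.theta_ge hm hm' hT P
  rw [h1]
  have hs : (0 : ℚ) < (x : ℚ) + y := by
    have := h.qx; have := h.qy; linarith
  nlinarith

theorem w_sq_le (h : IntSys A n x y g) (hm : (x : ℤ) - y = m' * d) (hm' : m' ≠ 0)
    (hT : TMat A x y g d m' l t) (i : ι) {P : X} (hP : P ∉ A i)
    (hw : ∑ Q ∈ (A i)ᶜ, t P Q ≤ 0) :
    (∑ Q ∈ (A i)ᶜ, t P Q) ^ 2 ≤ ((((A i)ᶜ.card : ℕ) : ℤ) - 1) * (g * (d - l)) := by
  have hPc : P ∈ (A i)ᶜ := Finset.mem_compl.mpr hP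
  set S := ((A i)ᶜ).erase P with hS
  have hcard : (S.card : ℤ) = (((A i)ᶜ.card : ℕ) : ℤ) - 1 := by
    rw [hS, Finset.card_erase_of_mem hPc, Nat.cast_sub]
    · simp
    · exact Finset.card_pos.mpr ⟨P, hPc⟩
  have hw' : ∑ Q ∈ (A i)ᶜ, t P Q = ∑ Q ∈ S, t P Q := by
    rw [← Finset.add_sum_erase _ _ hPc, hT.diag, zero_add]
  set w := ∑ Q ∈ (A i)ᶜ, t P Q
  set f := ∑ Q ∈ S, max (-t P Q) 0 with hf
  have h1 : -w ≤ f := by
    rw [hw', hf, ← Finset.sum_neg_distrib]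
    exact Finset.sum_le_sum fun Q _ => le_max_left _ _
  have h2 : w ^ 2 ≤ f ^ 2 := by
    have : (-w) ^ 2 ≤ f ^ 2 := pow_le_pow_left₀ (by linarith) h1 2
    linarith [neg_sq w]
  have h3 : f ^ 2 ≤ (S.card : ℤ) * ∑ Q ∈ S, (max (-t P Q) 0) ^ 2 := sq_sum_le_card_mul_sum_sq
  have h4 : ∀ Q, (max (-t P Q) 0) ^ 2 ≤ t P Q ^ 2 - t P Q := by
    intro Q
    rcases le_or_gt (t P Q) 0 with h5 | h5
    · rw [max_eq_left (by linarith)]; nlinarith
    · rw [max_eq_right (by linarith)]; nlinarith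
  have h5 : ∑ Q ∈ S, (max (-t P Q) 0) ^ 2 ≤ ∑ Q, (t P Q ^ 2 - t P Q) := by
    refine (Finset.sum_le_sum fun Q _ => h4 Q).trans ?_
    refine Finset.sum_le_sum_of_subset_of_nonneg (Finset.subset_univ _) fun Q _ _ => ?_
    exact (sq_nonneg _).trans (h4 Q)
  have h6 := h.theta_diff hm hm' hT P
  rw [← Finset.sum_sub_distrib] at h6
  rw [hcard] at h3
  have h7 : (0 : ℤ) ≤ (((A i)ᶜ.card : ℕ) : ℤ) - 1 := by rw [← hcard]; positivity
  calc w ^ 2 ≤ f ^ 2 := h2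
    _ ≤ ((((A i)ᶜ.card : ℕ) : ℤ) - 1) * ∑ Q ∈ S, (max (-t P Q) 0) ^ 2 := h3
    _ ≤ ((((A i)ᶜ.card : ℕ) : ℤ) - 1) * (g * (d - l)) :=
        mul_le_mul_of_nonneg_left (h5.trans h6) h7

theorem F3 (h : IntSys A n x y g) (hm : (x : ℤ) - y = m' * d) (hm' : m' ≠ 0)
    (hT : TMat A x y g d m' l t) (i : ι) {P : X} (hP : P ∉ A i)
    (he : 2 * (((A i)ᶜ.card : ℕ) : ℤ) ≤ g * y) :
    l ^ 2 * (g * y - 2 * (((A i)ᶜ.card : ℕ) : ℤ)) ^ 2 ≤
      4 * ((x : ℤ) + y) ^ 2 * ((((A i)ᶜ.card : ℕ) : ℤ) - 1) * (g * (d - l)) := by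
  have h1 := h.trow hm hm' hT i hP
  have h2 := h.theta_le hm hm' hT P
  have h3 := h.compl_card i
  have hl0 := hT.l0
  have hy : (0 : ℤ) < y := by exact_mod_cast h.hy
  have hs := h.d_le_s hm hm'
  have hl1 := hT.l1
  set e : ℤ := (((A i)ᶜ.card : ℕ) : ℤ) with hedef
  set s : ℤ := (x : ℤ) + y with hsdef
  have hs0 : 0 < s := by linarith
  have hb : bz A x g i = g * y + 1 - e := by linarith
  rw [hb] at h1
  have h4 : (y : ℤ) * (2 * ∑ Q, t P Q) ≤ y * (g * l) := mul_le_mul_of_nonneg_left h2 hy.le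
  have h5 : l * (g * y - 2 * e) ≤ -(2 * (s * ∑ Q ∈ (A i)ᶜ, t P Q)) := by
    rw [h1]
    have : 0 ≤ l := hl0.le
    linarith
  have h6 : 0 ≤ l * (g * y - 2 * e) := mul_nonneg hl0.le (by linarith)
  have hw : ∑ Q ∈ (A i)ᶜ, t P Q ≤ 0 := by
    by_contra hcon
    rw [not_le] at hcon
    have := mul_pos hs0 hcon
    linarith
  have h7 := h.w_sq_le hm hm' hT i hP hw
  have h8 : (l * (g * y - 2 * e)) ^ 2 ≤ (-(2 * (s * ∑ Q ∈ (A i)ᶜ, t P Q))) ^ 2 :=
    pow_le_pow_left₀ h6 h5 2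
  have h9 : s ^ 2 * (∑ Q ∈ (A i)ᶜ, t P Q) ^ 2 ≤ s ^ 2 * ((e - 1) * (g * (d - l))) :=
    mul_le_mul_of_nonneg_left h7 (by positivity)
  linarith

end T

end IntSys

end Pool.Agent.Lib.MP_93e743_co
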